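import Mathlib

/-!
# Two-variable Laplace transforms and the support function
-/

set_option autoImplicit false
set_option linter.unusedSectionVars false

namespace Pool.Agent.H58.Muntz

open MeasureTheory Set Filter Topology

variable {X : Type*} [MeasurableSpace X]

/-- Two-variable Laplace transform of `f dμ` with respect to the functions `u`, `v`. -/
noncomputable def LT (μ : Measure X) (f : X → ℂ) (u v : X → ℝ) (s t : ℂ) : ℂ :=
  ∫ x, f x * Complex.exp (-(s * u x + t * v x)) ∂μ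

/-- `c` is a lower bound of `a u + b v` on the support of `f`. -/
def LB (μ : Measure X) (f : X → ℂ) (u v : X → ℝ) (a b c : ℝ) : Prop :=
  ∀ᵐ x ∂μ, f x ≠ 0 → c ≤ a * u x + b * v x

variable {μ : Measure X} {f : X → ℂ} {u v : X → ℝ}

theorem LT_integrand_norm (s t : ℂ) (x : X) :
    ‖f x * Complex.exp (-(s * u x + t * v x))‖ =
      ‖f x‖ * Real.exp (-(s.re * u x + t.re * v x)) := by
  rw [norm_mul, Complex.norm_exp]
  congr 2
  simp

theorem LT_norm_le (hf : Integrable f μ) (s t : ℂ) (m : ℝ) (h : LB μ f u v s.re t.re m) :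
    ‖LT μ f u v s t‖ ≤ (∫ x, ‖f x‖ ∂μ) * Real.exp (-m) := by
  have h1 : ‖LT μ f u v s t‖ ≤ ∫ x, ‖f x‖ * Real.exp (-m) ∂μ := by
    refine norm_integral_le_of_norm_le (hf.norm.mul_const _) ?_
    filter_upwards [h] with x hx
    rw [LT_integrand_norm]
    by_cases hfx : f x = 0
    · simp [hfx]
    · exact mul_le_mul_of_nonneg_left (Real.exp_le_exp.2 (by linarith [hx hfx])) (norm_nonneg _)
  rwa [integral_mul_const] at h1

theorem LT_measurable (hf : AEStronglyMeasurable f μ) (hu : Measurable u) (hv : Measurable v)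
    (s t : ℂ) : AEStronglyMeasurable (fun x => f x * Complex.exp (-(s * u x + t * v x))) μ := by
  refine hf.mul ?_
  have : Measurable fun x => Complex.exp (-(s * (u x : ℂ) + t * (v x : ℂ))) := by fun_prop
  exact this.aestronglyMeasurable

theorem LT_differentiableAt (hf : Integrable f μ) (hu : Measurable u) (hv : Measurable v)
    (hu0 : ∀ x, 0 ≤ u x) (hv0 : ∀ x, 0 ≤ v x) {p q : ℝ} (hp : 0 ≤ p) (hq : 0 ≤ q) (α β z0 : ℂ)
    (h1 : 0 < ((p : ℂ) * z0 + α).re) (h2 : 0 < ((q : ℂ) * z0 + β).re) :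
    DifferentiableAt ℂ (fun z => LT μ f u v (p * z + α) (q * z + β)) z0 := by
  set σ : ℝ := min ((p : ℂ) * z0 + α).re ((q : ℂ) * z0 + β).re / 2 with hσ
  have hσ0 : 0 < σ := by rw [hσ]; exact half_pos (lt_min h1 h2)
  set s : Set ℂ := {z | σ < ((p : ℂ) * z + α).re ∧ σ < ((q : ℂ) * z + β).re} with hs
  have hsopen : IsOpen s := by
    have e1 : IsOpen {z : ℂ | σ < ((p : ℂ) * z + α).re} :=
      isOpen_lt continuous_const (by fun_prop)
    have e2 : IsOpen {z : ℂ | σ < ((q : ℂ) * z + β).re} :=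
      isOpen_lt continuous_const (by fun_prop)
    exact e1.inter e2
  have hz0 : z0 ∈ s := by
    constructor
    · have := min_le_left ((p : ℂ) * z0 + α).re ((q : ℂ) * z0 + β).re
      rw [hσ]; linarith
    · have := min_le_right ((p : ℂ) * z0 + α).re ((q : ℂ) * z0 + β).re
      rw [hσ]; linarith
  have key := hasDerivAt_integral_of_dominated_loc_of_deriv_le (μ := μ) (𝕜 := ℂ)
    (F := fun z x => f x * Complex.exp (-((p * z + α) * u x + (q * z + β) * v x)))
    (F' := fun z x => f x * (Complex.exp (-((p * z + α) * u x + (q * z + β) * v x)) *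
      (-((p : ℂ) * u x + q * v x))))
    (bound := fun x => ‖f x‖ * ((p + q) / σ)) (x₀ := z0) (s := s) (hsopen.mem_nhds hz0)
    (Filter.Eventually.of_forall fun z => LT_measurable hf.aestronglyMeasurable hu hv _ _)
    ?_ ?_ ?_ (hf.norm.mul_const _) ?_
  · exact key.2.differentiableAt
  · refine hf.norm.mono' (LT_measurable hf.aestronglyMeasurable hu hv _ _) ?_
    refine Filter.Eventually.of_forall fun x => ?_
    rw [LT_integrand_norm]
    refine mul_le_of_le_one_right (norm_nonneg _) (Real.exp_le_one_iff.2 ?_)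
    have := mul_nonneg h1.le (hu0 x)
    have := mul_nonneg h2.le (hv0 x)
    linarith
  · refine hf.aestronglyMeasurable.mul ?_
    have : Measurable fun x => Complex.exp (-(((p : ℂ) * z0 + α) * (u x : ℂ) +
      (q * z0 + β) * (v x : ℂ))) * (-((p : ℂ) * u x + q * v x)) := by fun_prop
    exact this.aestronglyMeasurable
  · refine Filter.Eventually.of_forall fun x z hz => ?_
    rw [norm_mul, norm_mul]
    refine mul_le_mul_of_nonneg_left ?_ (norm_nonneg _)
    rw [Complex.norm_exp, norm_neg]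
    have hre : (-(((p : ℂ) * z + α) * (u x : ℂ) + (q * z + β) * (v x : ℂ))).re =
        -((((p : ℂ) * z + α).re) * u x + (((q : ℂ) * z + β).re) * v x) := by simp
    rw [hre]
    have hn : ‖(p : ℂ) * u x + q * v x‖ ≤ (p + q) * (u x + v x) := by
      have : (p : ℂ) * u x + q * v x = ((p * u x + q * v x : ℝ) : ℂ) := by push_cast; rfl
      rw [this, Complex.norm_real, Real.norm_eq_abs, abs_of_nonneg
        (add_nonneg (mul_nonneg hp (hu0 x)) (mul_nonneg hq (hv0 x)))]
      nlinarith [mul_nonneg hp (hv0 x), mul_nonneg hq (hu0 x)]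
    have hy : 0 ≤ u x + v x := add_nonneg (hu0 x) (hv0 x)
    have hexp : Real.exp (-((((p : ℂ) * z + α).re) * u x + (((q : ℂ) * z + β).re) * v x)) ≤
        Real.exp (-(σ * (u x + v x))) := by
      apply Real.exp_le_exp.2
      have e1 := mul_le_mul_of_nonneg_right hz.1.le (hu0 x)
      have e2 := mul_le_mul_of_nonneg_right hz.2.le (hv0 x)
      linarith
    have hye : (u x + v x) * Real.exp (-(σ * (u x + v x))) ≤ 1 / σ := by
      rw [le_div_iff₀ hσ0, Real.exp_neg]
      have e1 := Real.add_one_le_exp (σ * (u x + v x))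
      have e2 := Real.exp_pos (σ * (u x + v x))
      rw [mul_assoc, mul_comm, mul_assoc, inv_mul_le_iff₀ e2]
      linarith
    calc Real.exp (-((((p : ℂ) * z + α).re) * u x + (((q : ℂ) * z + β).re) * v x)) *
          ‖(p : ℂ) * u x + q * v x‖
        ≤ Real.exp (-(σ * (u x + v x))) * ((p + q) * (u x + v x)) :=
          mul_le_mul hexp hn (norm_nonneg _) (Real.exp_pos _).le
      _ = (p + q) * ((u x + v x) * Real.exp (-(σ * (u x + v x)))) := by ring
      _ ≤ (p + q) * (1 / σ) := mul_le_mul_of_nonneg_left hye (by positivity)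
      _ = (p + q) / σ := by ring
  · refine Filter.Eventually.of_forall fun x z _ => ?_
    have e1 : HasDerivAt (fun z : ℂ => -(((p : ℂ) * z + α) * u x + (q * z + β) * v x))
        (-((p : ℂ) * u x + q * v x)) z := by
      have a1 : HasDerivAt (fun z : ℂ => ((p : ℂ) * z + α) * u x) ((p : ℂ) * u x) z := by
        have := (((hasDerivAt_id z).const_mul (p : ℂ)).add_const α).mul_const (u x : ℂ)
        simpa using this
      have a2 : HasDerivAt (fun z : ℂ => ((q : ℂ) * z + β) * v x) ((q : ℂ) * v x) z := by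
        have := (((hasDerivAt_id z).const_mul (q : ℂ)).add_const β).mul_const (v x : ℂ)
        simpa using this
      exact (a1.add a2).neg
    exact (e1.cexp).const_mul (f x)

theorem LT_diffOn_left (hf : Integrable f μ) (hu : Measurable u) (hv : Measurable v)
    (hu0 : ∀ x, 0 ≤ u x) (hv0 : ∀ x, 0 ≤ v x) (t : ℂ) (ht : 0 < t.re) :
    DifferentiableOn ℂ (fun s => LT μ f u v s t) {z | 0 < z.re} := by
  intro s hs
  have := LT_differentiableAt hf hu hv hu0 hv0 (p := 1) (q := 0) zero_le_one le_rfl 0 t s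
    (by simpa using hs) (by simpa using ht)
  simpa using this.differentiableWithinAt

theorem LT_diffOn_right (hf : Integrable f μ) (hu : Measurable u) (hv : Measurable v)
    (hu0 : ∀ x, 0 ≤ u x) (hv0 : ∀ x, 0 ≤ v x) (s : ℂ) (hs : 0 < s.re) :
    DifferentiableOn ℂ (fun t => LT μ f u v s t) {z | 0 < z.re} := by
  intro t ht
  have := LT_differentiableAt hf hu hv hu0 hv0 (p := 0) (q := 1) le_rfl zero_le_one s 0 t
    (by simpa using hs) (by simpa using ht)
  simpa using this.differentiableWithinAt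

/-- The support function. -/
noncomputable def kap (μ : Measure X) (f : X → ℂ) (u v : X → ℝ) (a b : ℝ) : ℝ :=
  sSup {c | LB μ f u v a b c}

section kap

variable (hu0 : ∀ x, 0 ≤ u x) (hv0 : ∀ x, 0 ≤ v x)

include hu0 hv0

theorem LB_zero {a b : ℝ} (ha : 0 ≤ a) (hb : 0 ≤ b) : LB μ f u v a b 0 :=
  Filter.Eventually.of_forall fun x _ =>
    add_nonneg (mul_nonneg ha (hu0 x)) (mul_nonneg hb (hv0 x))

theorem exists_M0 (hne : μ {x | f x ≠ 0} ≠ 0) :
    ∃ M0 : ℝ, 0 ≤ M0 ∧ ∀ a b c D : ℝ, 0 ≤ a → 0 ≤ b → a ≤ D → b ≤ D → LB μ f u v a b c →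
      c ≤ D * M0 := by
  have h1 : {x | f x ≠ 0} = ⋃ n : ℕ, {x | f x ≠ 0 ∧ u x + v x ≤ n} := by
    ext x
    simp only [Set.mem_ofPred_eq, Set.mem_iUnion]
    constructor
    · intro h; obtain ⟨n, hn⟩ := exists_nat_ge (u x + v x); exact ⟨n, h, hn⟩
    · rintro ⟨n, h, _⟩; exact h
  have h2 : ∃ n : ℕ, μ {x | f x ≠ 0 ∧ u x + v x ≤ n} ≠ 0 := by
    by_contra hcon
    push Not at hcon
    apply hne
    rw [h1]
    exact measure_iUnion_null hcon
  obtain ⟨n, hn⟩ := h2
  refine ⟨n, Nat.cast_nonneg n, ?_⟩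
  intro a b c D ha hb haD hbD hc
  have h3 : ∃ x, (f x ≠ 0 ∧ u x + v x ≤ n) ∧ (f x ≠ 0 → c ≤ a * u x + b * v x) := by
    by_contra hcon
    push Not at hcon
    apply hn
    have h4 : ∀ᵐ x ∂μ, ¬ (f x ≠ 0 ∧ u x + v x ≤ n) := by
      filter_upwards [hc] with x hx hx2
      have h5 := hcon x hx2
      exact absurd (hx hx2.1) (not_le.2 h5.2)
    rw [ae_iff] at h4
    simpa using h4
  obtain ⟨x, ⟨hx1, hx2⟩, hx3⟩ := h3
  have h6 := hx3 hx1
  have hD : 0 ≤ D := ha.trans haD
  have := mul_le_mul_of_nonneg_right haD (hu0 x)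
  have := mul_le_mul_of_nonneg_right hbD (hv0 x)
  nlinarith [mul_le_mul_of_nonneg_left hx2 hD]

theorem LB_bddAbove (hne : μ {x | f x ≠ 0} ≠ 0) {a b : ℝ} (ha : 0 ≤ a) (hb : 0 ≤ b) :
    BddAbove {c | LB μ f u v a b c} := by
  obtain ⟨M0, _, h⟩ := exists_M0 hu0 hv0 hne
  exact ⟨max a b * M0, fun c hc => h a b c (max a b) ha hb (le_max_left _ _) (le_max_right _ _) hc⟩

theorem le_kap (hne : μ {x | f x ≠ 0} ≠ 0) {a b c : ℝ} (ha : 0 ≤ a) (hb : 0 ≤ b)
    (h : LB μ f u v a b c) : c ≤ kap μ f u v a b :=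
  le_csSup (LB_bddAbove hu0 hv0 hne ha hb) h

theorem LB_kap {a b : ℝ} (ha : 0 ≤ a) (hb : 0 ≤ b) :
    LB μ f u v a b (kap μ f u v a b) := by
  have hnonempty : {c | LB μ f u v a b c}.Nonempty := ⟨0, LB_zero hu0 hv0 ha hb⟩
  have h1 : ∀ n : ℕ, LB μ f u v a b (kap μ f u v a b - 1 / (n + 1)) := by
    intro n
    have hlt : kap μ f u v a b - 1 / ((n : ℝ) + 1) < sSup {c | LB μ f u v a b c} := by
      have : 0 < 1 / ((n : ℝ) + 1) := by positivity
      show kap μ f u v a b - 1 / ((n : ℝ) + 1) < kap μ f u v a b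
      linarith
    obtain ⟨c, hc, hlt'⟩ := exists_lt_of_lt_csSup hnonempty hlt
    filter_upwards [hc] with x hx hfx
    exact hlt'.le.trans (hx hfx)
  have h2 := ae_all_iff.2 h1
  filter_upwards [h2] with x hx hfx
  refine le_of_forall_pos_le_add fun ε hε => ?_
  obtain ⟨n, hn⟩ := exists_nat_one_div_lt hε
  have := hx n hfx
  linarith

end kap

end Pool.Agent.H58.Muntz
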