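import Mathlib

/-!
# Interpolation estimates for bounded analytic functions (disc and half-plane)
-/

set_option autoImplicit false

namespace Pool.Agent.H58.Muntz

open Complex Set Filter Metric Topology

/-- Factoring out finitely many zeros of an analytic function. -/
theorem factor {U : Set ℂ} (hU : IsOpen U) (S : Finset ℂ) : ∀ (g : ℂ → ℂ)
    (_ : DifferentiableOn ℂ g U) (_ : ∀ x ∈ S, x ∈ U ∧ g x = 0),
    ∃ h : ℂ → ℂ, DifferentiableOn ℂ h U ∧ ∀ z ∈ U, g z = h z * ∏ x ∈ S, (z - x) := by
  classical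
  induction S using Finset.induction_on with
  | empty => exact fun g hg _ => ⟨g, hg, fun z _ => by simp⟩
  | insert a s ha ih =>
    intro g hg hS
    have haU := (hS a (Finset.mem_insert_self a s)).1
    have ha0 := (hS a (Finset.mem_insert_self a s)).2
    obtain ⟨h, hh, hgh⟩ := ih (dslope g a)
      ((Complex.differentiableOn_dslope (hU.mem_nhds haU)).2 hg) (by
        intro x hx
        have hxU := hS x (Finset.mem_insert_of_mem hx)
        refine ⟨hxU.1, ?_⟩
        have hne : x ≠ a := by rintro rfl; exact ha hx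
        rw [dslope_of_ne _ hne, slope_def_field, hxU.2, ha0]; simp)
    refine ⟨h, hh, fun z hz => ?_⟩
    rw [Finset.prod_insert ha]
    have h1 : g z = (z - a) * dslope g a z := by
      have := sub_smul_dslope g a z
      rw [ha0, sub_zero] at this
      rw [← this]; rfl
    rw [h1, hgh z hz]; ring

theorem prod_abs_sub (K i : ℕ) (hi : i < K) :
    ∏ j ∈ (Finset.range K).erase i, |(i : ℝ) - j| = (i.factorial : ℝ) * (K - 1 - i).factorial := by
  have hsplit : (Finset.range K).erase i = Finset.range i ∪ Finset.Ico (i + 1) K := by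
    ext j; simp only [Finset.mem_erase, Finset.mem_range, Finset.mem_union, Finset.mem_Ico]; omega
  have hdisj : Disjoint (Finset.range i) (Finset.Ico (i + 1) K) := by
    rw [Finset.disjoint_left]; intro j; simp only [Finset.mem_range, Finset.mem_Ico]; omega
  rw [hsplit, Finset.prod_union hdisj]
  congr 1
  · rw [← Finset.prod_range_reflect]
    rw [← Finset.prod_range_add_one_eq_factorial]
    push_cast
    refine Finset.prod_congr rfl fun j hj => ?_
    have hj' := Finset.mem_range.1 hj
    have : ((i - 1 - j : ℕ) : ℝ) = (i : ℝ) - 1 - j := by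
      rw [Nat.cast_sub (by omega), Nat.cast_sub (by omega)]; simp
    rw [this]
    rw [abs_of_nonneg (by ring_nf; positivity)]; ring
  · rw [Finset.prod_Ico_eq_prod_range]
    rw [← Finset.prod_range_add_one_eq_factorial]
    push_cast
    have : K - (i + 1) = K - 1 - i := by omega
    rw [this]
    refine Finset.prod_congr rfl fun j hj => ?_
    rw [abs_of_nonpos (by push_cast; linarith [(Nat.cast_nonneg j : (0:ℝ) ≤ j)])]
    ring

theorem node_prod_le {K i : ℕ} (hi : i < K) {c : ℝ} (y : ℕ → ℝ)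
    (hy : ∀ j ∈ (Finset.range K).erase i, 0 ≤ y j ∧ y j * |(i : ℝ) - j| ≤ c) :
    ∏ j ∈ (Finset.range K).erase i, y j ≤ (2 * c) ^ (K - 1) / (K - 1).factorial := by
  have h1 : (∏ j ∈ (Finset.range K).erase i, y j) * ((i.factorial : ℝ) * (K - 1 - i).factorial)
      ≤ c ^ (K - 1) := by
    rw [← prod_abs_sub K i hi, ← Finset.prod_mul_distrib]
    calc ∏ j ∈ (Finset.range K).erase i, y j * |(i : ℝ) - j|
        ≤ ∏ _j ∈ (Finset.range K).erase i, c :=
          Finset.prod_le_prod (fun j hj => mul_nonneg (hy j hj).1 (abs_nonneg _))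
            (fun j hj => (hy j hj).2)
      _ = c ^ (K - 1) := by
          rw [Finset.prod_const, Finset.card_erase_of_mem (Finset.mem_range.2 hi),
            Finset.card_range]
  have h2 : ((K - 1).factorial : ℝ) ≤ 2 ^ (K - 1) * ((i.factorial : ℝ) * (K - 1 - i).factorial) := by
    have h3 := Nat.choose_mul_factorial_mul_factorial (show i ≤ K - 1 by omega)
    have h4 : (K - 1).choose i ≤ 2 ^ (K - 1) := Nat.choose_le_two_pow _ _
    have h5 : (K - 1).factorial ≤ 2 ^ (K - 1) * (i.factorial * (K - 1 - i).factorial) := by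
      rw [← h3, mul_assoc]; exact Nat.mul_le_mul_right _ h4
    exact_mod_cast h5
  rw [le_div_iff₀ (by positivity)]
  have h0 : 0 ≤ ∏ j ∈ (Finset.range K).erase i, y j := Finset.prod_nonneg fun j hj => (hy j hj).1
  calc (∏ j ∈ (Finset.range K).erase i, y j) * ((K - 1).factorial : ℝ)
      ≤ (∏ j ∈ (Finset.range K).erase i, y j) *
          (2 ^ (K - 1) * ((i.factorial : ℝ) * (K - 1 - i).factorial)) :=
        mul_le_mul_of_nonneg_left h2 h0
    _ = 2 ^ (K - 1) * ((∏ j ∈ (Finset.range K).erase i, y j) *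
          ((i.factorial : ℝ) * (K - 1 - i).factorial)) := by ring
    _ ≤ 2 ^ (K - 1) * c ^ (K - 1) := by gcongr
    _ = (2 * c) ^ (K - 1) := by rw [mul_pow]

/-- Interpolation in a disc. -/
theorem disc_interp {c : ℂ} {R A ε : ℝ} (hR : 0 < R) {U : Set ℂ} (hU : IsOpen U)
    (hUb : closedBall c R ⊆ U) (g : ℂ → ℂ) (hg : DifferentiableOn ℂ g U)
    (hA : ∀ z ∈ closedBall c R, ‖g z‖ ≤ A) {K : ℕ} (x : ℕ → ℂ)
    (hx : ∀ i < K, x i ∈ closedBall c (R / 8))
    (hsep : ∀ i < K, ∀ j < K, |(i : ℝ) - j| ≤ ‖x i - x j‖)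
    (hε : ∀ i < K, ‖g (x i)‖ ≤ ε) (hε0 : 0 ≤ ε) {B : ℝ}
    (hB : (9 * R / 4) ^ (K - 1) / (K - 1).factorial ≤ B) :
    ∀ z ∈ closedBall c (R / 8), ‖g z‖ ≤ (A + K * ε * B) * (2 / 7) ^ K + K * ε * B := by
  classical
  have hB0 : 0 ≤ B := le_trans (by positivity) hB
  have hA0 : 0 ≤ A := (norm_nonneg _).trans (hA c (mem_closedBall_self hR.le))
  set e : ℕ → ℂ → ℂ := fun i z => ∏ j ∈ (Finset.range K).erase i, (z - x j) / (x i - x j) with he
  have hne : ∀ i < K, ∀ j < K, i ≠ j → x i - x j ≠ 0 := by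
    intro i hi j hj hij h0
    have := hsep i hi j hj
    rw [h0, norm_zero] at this
    have h2 : (i : ℝ) - j = 0 := abs_nonpos_iff.1 this
    exact hij (by exact_mod_cast sub_eq_zero.1 h2)
  have hxR : ∀ i < K, x i ∈ closedBall c R := fun i hi =>
    closedBall_subset_closedBall (by linarith) (hx i hi)
  have heB : ∀ i < K, ∀ z ∈ closedBall c R, ‖e i z‖ ≤ B := by
    intro i hi z hz
    refine le_trans ?_ hB
    simp only [he, norm_prod]
    have := node_prod_le (K := K) (i := i) hi (c := 9 * R / 8)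
      (fun j => ‖(z - x j) / (x i - x j)‖) (by
        intro j hj
        have hj' : j < K := Finset.mem_range.1 (Finset.mem_of_mem_erase hj)
        have hji : j ≠ i := Finset.ne_of_mem_erase hj
        refine ⟨norm_nonneg _, ?_⟩
        have h1 : ‖(z - x j) / (x i - x j)‖ * |(i : ℝ) - j| ≤
            ‖(z - x j) / (x i - x j)‖ * ‖x i - x j‖ :=
          mul_le_mul_of_nonneg_left (hsep i hi j hj') (norm_nonneg _)
        refine h1.trans ?_
        rw [← norm_mul, div_mul_cancel₀ _ (hne i hi j hj' (Ne.symm hji))]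
        have h2 : ‖z - c‖ ≤ R := by simpa [dist_eq_norm] using hz
        have h3 : ‖x j - c‖ ≤ R / 8 := by simpa [dist_eq_norm] using hx j hj'
        calc ‖z - x j‖ = ‖(z - c) - (x j - c)‖ := by ring_nf
          _ ≤ ‖z - c‖ + ‖x j - c‖ := norm_sub_le _ _
          _ ≤ 9 * R / 8 := by linarith)
    refine this.trans (le_of_eq ?_)
    ring_nf
  have hed : ∀ i, Differentiable ℂ (e i) := by
    intro i
    simp only [he]
    fun_prop
  set G1 : ℂ → ℂ := fun z => g z - ∑ i ∈ Finset.range K, g (x i) * e i z with hG1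
  have hG1d : DifferentiableOn ℂ G1 U := by
    refine hg.sub (DifferentiableOn.fun_sum fun i _ => ?_)
    exact ((hed i).const_mul _).differentiableOn
  have hG1b : ∀ z ∈ closedBall c R, ‖G1 z‖ ≤ A + K * ε * B ∧
      ‖∑ i ∈ Finset.range K, g (x i) * e i z‖ ≤ K * ε * B := by
    intro z hz
    have h1 : ‖∑ i ∈ Finset.range K, g (x i) * e i z‖ ≤ K * ε * B := by
      calc ‖∑ i ∈ Finset.range K, g (x i) * e i z‖ ≤ ∑ i ∈ Finset.range K, ε * B := by
            refine norm_sum_le_of_le _ fun i hi => ?_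
            rw [norm_mul]
            have hi' := Finset.mem_range.1 hi
            exact mul_le_mul (hε i hi') (heB i hi' z hz) (norm_nonneg _) hε0
        _ = K * ε * B := by rw [Finset.sum_const, Finset.card_range, nsmul_eq_mul]; ring
    refine ⟨?_, h1⟩
    calc ‖G1 z‖ ≤ ‖g z‖ + ‖∑ i ∈ Finset.range K, g (x i) * e i z‖ := norm_sub_le _ _
      _ ≤ A + K * ε * B := add_le_add (hA z hz) h1
  have hinj : Set.InjOn x (Finset.range K : Set ℕ) := by
    intro i hi j hj hij
    by_contra hne'
    exact hne i (by simpa using hi) j (by simpa using hj) hne' (by rw [hij]; simp)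
  have hG10 : ∀ k < K, G1 (x k) = 0 := by
    intro k hk
    simp only [hG1]
    rw [Finset.sum_eq_single k]
    · have : e k (x k) = 1 := by
        simp only [he]
        refine Finset.prod_eq_one fun j hj => ?_
        exact div_self (hne k hk j (Finset.mem_range.1 (Finset.mem_of_mem_erase hj))
          (Finset.ne_of_mem_erase hj).symm)
      rw [this]; ring
    · intro i hi hik
      have : e i (x k) = 0 := by
        simp only [he]
        refine Finset.prod_eq_zero (i := k) ?_ (by simp)
        exact Finset.mem_erase.2 ⟨Ne.symm hik, Finset.mem_range.2 hk⟩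
      rw [this, mul_zero]
    · intro h; exact absurd (Finset.mem_range.2 hk) h
  obtain ⟨h, hh, hGh⟩ := factor hU ((Finset.range K).image x) G1 hG1d (by
    intro y hy
    obtain ⟨i, hi, rfl⟩ := Finset.mem_image.1 hy
    exact ⟨hUb (hxR i (Finset.mem_range.1 hi)), hG10 i (Finset.mem_range.1 hi)⟩)
  have hprod : ∀ z, ∏ y ∈ (Finset.range K).image x, (z - y) = ∏ i ∈ Finset.range K, (z - x i) :=
    fun z => Finset.prod_image hinj
  have hhb : ∀ z ∈ closedBall c R, ‖h z‖ ≤ (A + K * ε * B) / (7 * R / 8) ^ K := by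
    intro z hz
    have hdc : DiffContOnCl ℂ h (ball c R) := by
      refine (hh.mono ?_).diffContOnCl
      rw [closure_ball c hR.ne']; exact hUb
    refine Complex.norm_le_of_forall_mem_frontier_norm_le (isBounded_ball (x := c) (r := R)) hdc
      ?_ (by rw [closure_ball c hR.ne']; exact hz)
    intro w hw
    rw [frontier_ball c hR.ne'] at hw
    have hwn : ‖w - c‖ = R := by simpa [dist_eq_norm] using hw
    have hwb : w ∈ closedBall c R := sphere_subset_closedBall hw
    have h1 := (hG1b w hwb).1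
    rw [hGh w (hUb hwb), hprod, norm_mul, norm_prod] at h1
    have h2 : (7 * R / 8) ^ K ≤ ∏ i ∈ Finset.range K, ‖w - x i‖ := by
      calc (7 * R / 8) ^ K = ∏ _i ∈ Finset.range K, (7 * R / 8) := by
            rw [Finset.prod_const, Finset.card_range]
        _ ≤ _ := by
            refine Finset.prod_le_prod (fun _ _ => by positivity) fun i hi => ?_
            have h3 : ‖x i - c‖ ≤ R / 8 := by
              simpa [dist_eq_norm] using hx i (Finset.mem_range.1 hi)
            have h4 : ‖w - c‖ ≤ ‖w - x i‖ + ‖x i - c‖ := by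
              have := norm_add_le (w - x i) (x i - c)
              simpa using this
            linarith
    rw [le_div_iff₀ (by positivity)]
    exact (mul_le_mul_of_nonneg_left h2 (norm_nonneg _)).trans h1
  intro z hz
  have hzR : z ∈ closedBall c R := closedBall_subset_closedBall (by linarith) hz
  have hz8 : ‖z - c‖ ≤ R / 8 := by simpa [dist_eq_norm] using hz
  have h5 : g z = G1 z + ∑ i ∈ Finset.range K, g (x i) * e i z := by simp [hG1]
  have h6 : ‖G1 z‖ ≤ (A + K * ε * B) * (2 / 7) ^ K := by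
    rw [hGh z (hUb hzR), hprod, norm_mul, norm_prod]
    have h7 : ∏ i ∈ Finset.range K, ‖z - x i‖ ≤ (R / 4) ^ K := by
      calc ∏ i ∈ Finset.range K, ‖z - x i‖ ≤ ∏ _i ∈ Finset.range K, (R / 4) := by
            refine Finset.prod_le_prod (fun _ _ => norm_nonneg _) fun i hi => ?_
            have h3 : ‖x i - c‖ ≤ R / 8 := by
              simpa [dist_eq_norm] using hx i (Finset.mem_range.1 hi)
            calc ‖z - x i‖ = ‖(z - c) - (x i - c)‖ := by ring_nf
              _ ≤ ‖z - c‖ + ‖x i - c‖ := norm_sub_le _ _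
              _ ≤ R / 4 := by linarith
        _ = (R / 4) ^ K := by rw [Finset.prod_const, Finset.card_range]
    calc ‖h z‖ * ∏ i ∈ Finset.range K, ‖z - x i‖
        ≤ (A + K * ε * B) / (7 * R / 8) ^ K * (R / 4) ^ K :=
          mul_le_mul (hhb z hzR) h7 (Finset.prod_nonneg fun _ _ => norm_nonneg _) (by positivity)
      _ = (A + K * ε * B) * (2 / 7) ^ K := by
          have h8 : (2 / 7 : ℝ) ^ K = (R / 4) ^ K / (7 * R / 8) ^ K := by
            rw [← div_pow]; congr 1; field_simp; norm_num
          rw [h8]; ring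
  calc ‖g z‖ ≤ ‖G1 z‖ + ‖∑ i ∈ Finset.range K, g (x i) * e i z‖ := by
        rw [h5]; exact norm_add_le _ _
    _ ≤ _ := add_le_add h6 (hG1b z hzR).2

/-- Schwarz lemma for many zeros in a disc. -/
theorem disc_zeros {c : ℂ} {R A : ℝ} (hR : 0 < R) {U : Set ℂ} (hU : IsOpen U)
    (hUb : closedBall c R ⊆ U) (g : ℂ → ℂ) (hg : DifferentiableOn ℂ g U)
    (hA : ∀ z ∈ closedBall c R, ‖g z‖ ≤ A) (S : Finset ℂ)
    (hS : ∀ x ∈ S, x ∈ closedBall c (R / 8) ∧ g x = 0) :
    ∀ z ∈ closedBall c (R / 8), ‖g z‖ ≤ A * (2 / 7) ^ S.card := by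
  have hA0 : 0 ≤ A := (norm_nonneg _).trans (hA c (mem_closedBall_self hR.le))
  have hsub : closedBall c (R / 8) ⊆ closedBall c R := closedBall_subset_closedBall (by linarith)
  obtain ⟨h, hh, hGh⟩ := factor hU S g hg (fun x hx => ⟨hUb (hsub (hS x hx).1), (hS x hx).2⟩)
  have hhb : ∀ z ∈ closedBall c R, ‖h z‖ ≤ A / (7 * R / 8) ^ S.card := by
    intro z hz
    have hdc : DiffContOnCl ℂ h (ball c R) := by
      refine (hh.mono ?_).diffContOnCl
      rw [closure_ball c hR.ne']; exact hUb
    refine Complex.norm_le_of_forall_mem_frontier_norm_le (isBounded_ball (x := c) (r := R)) hdc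
      ?_ (by rw [closure_ball c hR.ne']; exact hz)
    intro w hw
    rw [frontier_ball c hR.ne'] at hw
    have hwn : ‖w - c‖ = R := by simpa [dist_eq_norm] using hw
    have hwb : w ∈ closedBall c R := sphere_subset_closedBall hw
    have h1 := hA w hwb
    rw [hGh w (hUb hwb), norm_mul, norm_prod] at h1
    have h2 : (7 * R / 8) ^ S.card ≤ ∏ x ∈ S, ‖w - x‖ := by
      calc (7 * R / 8) ^ S.card = ∏ _i ∈ S, (7 * R / 8) := by
            rw [Finset.prod_const]
        _ ≤ _ := by
            refine Finset.prod_le_prod (fun _ _ => by positivity) fun i hi => ?_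
            have h3 : ‖i - c‖ ≤ R / 8 := by
              simpa [dist_eq_norm] using (hS i hi).1
            have h4 : ‖w - c‖ ≤ ‖w - i‖ + ‖i - c‖ := by
              have := norm_add_le (w - i) (i - c)
              simpa using this
            linarith
    rw [le_div_iff₀ (by positivity)]
    exact (mul_le_mul_of_nonneg_left h2 (norm_nonneg _)).trans h1
  intro z hz
  have hz8 : ‖z - c‖ ≤ R / 8 := by simpa [dist_eq_norm] using hz
  rw [hGh z (hUb (hsub hz)), norm_mul, norm_prod]
  have h7 : ∏ x ∈ S, ‖z - x‖ ≤ (R / 4) ^ S.card := by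
    calc ∏ x ∈ S, ‖z - x‖ ≤ ∏ _i ∈ S, (R / 4) := by
          refine Finset.prod_le_prod (fun _ _ => norm_nonneg _) fun i hi => ?_
          have h3 : ‖i - c‖ ≤ R / 8 := by
            simpa [dist_eq_norm] using (hS i hi).1
          calc ‖z - i‖ = ‖(z - c) - (i - c)‖ := by ring_nf
            _ ≤ ‖z - c‖ + ‖i - c‖ := norm_sub_le _ _
            _ ≤ R / 4 := by linarith
      _ = (R / 4) ^ S.card := by rw [Finset.prod_const]
  calc ‖h z‖ * ∏ x ∈ S, ‖z - x‖
      ≤ A / (7 * R / 8) ^ S.card * (R / 4) ^ S.card :=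
        mul_le_mul (hhb z (hsub hz)) h7 (Finset.prod_nonneg fun _ _ => norm_nonneg _)
          (by positivity)
    _ = A * (2 / 7) ^ S.card := by
        have h8 : (2 / 7 : ℝ) ^ S.card = (R / 4) ^ S.card / (7 * R / 8) ^ S.card := by
          rw [← div_pow]; congr 1; field_simp; norm_num
        rw [h8]; ring

end Pool.Agent.H58.Muntz
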