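import Mathlib
import Pool.Agent.H58.Muntz.Interp

/-!
# A function of two variables with many lattice zeros is small
-/

set_option autoImplicit false

namespace Pool.Agent.H58.Muntz

open Complex Set Filter Metric Topology

theorem nat_count (T : Finset ℕ) (c ρ : ℝ) (hρ : 0 ≤ ρ) (h : ∀ m ∈ T, |(m : ℝ) - c| ≤ ρ) :
    (T.card : ℝ) ≤ 2 * ρ + 1 := by
  rcases T.eq_empty_or_nonempty with rfl | hne
  · simp; positivity
  have hsub : T ⊆ Finset.Icc (T.min' hne) (T.max' hne) := fun m hm =>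
    Finset.mem_Icc.2 ⟨T.min'_le m hm, T.le_max' m hm⟩
  have h1 := Finset.card_le_card hsub
  rw [Nat.card_Icc] at h1
  have h2 := abs_le.1 (h _ (T.min'_mem hne))
  have h3 := abs_le.1 (h _ (T.max'_mem hne))
  have h4 : T.min' hne ≤ T.max' hne := T.min'_le_max' hne
  have h5 : (T.card : ℝ) ≤ ((T.max' hne + 1 - T.min' hne : ℕ) : ℝ) := by exact_mod_cast h1
  rw [Nat.cast_sub (by omega)] at h5
  push_cast at h5
  linarith [h2.1, h3.2]

theorem strictMono_gap {K : ℕ} (e : Fin K → ℕ) (he : StrictMono e) (i j : ℕ) (hij : i ≤ j)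
    (hj : j < K) : e ⟨i, lt_of_le_of_lt hij hj⟩ + (j - i) ≤ e ⟨j, hj⟩ := by
  induction j, hij using Nat.le_induction with
  | base => simp
  | succ j hij ih =>
    have hj' : j < K := by omega
    have h1 := ih hj'
    have h2 : e ⟨j, hj'⟩ < e ⟨j + 1, hj⟩ := he (by simp [Fin.lt_def])
    omega

theorem two_seventh_pow (k : ℕ) : (2 / 7 : ℝ) ^ k ≤ Real.exp (-(k : ℝ)) := by
  have h1 : (2 / 7 : ℝ) ≤ Real.exp (-1) := by
    rw [Real.exp_neg, le_inv_comm₀ (by norm_num) (Real.exp_pos _)]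
    have := Real.exp_one_lt_d9
    norm_num; linarith
  calc (2 / 7 : ℝ) ^ k ≤ (Real.exp (-1)) ^ k := pow_le_pow_left₀ (by norm_num) h1 k
    _ = Real.exp (-(k : ℝ)) := by rw [← Real.exp_nat_mul]; ring_nf

/-- Local estimate: many lattice zeros force smallness. -/
theorem local_decay {δ : ℝ} (hδ : 0 < δ) (hδ1 : δ ≤ 1) :
    ∃ θ : ℝ, 0 < θ ∧ ∃ R0 : ℝ, ∀ R : ℝ, R0 ≤ R → ∀ (c1 c2 C0 : ℝ) (_ : 0 ≤ C0)
      (_ : R < c1) (_ : R < c2) (G : ℂ → ℂ → ℂ)
      (_ : ∀ t : ℂ, 0 < t.re → DifferentiableOn ℂ (fun s => G s t) {z | 0 < z.re})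
      (_ : ∀ s : ℂ, 0 < s.re → DifferentiableOn ℂ (fun t => G s t) {z | 0 < z.re})
      (_ : ∀ s ∈ closedBall (c1 : ℂ) R, ∀ t ∈ closedBall (c2 : ℂ) R,
        ‖G s t‖ ≤ C0 * Real.exp (θ / 2 * R))
      (Z : Finset (ℕ × ℕ))
      (_ : ∀ p ∈ Z, |(p.1 : ℝ) - c1| ≤ R / 8 ∧ |(p.2 : ℝ) - c2| ≤ R / 8 ∧ G p.1 p.2 = 0)
      (_ : δ * R ^ 2 ≤ Z.card),
      ∀ s ∈ closedBall (c1 : ℂ) (R / 8), ∀ t ∈ closedBall (c2 : ℂ) (R / 8),
        ‖G s t‖ ≤ C0 * Real.exp (-(θ / 4) * R) := by
  classical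
  set θ : ℝ := (δ / 16) ^ 2 with hθdef
  have hθ : 0 < θ := by positivity
  have hθδ : θ ≤ δ / 16 := by
    rw [hθdef, sq]
    calc δ / 16 * (δ / 16) ≤ δ / 16 * 1 := by
          apply mul_le_mul_of_nonneg_left _ (by positivity); linarith
      _ = δ / 16 := mul_one _
  have hθ1 : θ ≤ 1 := by linarith
  -- the key numerical inequality
  have hkey : θ * (1 + Real.log (9 / (4 * θ))) ≤ δ / 4 := by
    have h1 : Real.log (9 / (4 * θ)) ≤ 1 + 32 / δ := by
      have h2 : 9 / (4 * θ) = 9 / 4 * (16 / δ) ^ 2 := by rw [hθdef]; field_simp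
      rw [h2, Real.log_mul (by norm_num) (by positivity), Real.log_pow]
      have h3 : Real.log (9 / 4) ≤ 1 := by
        rw [Real.log_le_iff_le_exp (by norm_num)]
        have := Real.exp_one_gt_d9
        linarith
      have h4 : Real.log (16 / δ) ≤ 16 / δ := by
        have := Real.log_le_sub_one_of_pos (show (0:ℝ) < 16 / δ by positivity)
        linarith
      have h5 : ((2 : ℕ) : ℝ) * Real.log (16 / δ) ≤ 32 / δ := by
        push_cast
        calc (2 : ℝ) * Real.log (16 / δ) ≤ 2 * (16 / δ) := by linarith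
          _ = 32 / δ := by ring
      linarith
    calc θ * (1 + Real.log (9 / (4 * θ))) ≤ θ * (2 + 32 / δ) := by
          apply mul_le_mul_of_nonneg_left _ hθ.le; linarith
      _ = δ ^ 2 / 128 + δ / 8 := by rw [hθdef]; field_simp; ring
      _ ≤ δ / 4 := by nlinarith
  refine ⟨θ, hθ, 80 / θ, ?_⟩
  intro R hR c1 c2 C0 hC0 hc1 hc2 G hG1 hG2 hb Z hZ hcard
  have hR80 : 80 ≤ θ * R := by
    rw [div_le_iff₀ hθ] at hR; linarith
  have hRpos : 0 < R := by
    by_contra hcon
    rw [not_lt] at hcon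
    nlinarith
  have hR4 : 80 ≤ R := by nlinarith
  have hU : IsOpen {z : ℂ | 0 < z.re} := isOpen_lt continuous_const Complex.continuous_re
  have hball : ∀ c : ℝ, R < c → closedBall (c : ℂ) R ⊆ {z : ℂ | 0 < z.re} := by
    intro c hc z hz
    have h1 : ‖z - c‖ ≤ R := by simpa [dist_eq_norm] using hz
    have h2 := Complex.abs_re_le_norm (z - c)
    rw [Complex.sub_re, Complex.ofReal_re] at h2
    have h3 := abs_le.1 (h2.trans h1)
    show 0 < z.re
    linarith [h3.1]
  have hsub8 : ∀ c : ℝ, closedBall (c : ℂ) (R / 8) ⊆ closedBall (c : ℂ) R := fun c =>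
    closedBall_subset_closedBall (by linarith)
  have hreal : ∀ (m : ℕ) (c : ℝ), |(m : ℝ) - c| ≤ R / 8 → (m : ℂ) ∈ closedBall (c : ℂ) (R / 8) := by
    intro m c h
    rw [mem_closedBall, dist_eq_norm]
    have : (m : ℂ) - (c : ℂ) = (((m : ℝ) - c : ℝ) : ℂ) := by push_cast; rfl
    rw [this, Complex.norm_real]; exact h
  -- rows
  set S : Finset ℕ := Z.image Prod.snd with hS
  set row : ℕ → Finset (ℕ × ℕ) := fun n => Z.filter (fun p => p.2 = n) with hrow
  have hrowinj : ∀ n, Set.InjOn (fun p : ℕ × ℕ => p.1) (row n : Set (ℕ × ℕ)) := by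
    intro n p hp q hq hpq
    have h1 : p.2 = n := (Finset.mem_filter.1 hp).2
    have h2 : q.2 = n := (Finset.mem_filter.1 hq).2
    exact Prod.ext hpq (h1.trans h2.symm)
  have hrowcard : ∀ n, ((row n).card : ℝ) ≤ R / 2 := by
    intro n
    rw [← Finset.card_image_of_injOn (hrowinj n)]
    refine (nat_count _ c1 (R / 8) (by positivity) ?_).trans (by linarith)
    intro m hm
    obtain ⟨p, hp, rfl⟩ := Finset.mem_image.1 hm
    exact (hZ p (Finset.mem_filter.1 hp).1).1
  have hScard : (S.card : ℝ) ≤ R / 2 := by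
    refine (nat_count _ c2 (R / 8) (by positivity) ?_).trans (by linarith)
    intro m hm
    obtain ⟨p, hp, rfl⟩ := Finset.mem_image.1 hm
    exact (hZ p hp).2.1
  have hsumrow : (Z.card : ℝ) = ∑ n ∈ S, ((row n).card : ℝ) := by
    have := Finset.card_eq_sum_card_image Prod.snd Z
    rw [this]; push_cast; rfl
  set Good : Finset ℕ := S.filter (fun n => δ * R ≤ ((row n).card : ℝ)) with hGood
  have hGoodcard : δ * R ≤ Good.card := by
    have h1 : ∑ n ∈ S, ((row n).card : ℝ) ≤ ∑ n ∈ Good, ((row n).card : ℝ) + δ * R * (R / 2) := by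
      rw [← Finset.sum_filter_add_sum_filter_not S (fun n => δ * R ≤ ((row n).card : ℝ))]
      refine add_le_add le_rfl ?_
      calc ∑ n ∈ S.filter (fun n => ¬ δ * R ≤ ((row n).card : ℝ)), ((row n).card : ℝ)
          ≤ ∑ _n ∈ S.filter (fun n => ¬ δ * R ≤ ((row n).card : ℝ)), δ * R :=
            Finset.sum_le_sum fun n hn => (not_le.1 (Finset.mem_filter.1 hn).2).le
        _ = ((S.filter (fun n => ¬ δ * R ≤ ((row n).card : ℝ))).card : ℝ) * (δ * R) := by
            rw [Finset.sum_const, nsmul_eq_mul]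
        _ ≤ (R / 2) * (δ * R) := by
            refine mul_le_mul_of_nonneg_right ?_ (by positivity)
            refine le_trans ?_ hScard
            exact_mod_cast Finset.card_filter_le _ _
        _ = δ * R * (R / 2) := by ring
    have h2 : ∑ n ∈ Good, ((row n).card : ℝ) ≤ Good.card * (R / 2) := by
      calc ∑ n ∈ Good, ((row n).card : ℝ) ≤ ∑ _n ∈ Good, (R / 2) :=
            Finset.sum_le_sum fun n _ => hrowcard n
        _ = Good.card * (R / 2) := by rw [Finset.sum_const, nsmul_eq_mul]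
    rw [hsumrow] at hcard
    nlinarith
  -- smallness on good rows
  set A : ℝ := C0 * Real.exp (θ / 2 * R) with hA
  have hA0 : 0 ≤ A := by positivity
  set ε : ℝ := A * Real.exp (-(δ * R)) with hε
  have hε0 : 0 ≤ ε := by positivity
  have hgood : ∀ n ∈ Good, ∀ s ∈ closedBall (c1 : ℂ) (R / 8), ‖G s n‖ ≤ ε := by
    intro n hn s hs
    have hnS := (Finset.mem_filter.1 hn).1
    have hnc := (Finset.mem_filter.1 hn).2
    obtain ⟨p0, hp0, hp0n⟩ := Finset.mem_image.1 hnS
    have hnb : (n : ℂ) ∈ closedBall (c2 : ℂ) R := by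
      rw [← hp0n]; exact hsub8 c2 (hreal _ _ (hZ p0 hp0).2.1)
    have hnre : 0 < (n : ℂ).re := hball c2 hc2 hnb
    have h1 := disc_zeros (c := (c1 : ℂ)) (R := R) (A := A) hRpos hU (hball c1 hc1)
      (fun s => G s n) (hG1 n hnre) (fun z hz => hb z hz n hnb)
      ((row n).image (fun p => (p.1 : ℂ))) (by
        intro x hx
        obtain ⟨p, hp, rfl⟩ := Finset.mem_image.1 hx
        have hpZ := (Finset.mem_filter.1 hp).1
        have hpn := (Finset.mem_filter.1 hp).2
        refine ⟨hreal _ _ (hZ p hpZ).1, ?_⟩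
        have := (hZ p hpZ).2.2
        rw [hpn] at this; exact this) s hs
    have hc : ((row n).image (fun p => (p.1 : ℂ))).card = (row n).card := by
      apply Finset.card_image_of_injOn
      intro p hp q hq hpq
      exact hrowinj n hp hq (by simpa using hpq)
    rw [hc] at h1
    refine h1.trans ?_
    rw [hε]
    refine mul_le_mul_of_nonneg_left ?_ hA0
    exact (two_seventh_pow _).trans (Real.exp_le_exp.2 (by linarith))
  -- nodes
  set K : ℕ := ⌊θ * R⌋₊ with hK
  have hKle : (K : ℝ) ≤ θ * R := Nat.floor_le (by positivity)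
  have hKge : θ * R - 1 ≤ K := by
    have := Nat.lt_floor_add_one (θ * R)
    linarith
  have hKG : K ≤ Good.card := by
    have h1 : (K : ℝ) ≤ Good.card := hKle.trans (le_trans (by nlinarith) hGoodcard)
    exact_mod_cast h1
  obtain ⟨T, hTG, hTK⟩ := Finset.exists_subset_card_eq hKG
  set e := T.orderEmbOfFin hTK with he
  have heT : ∀ i, e i ∈ T := fun i => Finset.orderEmbOfFin_mem T hTK i
  set x : ℕ → ℂ := fun i => if h : i < K then ((e ⟨i, h⟩ : ℕ) : ℂ) else 0 with hx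
  have hxe : ∀ i (h : i < K), x i = ((e ⟨i, h⟩ : ℕ) : ℂ) := fun i h => by simp [hx, h]
  have hxball : ∀ i < K, x i ∈ closedBall (c2 : ℂ) (R / 8) := by
    intro i hi
    rw [hxe i hi]
    have h1 := (Finset.mem_filter.1 (hTG (heT ⟨i, hi⟩))).1
    obtain ⟨p, hp, hpe⟩ := Finset.mem_image.1 h1
    rw [← hpe]; exact hreal _ _ (hZ p hp).2.1
  have hsep : ∀ i < K, ∀ j < K, |(i : ℝ) - j| ≤ ‖x i - x j‖ := by
    have key : ∀ i j : ℕ, i ≤ j → ∀ hj : j < K, |(i : ℝ) - j| ≤ ‖x i - x j‖ := by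
      intro i j hij hj
      have hi : i < K := lt_of_le_of_lt hij hj
      have h1 := strictMono_gap e e.strictMono i j hij hj
      rw [hxe i hi, hxe j hj]
      have h2 : (((e ⟨i, hi⟩ : ℕ) : ℂ) - ((e ⟨j, hj⟩ : ℕ) : ℂ)) =
          ((((e ⟨i, hi⟩ : ℕ) : ℝ) - ((e ⟨j, hj⟩ : ℕ) : ℝ) : ℝ) : ℂ) := by push_cast; rfl
      rw [h2, Complex.norm_real, Real.norm_eq_abs, abs_sub_comm, abs_sub_comm ((e ⟨i, hi⟩ : ℕ) : ℝ)]
      have h3 : ((e ⟨i, hi⟩ : ℕ) : ℝ) + ((j : ℝ) - i) ≤ ((e ⟨j, hj⟩ : ℕ) : ℝ) := by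
        have : ((e ⟨i, hi⟩ + (j - i) : ℕ) : ℝ) ≤ ((e ⟨j, hj⟩ : ℕ) : ℝ) := by exact_mod_cast h1
        rw [Nat.cast_add, Nat.cast_sub hij] at this
        exact this
      have h4 : (i : ℝ) ≤ j := by exact_mod_cast hij
      rw [abs_of_nonneg (by linarith), abs_of_nonneg (by linarith)]
      linarith
    intro i hi j hj
    rcases le_total i j with h | h
    · exact key i j h hj
    · rw [abs_sub_comm, norm_sub_rev]; exact key j i h hi
  have hBbound : (9 * R / 4) ^ (K - 1) / (K - 1).factorial ≤ Real.exp (δ * R / 4) := by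
    have h1 : 9 * R / 4 = (9 / (4 * θ)) * (θ * R) := by field_simp
    rw [h1, mul_pow, mul_div_assoc]
    have h2 : (θ * R) ^ (K - 1) / (K - 1).factorial ≤ Real.exp (θ * R) :=
      Real.pow_div_factorial_le_exp _ (by positivity) _
    have h94 : 1 ≤ 9 / (4 * θ) := by rw [le_div_iff₀ (by positivity)]; linarith
    have h3 : (9 / (4 * θ)) ^ (K - 1) ≤ Real.exp (Real.log (9 / (4 * θ)) * (θ * R)) := by
      rw [← Real.rpow_natCast, Real.rpow_def_of_pos (by positivity)]
      apply Real.exp_le_exp.2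
      refine mul_le_mul_of_nonneg_left ?_ (Real.log_nonneg h94)
      refine le_trans ?_ hKle
      exact_mod_cast Nat.sub_le K 1
    calc (9 / (4 * θ)) ^ (K - 1) * ((θ * R) ^ (K - 1) / (K - 1).factorial)
        ≤ Real.exp (Real.log (9 / (4 * θ)) * (θ * R)) * Real.exp (θ * R) :=
          mul_le_mul h3 h2 (by positivity) (Real.exp_pos _).le
      _ = Real.exp (θ * (1 + Real.log (9 / (4 * θ))) * R) := by
          rw [← Real.exp_add]; congr 1; ring
      _ ≤ Real.exp (δ * R / 4) := by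
          apply Real.exp_le_exp.2
          calc θ * (1 + Real.log (9 / (4 * θ))) * R ≤ δ / 4 * R :=
                mul_le_mul_of_nonneg_right hkey hRpos.le
            _ = δ * R / 4 := by ring
  intro s hs t ht
  have hsre : 0 < s.re := hball c1 hc1 (hsub8 c1 hs)
  have hmain := disc_interp (c := (c2 : ℂ)) (R := R) (A := A) (ε := ε) hRpos hU (hball c2 hc2)
    (fun t => G s t) (hG2 s hsre) (fun z hz => hb s (hsub8 c1 hs) z hz) (K := K) x hxball hsep
    (by
      intro i hi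
      rw [hxe i hi]
      exact hgood _ (hTG (heT ⟨i, hi⟩)) s hs) hε0 hBbound t ht
  set B : ℝ := Real.exp (δ * R / 4) with hB
  have hKεB : (K : ℝ) * ε * B ≤ C0 * (θ * R) * Real.exp (-(θ / 2) * R) := by
    have h1 : ε * B = C0 * Real.exp (θ / 2 * R - δ * R + δ * R / 4) := by
      rw [hε, hA, hB, mul_assoc, mul_assoc, ← Real.exp_add, ← Real.exp_add]; congr 2; ring
    rw [mul_assoc, h1]
    calc (K : ℝ) * (C0 * Real.exp (θ / 2 * R - δ * R + δ * R / 4))
        ≤ (θ * R) * (C0 * Real.exp (-(θ / 2) * R)) := by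
          refine mul_le_mul hKle ?_ (by positivity) (by positivity)
          refine mul_le_mul_of_nonneg_left (Real.exp_le_exp.2 ?_) hC0
          nlinarith
      _ = _ := by ring
  have hpow : (2 / 7 : ℝ) ^ K ≤ Real.exp (1 - θ * R) :=
    (two_seventh_pow K).trans (Real.exp_le_exp.2 (by linarith))
  have hpow1 : (2 / 7 : ℝ) ^ K ≤ 1 := pow_le_one₀ (by norm_num) (by norm_num)
  have hKεB0 : 0 ≤ (K : ℝ) * ε * B := by positivity
  have hE : Real.exp 1 + 2 * (θ * R) ≤ Real.exp (θ / 4 * R) := by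
    have h1 := Real.quadratic_le_exp_of_nonneg (show 0 ≤ θ / 4 * R by positivity)
    have h2 := Real.exp_one_lt_d9
    nlinarith
  calc ‖G s t‖ ≤ (A + K * ε * B) * (2 / 7) ^ K + K * ε * B := hmain
    _ ≤ A * Real.exp (1 - θ * R) + 2 * (K * ε * B) := by
        have h1 : A * (2 / 7) ^ K ≤ A * Real.exp (1 - θ * R) :=
          mul_le_mul_of_nonneg_left hpow hA0
        have h2 : (K * ε * B) * (2 / 7) ^ K ≤ K * ε * B := by
          calc (K * ε * B) * (2 / 7) ^ K ≤ (K * ε * B) * 1 :=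
                mul_le_mul_of_nonneg_left hpow1 hKεB0
            _ = _ := mul_one _
        rw [add_mul]; linarith
    _ ≤ C0 * Real.exp 1 * Real.exp (-(θ / 2) * R) +
          2 * (C0 * (θ * R) * Real.exp (-(θ / 2) * R)) := by
        refine add_le_add (le_of_eq ?_) (by linarith)
        rw [hA, mul_assoc, mul_assoc, ← Real.exp_add, ← Real.exp_add]; congr 2; ring
    _ = C0 * ((Real.exp 1 + 2 * (θ * R)) * Real.exp (-(θ / 2) * R)) := by ring
    _ ≤ C0 * (Real.exp (θ / 4 * R) * Real.exp (-(θ / 2) * R)) := by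
        refine mul_le_mul_of_nonneg_left ?_ hC0
        exact mul_le_mul_of_nonneg_right hE (Real.exp_pos _).le
    _ = C0 * Real.exp (-(θ / 4) * R) := by
        rw [← Real.exp_add]; congr 2; ring

end Pool.Agent.H58.Muntz
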