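import Mathlib
import Pool.Agent.H58.Muntz.Local
import Pool.Agent.H58.Muntz.Laplace

/-!
# Concavity of the support function, and a pigeonhole argument
-/

set_option autoImplicit false
set_option linter.unusedSectionVars false

namespace Pool.Agent.H58.Muntz

open MeasureTheory Set Filter Topology

section kap

variable {X : Type*} [MeasurableSpace X] {μ : Measure X} {f : X → ℂ} {u v : X → ℝ}

theorem LB_swap (a b c : ℝ) : LB μ f u v a b c ↔ LB μ f v u b a c := by
  unfold LB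
  refine Filter.eventually_congr (Filter.Eventually.of_forall fun x => ?_)
  rw [add_comm]

theorem kap_swap (a b : ℝ) : kap μ f u v a b = kap μ f v u b a := by
  unfold kap
  congr 1
  ext c
  exact LB_swap a b c

variable (hu0 : ∀ x, 0 ≤ u x) (hv0 : ∀ x, 0 ≤ v x) (hne : μ {x | f x ≠ 0} ≠ 0)

include hu0 hv0 hne

theorem kap_mono_left {a a' b : ℝ} (ha : 0 ≤ a) (haa' : a ≤ a') (hb : 0 ≤ b) :
    kap μ f u v a b ≤ kap μ f u v a' b := by
  refine le_kap hu0 hv0 hne (ha.trans haa') hb ?_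
  filter_upwards [LB_kap hu0 hv0 ha hb] with x hx hfx
  have := hx hfx
  nlinarith [mul_le_mul_of_nonneg_right haa' (hu0 x)]

theorem kap_concave_left {a b h : ℝ} (hh : 0 ≤ h) (ha : h ≤ a) (hb : 0 ≤ b) :
    kap μ f u v (a + h) b + kap μ f u v (a - h) b ≤ 2 * kap μ f u v a b := by
  have h1 : (kap μ f u v (a + h) b + kap μ f u v (a - h) b) / 2 ≤ kap μ f u v a b := by
    refine le_kap hu0 hv0 hne (hh.trans ha) hb ?_
    filter_upwards [LB_kap (μ := μ) (f := f) hu0 hv0 (a := a + h) (b := b) (by linarith) hb,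
      LB_kap (μ := μ) (f := f) hu0 hv0 (a := a - h) (b := b) (by linarith) hb] with x hx1 hx2 hfx
    have := hx1 hfx
    have := hx2 hfx
    linarith
  linarith

theorem kap_slope_left {a b h : ℝ} (hh : 0 ≤ h) (ha : h ≤ a) (ha0 : 0 < a) (hb : 0 ≤ b) :
    kap μ f u v a b - kap μ f u v (a - h) b ≤ h / a * kap μ f u v a b := by
  have h1 : (a - h) / a * kap μ f u v a b ≤ kap μ f u v (a - h) b := by
    refine le_kap hu0 hv0 hne (by linarith) hb ?_
    filter_upwards [LB_kap (μ := μ) (f := f) hu0 hv0 ha0.le hb] with x hx hfx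
    have h2 := hx hfx
    have h3 : 0 ≤ (a - h) / a := div_nonneg (by linarith) ha0.le
    have h4 : (a - h) / a ≤ 1 := by rw [div_le_one ha0]; linarith
    have h5 := mul_le_mul_of_nonneg_left h2 h3
    have h6 : (a - h) / a * (a * u x) = (a - h) * u x := by field_simp
    have h7 : (a - h) / a * (b * v x) ≤ b * v x :=
      mul_le_of_le_one_left (mul_nonneg hb (hv0 x)) h4
    rw [mul_add, h6] at h5
    linarith
  have h2 : (a - h) / a * kap μ f u v a b = kap μ f u v a b - h / a * kap μ f u v a b := by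
    field_simp
  linarith

end kap

/-- counting lemma for concave sequences with step 8 -/
theorem count_bad (φ : ℕ → ℝ) (A0 J : ℕ) (hA0 : 8 ≤ A0) (G η : ℝ) (hη : 0 < η)
    (hmono : ∀ a, 8 ≤ a → φ (a - 8) ≤ φ a)
    (hG : ∀ a, A0 ≤ a → a < A0 + 8 → φ a - φ (a - 8) ≤ G)
    (hconc : ∀ a, 8 ≤ a → φ (a + 8) + φ (a - 8) ≤ 2 * φ a) :
    (((Finset.Ico A0 (J + 1)).filter
      (fun a => η < 2 * φ a - φ (a + 8) - φ (a - 8))).card : ℝ) ≤ 8 * G / η := by
  classical
  set g : ℕ → ℝ := fun a => φ a - φ (a - 8) with hg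
  have hg0 : ∀ a, 8 ≤ a → 0 ≤ g a := fun a ha => by
    simp only [hg]; linarith [hmono a ha]
  set D : ℕ → ℝ := fun a => 2 * φ a - φ (a + 8) - φ (a - 8) with hD
  have hDg : ∀ a, D a = g a - g (a + 8) := by
    intro a; simp only [hD, hg, Nat.add_sub_cancel]; ring
  have h1 : η * (((Finset.Ico A0 (J + 1)).filter (fun a => η < D a)).card : ℝ) ≤
      ∑ a ∈ Finset.Ico A0 (J + 1), D a := by
    calc η * (((Finset.Ico A0 (J + 1)).filter (fun a => η < D a)).card : ℝ)
        = ∑ _a ∈ (Finset.Ico A0 (J + 1)).filter (fun a => η < D a), η := by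
          rw [Finset.sum_const, nsmul_eq_mul]; ring
      _ ≤ ∑ a ∈ (Finset.Ico A0 (J + 1)).filter (fun a => η < D a), D a :=
          Finset.sum_le_sum fun a ha => (Finset.mem_filter.1 ha).2.le
      _ ≤ ∑ a ∈ Finset.Ico A0 (J + 1), D a := by
          refine Finset.sum_le_sum_of_subset_of_nonneg (Finset.filter_subset _ _) ?_
          intro a ha _
          have h8 : 8 ≤ a := hA0.trans (Finset.mem_Ico.1 ha).1
          simp only [hD]; linarith [hconc a h8]
  have h2 : ∑ a ∈ Finset.Ico A0 (J + 1), D a ≤ 8 * G := by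
    have e1 : ∑ a ∈ Finset.Ico A0 (J + 1), D a =
        ∑ a ∈ Finset.Ico A0 (J + 1), g a - ∑ a ∈ Finset.Ico A0 (J + 1), g (a + 8) := by
      rw [← Finset.sum_sub_distrib]
      exact Finset.sum_congr rfl fun a _ => hDg a
    have e2 : ∑ a ∈ Finset.Ico A0 (J + 1), g (a + 8) =
        ∑ a ∈ Finset.Ico (A0 + 8) (J + 1 + 8), g a := by
      rw [Finset.sum_Ico_add']
    have e3 : ∑ a ∈ Finset.Ico A0 (J + 1), g a ≤
        ∑ a ∈ Finset.Ico A0 (A0 + 8) ∪ Finset.Ico (A0 + 8) (J + 1 + 8), g a := by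
      refine Finset.sum_le_sum_of_subset_of_nonneg ?_ ?_
      · intro a ha
        simp only [Finset.mem_union, Finset.mem_Ico] at ha ⊢
        omega
      · intro a ha _
        refine hg0 a ?_
        simp only [Finset.mem_union, Finset.mem_Ico] at ha
        omega
    have e4 : ∑ a ∈ Finset.Ico A0 (A0 + 8) ∪ Finset.Ico (A0 + 8) (J + 1 + 8), g a =
        ∑ a ∈ Finset.Ico A0 (A0 + 8), g a + ∑ a ∈ Finset.Ico (A0 + 8) (J + 1 + 8), g a := by
      refine Finset.sum_union ?_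
      rw [Finset.disjoint_left]
      intro a; simp only [Finset.mem_Ico]; omega
    have e5 : ∑ a ∈ Finset.Ico A0 (A0 + 8), g a ≤ ∑ _a ∈ Finset.Ico A0 (A0 + 8), G :=
      Finset.sum_le_sum fun a ha => hG a (Finset.mem_Ico.1 ha).1 (Finset.mem_Ico.1 ha).2
    have e6 : ∑ _a ∈ Finset.Ico A0 (A0 + 8), G = 8 * G := by
      rw [Finset.sum_const, Nat.card_Ico, nsmul_eq_mul]
      simp
    linarith
  rw [le_div_iff₀ hη]
  linarith

/-- Pigeonhole: a dense set of lattice points in `[0,N]²` is dense in a box centred at a good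
point. -/
theorem exists_box {δ : ℝ} (hδ : 0 < δ) (J : ℕ) (hJ : 3 ≤ J) (Bad : Finset (ℕ × ℕ))
    (hBad : (Bad.card : ℝ) ≤ δ / 8 * J ^ 2) (N : ℕ) (hN : 3 * J ≤ N) (Z : Finset (ℕ × ℕ))
    (hZ : ∀ p ∈ Z, p.1 ≤ N ∧ p.2 ≤ N) (hcard : δ * (N : ℝ) ^ 2 ≤ Z.card) :
    ∃ ab ∈ Finset.range (J + 1) ×ˢ Finset.range (J + 1), ab ∉ Bad ∧ ∃ Z' ⊆ Z,
      (∀ p ∈ Z', |(p.1 : ℝ) - (N / J : ℝ) * ab.1| ≤ (N / J : ℝ) / 2 ∧
        |(p.2 : ℝ) - (N / J : ℝ) * ab.2| ≤ (N / J : ℝ) / 2) ∧
      δ / 4 * (N / J : ℝ) ^ 2 ≤ Z'.card := by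
  classical
  have hJ0 : (0 : ℝ) < J := by exact_mod_cast (by omega : 0 < J)
  have hN0 : 0 < N := by omega
  have hN0' : (0 : ℝ) < N := by exact_mod_cast hN0
  set r : ℝ := (N : ℝ) / J with hr
  have hr3 : 3 ≤ r := by
    rw [hr, le_div_iff₀ hJ0]; exact_mod_cast hN
  set idx : ℕ → ℕ := fun m => (2 * m * J + N) / (2 * N) with hidx
  have hidxJ : ∀ m, m ≤ N → idx m ≤ J := by
    intro m hm
    simp only [hidx]
    have h1 : 2 * m * J + N < 2 * N * (J + 1) := by nlinarith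
    have h2 : (2 * m * J + N) / (2 * N) < J + 1 := by
      rw [Nat.div_lt_iff_lt_mul (by omega)]; linarith [mul_comm (2 * N) (J + 1)]
    omega
  have hidxr : ∀ m : ℕ, |(m : ℝ) - r * idx m| ≤ r / 2 := by
    intro m
    have h1 : idx m * (2 * N) ≤ 2 * m * J + N := Nat.div_mul_le_self _ _
    have h2 : 2 * m * J + N < (idx m + 1) * (2 * N) := by
      have := Nat.lt_div_mul_add (a := 2 * m * J + N) (b := 2 * N) (by omega)
      simp only [hidx]; linarith
    have h1' : (idx m : ℝ) * (2 * N) ≤ 2 * m * J + N := by exact_mod_cast h1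
    have h2' : 2 * (m : ℝ) * J + N < (idx m + 1) * (2 * N) := by exact_mod_cast h2
    have h3 : r * J = N := by rw [hr]; field_simp
    have h4 : ((m : ℝ) - r * idx m) * J ≤ r / 2 * J := by nlinarith
    have h5 : -(r / 2) * J ≤ ((m : ℝ) - r * idx m) * J := by nlinarith
    rw [abs_le]
    exact ⟨le_of_mul_le_mul_right h5 hJ0, le_of_mul_le_mul_right h4 hJ0⟩
  set fib : ℕ × ℕ → Finset (ℕ × ℕ) := fun ab =>
    Z.filter (fun p => (idx p.1, idx p.2) = ab) with hfib
  have hfibmem : ∀ ab, ∀ p ∈ fib ab, |(p.1 : ℝ) - r * ab.1| ≤ r / 2 ∧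
      |(p.2 : ℝ) - r * ab.2| ≤ r / 2 := by
    intro ab p hp
    have h1 := (Finset.mem_filter.1 hp).2
    rw [← h1]
    exact ⟨hidxr p.1, hidxr p.2⟩
  have hfibcard : ∀ ab, ((fib ab).card : ℝ) ≤ 2 * r ^ 2 := by
    intro ab
    have h1 : (fib ab) ⊆ (fib ab).image Prod.fst ×ˢ (fib ab).image Prod.snd := by
      intro p hp
      exact Finset.mem_product.2 ⟨Finset.mem_image_of_mem _ hp, Finset.mem_image_of_mem _ hp⟩
    have h2 := Finset.card_le_card h1
    rw [Finset.card_product] at h2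
    have h3 : (((fib ab).image Prod.fst).card : ℝ) ≤ r + 1 := by
      refine (nat_count _ (r * ab.1) (r / 2) (by linarith) ?_).trans (by linarith)
      intro m hm
      obtain ⟨p, hp, rfl⟩ := Finset.mem_image.1 hm
      exact (hfibmem ab p hp).1
    have h4 : (((fib ab).image Prod.snd).card : ℝ) ≤ r + 1 := by
      refine (nat_count _ (r * ab.2) (r / 2) (by linarith) ?_).trans (by linarith)
      intro m hm
      obtain ⟨p, hp, rfl⟩ := Finset.mem_image.1 hm
      exact (hfibmem ab p hp).2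
    calc ((fib ab).card : ℝ) ≤ (((fib ab).image Prod.fst).card : ℝ) *
          (((fib ab).image Prod.snd).card : ℝ) := by exact_mod_cast h2
      _ ≤ (r + 1) * (r + 1) := mul_le_mul h3 h4 (Nat.cast_nonneg _) (by linarith)
      _ ≤ 2 * r ^ 2 := by nlinarith
  by_contra hcon
  push Not at hcon
  set Grid := Finset.range (J + 1) ×ˢ Finset.range (J + 1) with hGrid
  have hsmall : ∀ ab ∈ Grid, ab ∉ Bad → ((fib ab).card : ℝ) < δ / 4 * r ^ 2 := by
    intro ab hab habB
    exact hcon ab hab habB (fib ab) (Finset.filter_subset _ _) (hfibmem ab)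
  have hmaps : ∀ p ∈ Z, (idx p.1, idx p.2) ∈ Grid := by
    intro p hp
    have := hZ p hp
    have h1 := hidxJ p.1 this.1
    have h2 := hidxJ p.2 this.2
    exact Finset.mem_product.2 ⟨Finset.mem_range.2 (by omega), Finset.mem_range.2 (by omega)⟩
  have hsum : (Z.card : ℝ) = ∑ ab ∈ Grid, ((fib ab).card : ℝ) := by
    have := Finset.card_eq_sum_card_fiberwise (f := fun p : ℕ × ℕ => (idx p.1, idx p.2)) (s := Z)
      (t := Grid) hmaps
    rw [this]; push_cast; rfl
  have hsplit : ∑ ab ∈ Grid, ((fib ab).card : ℝ) ≤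
      ∑ ab ∈ Bad, ((fib ab).card : ℝ) + ∑ ab ∈ Grid \ Bad, ((fib ab).card : ℝ) := by
    have h1 : Grid ⊆ Bad ∪ (Grid \ Bad) := by
      intro x hx
      by_cases h : x ∈ Bad
      · exact Finset.mem_union_left _ h
      · exact Finset.mem_union_right _ (Finset.mem_sdiff.2 ⟨hx, h⟩)
    rw [← Finset.sum_union Finset.disjoint_sdiff]
    exact Finset.sum_le_sum_of_subset_of_nonneg h1 fun _ _ _ => Nat.cast_nonneg _
  have hb1 : ∑ ab ∈ Bad, ((fib ab).card : ℝ) ≤ Bad.card * (2 * r ^ 2) := by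
    calc ∑ ab ∈ Bad, ((fib ab).card : ℝ) ≤ ∑ _ab ∈ Bad, 2 * r ^ 2 :=
          Finset.sum_le_sum fun ab _ => hfibcard ab
      _ = _ := by rw [Finset.sum_const, nsmul_eq_mul]
  have hb2 : ∑ ab ∈ Grid \ Bad, ((fib ab).card : ℝ) ≤ (2 * J ^ 2) * (δ / 4 * r ^ 2) := by
    calc ∑ ab ∈ Grid \ Bad, ((fib ab).card : ℝ) ≤ ∑ _ab ∈ Grid \ Bad, δ / 4 * r ^ 2 :=
          Finset.sum_le_sum fun ab hab =>
            (hsmall ab (Finset.mem_sdiff.1 hab).1 (Finset.mem_sdiff.1 hab).2).le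
      _ = ((Grid \ Bad).card : ℝ) * (δ / 4 * r ^ 2) := by rw [Finset.sum_const, nsmul_eq_mul]
      _ ≤ (2 * J ^ 2) * (δ / 4 * r ^ 2) := by
          refine mul_le_mul_of_nonneg_right ?_ (by positivity)
          have h1 : (Grid \ Bad).card ≤ (J + 1) * (J + 1) := by
            refine (Finset.card_le_card Finset.sdiff_subset).trans ?_
            rw [hGrid, Finset.card_product, Finset.card_range]
          have h2 : (((Grid \ Bad).card : ℕ) : ℝ) ≤ ((J : ℝ) + 1) * (J + 1) := by exact_mod_cast h1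
          have h3 : (3 : ℝ) ≤ J := by exact_mod_cast hJ
          nlinarith
  have hNr : (N : ℝ) ^ 2 = J ^ 2 * r ^ 2 := by rw [hr]; field_simp
  have hb1' : (Bad.card : ℝ) * (2 * r ^ 2) ≤ δ / 8 * J ^ 2 * (2 * r ^ 2) :=
    mul_le_mul_of_nonneg_right hBad (by positivity)
  have hpos : 0 < δ * (J ^ 2 * r ^ 2) := by positivity
  rw [hNr] at hcard
  nlinarith

end Pool.Agent.H58.Muntz
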