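import Mathlib
import Pool.Agent.H58.Muntz.Pigeon

/-!
# Good grid points
-/

set_option autoImplicit false
set_option linter.unusedSectionVars false

namespace Pool.Agent.H58.Muntz

open MeasureTheory Set Filter Topology

variable {X : Type*} [MeasurableSpace X] {μ : Measure X} {f : X → ℂ} {u v : X → ℝ}
  (hu0 : ∀ x, 0 ≤ u x) (hv0 : ∀ x, 0 ≤ v x) (hne : μ {x | f x ≠ 0} ≠ 0)

include hu0 hv0 hne

theorem count_bad_kap (M0 : ℝ) (hM00 : 0 ≤ M0)
    (hM0 : ∀ a b c D : ℝ, 0 ≤ a → 0 ≤ b → a ≤ D → b ≤ D → LB μ f u v a b c → c ≤ D * M0)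
    (A0 L b : ℕ) (hA0 : 9 ≤ A0) (hL : 1 ≤ L) (hb : b ≤ L * A0) {η : ℝ} (hη : 0 < η) :
    (((Finset.Ico A0 (L * A0 + 1)).filter
      (fun a : ℕ => η < 2 * kap μ f u v a b - kap μ f u v (a + 8 : ℕ) b -
        kap μ f u v (a - 8 : ℕ) b)).card : ℝ) ≤ 8 * (16 * L * M0) / η := by
  have hb0 : (0 : ℝ) ≤ b := Nat.cast_nonneg b
  refine count_bad (fun a : ℕ => kap μ f u v a b) A0 (L * A0) (by omega) (16 * L * M0) η hη ?_ ?_ ?_
  · intro a ha
    refine kap_mono_left hu0 hv0 hne (Nat.cast_nonneg _) ?_ hb0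
    exact_mod_cast Nat.sub_le a 8
  · intro a ha ha2
    have ha8 : (8 : ℝ) ≤ a := by exact_mod_cast (by omega : 8 ≤ a)
    have h1 := kap_slope_left (μ := μ) (f := f) (u := u) (v := v) hu0 hv0 hne (a := a) (b := b)
      (h := 8) (by norm_num) ha8 (by linarith) hb0
    have h2 : ((a - 8 : ℕ) : ℝ) = (a : ℝ) - 8 := by
      rw [Nat.cast_sub (by omega)]; norm_num
    show kap μ f u v a b - kap μ f u v (a - 8 : ℕ) b ≤ _
    rw [h2]
    refine h1.trans ?_
    have hD : kap μ f u v a b ≤ (2 * (L * A0 : ℕ) : ℝ) * M0 := by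
      refine hM0 a b _ _ (Nat.cast_nonneg a) hb0 ?_ ?_ (LB_kap hu0 hv0 (Nat.cast_nonneg a) hb0)
      · have : a ≤ 2 * (L * A0) := by nlinarith
        exact_mod_cast this
      · have : b ≤ 2 * (L * A0) := by omega
        exact_mod_cast this
    have hA0' : (0 : ℝ) < A0 := by exact_mod_cast (by omega : 0 < A0)
    have haA : (A0 : ℝ) ≤ a := by exact_mod_cast ha
    have h3 : 8 / (a : ℝ) ≤ 8 / A0 := div_le_div_of_nonneg_left (by norm_num) hA0' haA
    have hk0 : 0 ≤ kap μ f u v a b :=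
      le_kap hu0 hv0 hne (Nat.cast_nonneg a) hb0 (LB_zero hu0 hv0 (Nat.cast_nonneg a) hb0)
    calc 8 / (a : ℝ) * kap μ f u v a b ≤ 8 / A0 * ((2 * (L * A0 : ℕ) : ℝ) * M0) :=
          mul_le_mul h3 hD hk0 (by positivity)
      _ = 16 * L * M0 := by push_cast; field_simp; ring
  · intro a ha
    have ha8 : (8 : ℝ) ≤ a := by exact_mod_cast ha
    have h1 := kap_concave_left (μ := μ) (f := f) (u := u) (v := v) hu0 hv0 hne (a := a) (b := b)
      (h := 8) (by norm_num) ha8 hb0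
    have h2 : ((a - 8 : ℕ) : ℝ) = (a : ℝ) - 8 := by
      rw [Nat.cast_sub (by omega)]; norm_num
    have h3 : ((a + 8 : ℕ) : ℝ) = (a : ℝ) + 8 := by push_cast; rfl
    show kap μ f u v (a + 8 : ℕ) b + kap μ f u v (a - 8 : ℕ) b ≤ 2 * kap μ f u v a b
    rw [h2, h3]; exact h1

theorem exists_J {δ η : ℝ} (hδ : 0 < δ) (hη : 0 < η) :
    ∃ J : ℕ, 3 ≤ J ∧ ∃ Bad : Finset (ℕ × ℕ), (Bad.card : ℝ) ≤ δ / 8 * J ^ 2 ∧
      ∀ ab ∈ Finset.range (J + 1) ×ˢ Finset.range (J + 1), ab ∉ Bad →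
        9 ≤ ab.1 ∧ 9 ≤ ab.2 ∧
        2 * kap μ f u v ab.1 ab.2 - kap μ f u v (ab.1 + 8 : ℕ) ab.2 -
          kap μ f u v (ab.1 - 8 : ℕ) ab.2 ≤ η ∧
        2 * kap μ f u v ab.1 ab.2 - kap μ f u v ab.1 (ab.2 + 8 : ℕ) -
          kap μ f u v ab.1 (ab.2 - 8 : ℕ) ≤ η := by
  classical
  obtain ⟨M0, hM00, hM0⟩ := exists_M0 (μ := μ) (f := f) hu0 hv0 hne
  have hne' : μ {x | f x ≠ 0} ≠ 0 := hne
  have hM0' : ∀ a b c D : ℝ, 0 ≤ a → 0 ≤ b → a ≤ D → b ≤ D → LB μ f v u a b c → c ≤ D * M0 := by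
    intro a b c D ha hb haD hbD h
    exact hM0 b a c D hb ha hbD haD ((LB_swap b a c).2 h)
  obtain ⟨L, hL⟩ := exists_nat_ge (max 1 (64 / δ))
  have hL1 : (1 : ℝ) ≤ L := (le_max_left _ _).trans hL
  have hL2 : 64 / δ ≤ L := (le_max_right _ _).trans hL
  have hL1' : 1 ≤ L := by exact_mod_cast hL1
  set C' : ℝ := 8 * (16 * L * M0) / η with hC'
  have hC'0 : 0 ≤ C' := by positivity
  obtain ⟨A0, hA0⟩ := exists_nat_ge (max 9 C')
  have hA9 : 9 ≤ A0 := by
    have : (9 : ℝ) ≤ A0 := (le_max_left _ _).trans hA0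
    exact_mod_cast this
  have hAC : C' ≤ A0 := (le_max_right _ _).trans hA0
  set J : ℕ := L * A0 with hJ
  have hJA : A0 ≤ J := by rw [hJ]; exact Nat.le_mul_of_pos_left _ (by omega)
  refine ⟨J, by omega, ?_⟩
  set B1 : Finset (ℕ × ℕ) := (Finset.range (J + 1)).biUnion fun b : ℕ =>
    ((Finset.Ico A0 (J + 1)).filter (fun a : ℕ => η < 2 * kap μ f u v a b -
      kap μ f u v (a + 8 : ℕ) b - kap μ f u v (a - 8 : ℕ) b)).image (fun a => (a, b)) with hB1
  set B2 : Finset (ℕ × ℕ) := (Finset.range (J + 1)).biUnion fun a : ℕ =>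
    ((Finset.Ico A0 (J + 1)).filter (fun b : ℕ => η < 2 * kap μ f v u b a -
      kap μ f v u (b + 8 : ℕ) a - kap μ f v u (b - 8 : ℕ) a)).image (fun b => (a, b)) with hB2
  set B3 : Finset (ℕ × ℕ) := Finset.range A0 ×ˢ Finset.range (J + 1) with hB3
  set B4 : Finset (ℕ × ℕ) := Finset.range (J + 1) ×ˢ Finset.range A0 with hB4
  have hB1c : (B1.card : ℝ) ≤ (J + 1) * C' := by
    calc (B1.card : ℝ) ≤ ((∑ b ∈ Finset.range (J + 1),
          (((Finset.Ico A0 (J + 1)).filter (fun a : ℕ => η < 2 * kap μ f u v a b -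
            kap μ f u v (a + 8 : ℕ) b - kap μ f u v (a - 8 : ℕ) b)).image
              (fun a => (a, b))).card : ℕ) : ℝ) := by exact_mod_cast Finset.card_biUnion_le
      _ ≤ ∑ _b ∈ Finset.range (J + 1), C' := by
          rw [Nat.cast_sum]
          refine Finset.sum_le_sum fun b hb => ?_
          refine (Nat.cast_le.2 Finset.card_image_le).trans ?_
          exact count_bad_kap hu0 hv0 hne M0 hM00 hM0 A0 L b hA9 hL1'
            (by have := Finset.mem_range.1 hb; omega) hη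
      _ = (J + 1) * C' := by rw [Finset.sum_const, Finset.card_range, nsmul_eq_mul]; push_cast; ring
  have hB2c : (B2.card : ℝ) ≤ (J + 1) * C' := by
    calc (B2.card : ℝ) ≤ ((∑ a ∈ Finset.range (J + 1),
          (((Finset.Ico A0 (J + 1)).filter (fun b : ℕ => η < 2 * kap μ f v u b a -
            kap μ f v u (b + 8 : ℕ) a - kap μ f v u (b - 8 : ℕ) a)).image
              (fun b => (a, b))).card : ℕ) : ℝ) := by exact_mod_cast Finset.card_biUnion_le
      _ ≤ ∑ _b ∈ Finset.range (J + 1), C' := by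
          rw [Nat.cast_sum]
          refine Finset.sum_le_sum fun b hb => ?_
          refine (Nat.cast_le.2 Finset.card_image_le).trans ?_
          exact count_bad_kap hv0 hu0 hne M0 hM00 hM0' A0 L b hA9 hL1'
            (by have := Finset.mem_range.1 hb; omega) hη
      _ = (J + 1) * C' := by rw [Finset.sum_const, Finset.card_range, nsmul_eq_mul]; push_cast; ring
  have hB3c : (B3.card : ℝ) = A0 * (J + 1) := by
    rw [hB3, Finset.card_product, Finset.card_range, Finset.card_range]; push_cast; ring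
  have hB4c : (B4.card : ℝ) = A0 * (J + 1) := by
    rw [hB4, Finset.card_product, Finset.card_range, Finset.card_range]; push_cast; ring
  refine ⟨B1 ∪ B2 ∪ (B3 ∪ B4), ?_, ?_⟩
  · have h1 : ((B1 ∪ B2 ∪ (B3 ∪ B4)).card : ℝ) ≤ B1.card + B2.card + (B3.card + B4.card) := by
      have h2 : (B1 ∪ B2 ∪ (B3 ∪ B4)).card ≤ B1.card + B2.card + (B3.card + B4.card) :=
        (Finset.card_union_le _ _).trans (Nat.add_le_add (Finset.card_union_le _ _)
          (Finset.card_union_le _ _))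
      exact_mod_cast h2
    have hJr : (J : ℝ) = L * A0 := by rw [hJ]; push_cast; rfl
    have hA0r : (9 : ℝ) ≤ A0 := by exact_mod_cast hA9
    have hδL : 64 ≤ δ * L := by
      rw [div_le_iff₀ hδ] at hL2; linarith
    have hJ1 : (1 : ℝ) ≤ J := by
      rw [hJr]; nlinarith
    have h3 : (B1.card : ℝ) + B2.card + (B3.card + B4.card) ≤ 4 * J * (A0 + C') := by
      rw [hB3c, hB4c]; nlinarith
    have h4 : 4 * (J : ℝ) * (A0 + C') ≤ 8 * J * A0 := by nlinarith
    have h5 : 8 * (J : ℝ) * A0 ≤ δ / 8 * J ^ 2 := by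
      have : 64 * (A0 : ℝ) ≤ δ * J := by rw [hJr]; nlinarith
      nlinarith
    linarith
  · intro ab hab hnot
    obtain ⟨a, b⟩ := ab
    simp only [Finset.mem_product, Finset.mem_range] at hab
    simp only [Finset.mem_union, not_or] at hnot
    obtain ⟨⟨hn1, hn2⟩, hn3, hn4⟩ := hnot
    have ha : A0 ≤ a := by
      by_contra hcon
      exact hn3 (Finset.mem_product.2 ⟨Finset.mem_range.2 (by simpa using hcon),
        Finset.mem_range.2 hab.2⟩)
    have hb : A0 ≤ b := by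
      by_contra hcon
      exact hn4 (Finset.mem_product.2 ⟨Finset.mem_range.2 hab.1,
        Finset.mem_range.2 (by simpa using hcon)⟩)
    refine ⟨by simpa using hA9.trans ha, by simpa using hA9.trans hb, ?_, ?_⟩
    · by_contra hcon
      rw [not_le] at hcon
      refine hn1 (Finset.mem_biUnion.2 ⟨b, Finset.mem_range.2 hab.2, Finset.mem_image.2
        ⟨a, Finset.mem_filter.2 ⟨Finset.mem_Ico.2 ⟨ha, hab.1⟩, hcon⟩, rfl⟩⟩)
    · by_contra hcon
      rw [not_le] at hcon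
      refine hn2 (Finset.mem_biUnion.2 ⟨a, Finset.mem_range.2 hab.1, Finset.mem_image.2
        ⟨b, Finset.mem_filter.2 ⟨Finset.mem_Ico.2 ⟨hb, hab.2⟩, ?_⟩, rfl⟩⟩)
      rw [kap_swap (μ := μ) (f := f) (u := v) (v := u), kap_swap (μ := μ) (f := f) (u := v) (v := u),
        kap_swap (μ := μ) (f := f) (u := v) (v := u)]
      exact hcon

end Pool.Agent.H58.Muntz
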