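import Mathlib
import Pool.Agent.H58.Muntz.Interp

/-!
# Interpolation in the half-plane and a two-constants type theorem
-/

set_option autoImplicit false

namespace Pool.Agent.H58.Muntz

open Complex Set Filter Metric Topology Bornology

theorem bl_norm_le (x : ℝ) (hx : 0 < x) (z : ℂ) (hz : 0 ≤ z.re) :
    ‖z - x‖ ≤ ‖z + x‖ := by
  rw [Complex.norm_def, Complex.norm_def]
  apply Real.sqrt_le_sqrt
  simp only [Complex.normSq_apply, Complex.sub_re, Complex.add_re, Complex.sub_im, Complex.add_im,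
    Complex.ofReal_re, Complex.ofReal_im]
  nlinarith [mul_nonneg hx.le hz]

theorem bl_norm_eq (x : ℝ) (y : ℝ) :
    ‖(y * I : ℂ) - x‖ = ‖(y * I : ℂ) + x‖ := by
  rw [Complex.norm_def, Complex.norm_def]
  congr 1
  simp [Complex.normSq_apply]

/-- Interpolation in the half-plane. -/
theorem half_interp {σ ε B : ℝ} (hσ : 0 < σ) (G : ℂ → ℂ)
    (hG : DifferentiableOn ℂ G {z | -σ < z.re}) (hb : ∀ z : ℂ, 0 ≤ z.re → ‖G z‖ ≤ 1)
    {K : ℕ} (x : ℕ → ℝ) (hx : ∀ i < K, σ ≤ x i)
    (hne : ∀ i < K, ∀ j < K, i ≠ j → x i ≠ x j)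
    (hε : ∀ i < K, ‖G (x i)‖ ≤ ε) (hε0 : 0 ≤ ε)
    (hB : ∀ i < K, ∏ j ∈ (Finset.range K).erase i, |(x i + x j) / (x i - x j)| ≤ B)
    (hB0 : 0 ≤ B) :
    ∀ t : ℝ, 0 ≤ t → ‖G t‖ ≤
      (1 + K * ε * B) * ∏ i ∈ Finset.range K, |(t - x i) / (t + x i)| + K * ε * B := by
  classical
  set U : Set ℂ := {z | -σ < z.re} with hUdef
  have hU : IsOpen U := isOpen_lt continuous_const Complex.continuous_re
  have hUge : ∀ z : ℂ, 0 ≤ z.re → z ∈ U := fun z hz => by
    show -σ < z.re
    linarith
  have hxpos : ∀ i < K, 0 < x i := fun i hi => lt_of_lt_of_le hσ (hx i hi)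
  have hzx : ∀ z ∈ U, ∀ i < K, z + (x i : ℂ) ≠ 0 := by
    intro z hz i hi h0
    have h1 := congrArg Complex.re h0
    simp only [Complex.add_re, Complex.ofReal_re, Complex.zero_re] at h1
    have h2 : -σ < z.re := hz
    have := hx i hi
    linarith
  set e : ℕ → ℂ → ℂ := fun i z => ∏ j ∈ (Finset.range K).erase i,
    ((z - x j) / (z + x j) * ((x i + x j) / (x i - x j))) with he
  have heB : ∀ i < K, ∀ z : ℂ, 0 ≤ z.re → ‖e i z‖ ≤ B := by
    intro i hi z hz
    refine le_trans ?_ (hB i hi)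
    simp only [he, norm_prod]
    refine Finset.prod_le_prod (fun _ _ => norm_nonneg _) fun j hj => ?_
    have hj' : j < K := Finset.mem_range.1 (Finset.mem_of_mem_erase hj)
    rw [norm_mul]
    have h1 : ‖(z - x j) / (z + x j)‖ ≤ 1 := by
      rw [norm_div]
      have := bl_norm_le (x j) (hxpos j hj') z hz
      exact div_le_one_of_le₀ this (norm_nonneg _)
    have h2 : ‖((x i : ℂ) + x j) / (x i - x j)‖ = |(x i + x j) / (x i - x j)| := by
      rw [← Real.norm_eq_abs, ← Complex.norm_real]; push_cast; rfl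
    rw [h2]
    calc ‖(z - x j) / (z + x j)‖ * |(x i + x j) / (x i - x j)|
        ≤ 1 * |(x i + x j) / (x i - x j)| := mul_le_mul_of_nonneg_right h1 (abs_nonneg _)
      _ = _ := one_mul _
  have hed : ∀ i, DifferentiableOn ℂ (e i) U := by
    intro i
    simp only [he]
    refine DifferentiableOn.fun_finsetProd fun j hj => ?_
    have hj' : j < K := Finset.mem_range.1 (Finset.mem_of_mem_erase hj)
    refine DifferentiableOn.mul_const (DifferentiableOn.div ?_ ?_ ?_) _
    · fun_prop
    · fun_prop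
    · intro z hz; exact hzx z hz j hj'
  set G1 : ℂ → ℂ := fun z => G z - ∑ i ∈ Finset.range K, G (x i) * e i z with hG1
  have hG1d : DifferentiableOn ℂ G1 U := by
    refine hG.sub (DifferentiableOn.fun_sum fun i _ => ?_)
    exact (hed i).const_mul _
  have hsum : ∀ z : ℂ, 0 ≤ z.re → ‖∑ i ∈ Finset.range K, G (x i) * e i z‖ ≤ K * ε * B := by
    intro z hz
    calc ‖∑ i ∈ Finset.range K, G (x i) * e i z‖ ≤ ∑ i ∈ Finset.range K, ε * B := by
          refine norm_sum_le_of_le _ fun i hi => ?_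
          rw [norm_mul]
          have hi' := Finset.mem_range.1 hi
          exact mul_le_mul (hε i hi') (heB i hi' z hz) (norm_nonneg _) hε0
      _ = K * ε * B := by rw [Finset.sum_const, Finset.card_range, nsmul_eq_mul]; ring
  have hG1b : ∀ z : ℂ, 0 ≤ z.re → ‖G1 z‖ ≤ 1 + K * ε * B := by
    intro z hz
    calc ‖G1 z‖ ≤ ‖G z‖ + ‖∑ i ∈ Finset.range K, G (x i) * e i z‖ := norm_sub_le _ _
      _ ≤ 1 + K * ε * B := add_le_add (hb z hz) (hsum z hz)
  have hinj : Set.InjOn (fun i => (x i : ℂ)) (Finset.range K : Set ℕ) := by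
    intro i hi j hj hij
    by_contra hne'
    refine hne i (by simpa using hi) j (by simpa using hj) hne' ?_
    simpa using hij
  have hG10 : ∀ k < K, G1 (x k) = 0 := by
    intro k hk
    simp only [hG1]
    rw [Finset.sum_eq_single k]
    · have : e k (x k) = 1 := by
        simp only [he]
        refine Finset.prod_eq_one fun j hj => ?_
        have hj' : j < K := Finset.mem_range.1 (Finset.mem_of_mem_erase hj)
        have h1 : ((x k : ℂ) - x j) ≠ 0 := by
          have := hne k hk j hj' (Finset.ne_of_mem_erase hj).symm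
          rw [← Complex.ofReal_sub]
          exact_mod_cast sub_ne_zero.2 this
        have h2 : ((x k : ℂ) + x j) ≠ 0 := hzx _ (hUge _ (by simpa using (hxpos k hk).le)) j hj'
        field_simp
      rw [this]; ring
    · intro i hi hik
      have : e i (x k) = 0 := by
        simp only [he]
        refine Finset.prod_eq_zero (i := k) ?_ (by simp)
        exact Finset.mem_erase.2 ⟨Ne.symm hik, Finset.mem_range.2 hk⟩
      rw [this, mul_zero]
    · intro h; exact absurd (Finset.mem_range.2 hk) h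
  obtain ⟨h, hh, hGh⟩ := factor hU ((Finset.range K).image (fun i => (x i : ℂ))) G1 hG1d (by
    intro y hy
    obtain ⟨i, hi, rfl⟩ := Finset.mem_image.1 hy
    exact ⟨hUge _ (by simpa using (hxpos i (Finset.mem_range.1 hi)).le),
      hG10 i (Finset.mem_range.1 hi)⟩)
  have hprod : ∀ z : ℂ, ∏ y ∈ (Finset.range K).image (fun i => (x i : ℂ)), (z - y) =
      ∏ i ∈ Finset.range K, (z - x i) := fun z => Finset.prod_image hinj
  set H : ℂ → ℂ := fun z => h z * ∏ i ∈ Finset.range K, (z + x i) with hH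
  have hHd : DifferentiableOn ℂ H U := by
    refine hh.mul (DifferentiableOn.fun_finsetProd fun j hj => ?_)
    fun_prop
  have hHG : ∀ z ∈ U, G1 z * ∏ i ∈ Finset.range K, (z + x i) =
      H z * ∏ i ∈ Finset.range K, (z - x i) := by
    intro z hz
    rw [hGh z hz, hprod]; simp only [hH]; ring
  set C : ℝ := 1 + K * ε * B with hC
  have hC0 : 0 ≤ C := by positivity
  -- bound on the imaginary axis
  have him : ∀ y : ℝ, ‖H (y * I)‖ ≤ C := by
    intro y
    have hre : (0 : ℝ) ≤ ((y : ℂ) * I).re := by simp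
    have h1 := hHG _ (hUge _ hre)
    have h2 := congrArg norm h1
    rw [norm_mul, norm_mul, norm_prod, norm_prod] at h2
    have h3 : ∏ i ∈ Finset.range K, ‖(y * I : ℂ) + x i‖ =
        ∏ i ∈ Finset.range K, ‖(y * I : ℂ) - x i‖ :=
      Finset.prod_congr rfl fun i _ => (bl_norm_eq (x i) y).symm
    have h4 : (∏ i ∈ Finset.range K, ‖(y * I : ℂ) + x i‖) ≠ 0 := by
      refine Finset.prod_ne_zero_iff.2 fun i hi => ?_
      exact norm_ne_zero_iff.2 (hzx _ (hUge _ hre) i (Finset.mem_range.1 hi))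
    rw [← h3] at h2
    have h5 := mul_right_cancel₀ h4 h2
    rw [← h5]; exact hG1b _ hre
  -- growth
  set X : ℝ := ∑ i ∈ Finset.range K, x i with hX
  have hxX : ∀ i < K, x i ≤ X := fun i hi =>
    Finset.single_le_sum (f := x) (fun j hj => (hxpos j (Finset.mem_range.1 hj)).le)
      (Finset.mem_range.2 hi)
  have hgrow : ∀ z : ℂ, 0 ≤ z.re → 2 * X ≤ ‖z‖ → ‖H z‖ ≤ C * 3 ^ K := by
    intro z hz hzX
    have h1 := hHG _ (hUge _ hz)
    have h2 := congrArg norm h1
    rw [norm_mul, norm_mul, norm_prod, norm_prod] at h2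
    have h3 : ∏ i ∈ Finset.range K, ‖z + x i‖ ≤ 3 ^ K * ∏ i ∈ Finset.range K, ‖z - x i‖ := by
      calc ∏ i ∈ Finset.range K, ‖z + x i‖ ≤ ∏ i ∈ Finset.range K, (3 * ‖z - x i‖) := by
            refine Finset.prod_le_prod (fun _ _ => norm_nonneg _) fun i hi => ?_
            have hi' := Finset.mem_range.1 hi
            have h4 : ‖(x i : ℂ)‖ = x i := by
              rw [Complex.norm_real, Real.norm_eq_abs, abs_of_pos (hxpos i hi')]
            have h5 : ‖z + x i‖ ≤ ‖z‖ + x i := (norm_add_le _ _).trans (by rw [h4])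
            have h6 : ‖z‖ - x i ≤ ‖z - x i‖ := by
              have := norm_sub_norm_le z (x i : ℂ)
              rwa [h4] at this
            have := hxX i hi'
            have := hxpos i hi'
            linarith
        _ = 3 ^ K * ∏ i ∈ Finset.range K, ‖z - x i‖ := by
            rw [Finset.prod_mul_distrib, Finset.prod_const, Finset.card_range]
    have h4 : 0 < ∏ i ∈ Finset.range K, ‖z + x i‖ := by
      refine Finset.prod_pos fun i hi => ?_
      exact norm_pos_iff.2 (hzx _ (hUge _ hz) i (Finset.mem_range.1 hi))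
    have h5 : 0 < ∏ i ∈ Finset.range K, ‖z - x i‖ := by
      have h6 : 0 ≤ ∏ i ∈ Finset.range K, ‖z - x i‖ := Finset.prod_nonneg fun _ _ => norm_nonneg _
      rcases h6.eq_or_lt with h7 | h7
      · rw [← h7, mul_zero] at h3; linarith
      · exact h7
    have h6 : ‖H z‖ * ∏ i ∈ Finset.range K, ‖z - x i‖ ≤
        (C * 3 ^ K) * ∏ i ∈ Finset.range K, ‖z - x i‖ := by
      rw [← h2]
      calc ‖G1 z‖ * ∏ i ∈ Finset.range K, ‖z + x i‖
          ≤ C * (3 ^ K * ∏ i ∈ Finset.range K, ‖z - x i‖) :=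
            mul_le_mul (hG1b z hz) h3 h4.le hC0
        _ = _ := by ring
    exact le_of_mul_le_mul_right h6 h5
  have hPL : ∀ z : ℂ, 0 ≤ z.re → ‖H z‖ ≤ C := by
    intro z hz
    refine PhragmenLindelof.right_half_plane_of_bounded_on_real (f := H) (C := C) ?_ ?_ ?_ him hz
    · refine (hHd.mono ?_).diffContOnCl
      rw [Complex.closure_setOfPred_lt_re]
      intro w hw
      exact hUge w hw
    · refine ⟨1, by norm_num, 0, ?_⟩
      refine Asymptotics.IsBigO.of_bound (C * 3 ^ K) ?_
      rw [Filter.eventually_inf_principal]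
      filter_upwards [eventually_cobounded_le_norm (2 * X)] with w hw hw0
      have := hgrow w (le_of_lt hw0) hw
      simpa using this
    · refine ⟨C * 3 ^ K, ?_⟩
      rw [Filter.eventually_map]
      filter_upwards [Filter.eventually_ge_atTop (max (2 * X) 0)] with w hw
      have hw0 : 0 ≤ w := (le_max_right _ _).trans hw
      refine hgrow w (by simpa using hw0) ?_
      rw [Complex.norm_real, Real.norm_eq_abs, abs_of_nonneg hw0]
      exact (le_max_left _ _).trans hw
  intro t ht
  have htre : (0 : ℝ) ≤ ((t : ℝ) : ℂ).re := by simpa using ht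
  have h5 : G t = G1 t + ∑ i ∈ Finset.range K, G (x i) * e i t := by simp [hG1]
  have h6 : ‖G1 t‖ ≤ C * ∏ i ∈ Finset.range K, |(t - x i) / (t + x i)| := by
    have h1 := congrArg norm (hHG _ (hUge _ htre))
    rw [norm_mul, norm_mul, norm_prod, norm_prod] at h1
    have h4 : 0 < ∏ i ∈ Finset.range K, ‖(t : ℂ) + x i‖ := by
      refine Finset.prod_pos fun i hi => ?_
      exact norm_pos_iff.2 (hzx _ (hUge _ htre) i (Finset.mem_range.1 hi))
    have h7 : ∏ i ∈ Finset.range K, |(t - x i) / (t + x i)| =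
        (∏ i ∈ Finset.range K, ‖(t : ℂ) - x i‖) / ∏ i ∈ Finset.range K, ‖(t : ℂ) + x i‖ := by
      rw [← Finset.prod_div_distrib]
      refine Finset.prod_congr rfl fun i _ => ?_
      rw [← norm_div, ← Real.norm_eq_abs, ← Complex.norm_real]; push_cast; rfl
    rw [h7, ← mul_div_assoc, le_div_iff₀ h4, h1]
    exact mul_le_mul_of_nonneg_right (hPL _ htre) (Finset.prod_nonneg fun _ _ => norm_nonneg _)
  calc ‖G t‖ ≤ ‖G1 t‖ + ‖∑ i ∈ Finset.range K, G (x i) * e i t‖ := by
        rw [h5]; exact norm_add_le _ _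
    _ ≤ _ := add_le_add h6 (hsum _ htre)

/-- Two-constants type theorem: smallness on `[r, (1+τ) r]` for arbitrarily large `r` propagates to
exponential decay on the whole half-line. -/
theorem half_decay {τ ω : ℝ} (hτ : 0 < τ) (hτ1 : τ ≤ 1) (hω : 0 < ω) :
    ∃ κ : ℝ, 0 < κ ∧ ∀ (σ : ℝ) (_ : 0 < σ) (G : ℂ → ℂ)
      (_ : DifferentiableOn ℂ G {z | -σ < z.re}) (_ : ∀ z : ℂ, 0 ≤ z.re → ‖G z‖ ≤ 1)
      (_ : ∃ᶠ r : ℝ in atTop, ∀ x ∈ Set.Icc r ((1 + τ) * r), ‖G x‖ ≤ Real.exp (-ω * r)),
      ∀ t : ℝ, 0 ≤ t → ‖G t‖ ≤ Real.exp (-κ * t) := by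
  set L : ℝ := Real.log (8 / τ) + 1 with hL
  have h8τ : 1 ≤ 8 / τ := by rw [le_div_iff₀ hτ]; linarith
  have hLpos : 0 < L := by have := Real.log_nonneg h8τ; linarith
  set κ2 : ℝ := ω / (4 * L) with hκ2
  have hκ2pos : 0 < κ2 := by positivity
  have hκL : L * κ2 = ω / 4 := by rw [hκ2]; field_simp
  refine ⟨2 / 3 * κ2, by positivity, ?_⟩
  intro σ hσ G hG hb hfreq t ht
  set δ : ℝ → ℝ := fun r => κ2 * (r * Real.exp (-(3 * ω / 4) * r)) with hδ
  set Φ : ℝ → ℝ := fun r =>
    (1 + δ r) * Real.exp (-(2 / 3 * κ2) * t + 2 * t / 3 * r⁻¹) + δ r with hΦ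
  have hδlim : Tendsto δ atTop (𝓝 0) := by
    have h1 := (tendsto_rpow_mul_exp_neg_mul_atTop_nhds_zero 1 (3 * ω / 4) (by positivity)).const_mul κ2
    simpa [hδ, Real.rpow_one] using h1
  have hΦlim : Tendsto Φ atTop (𝓝 (Real.exp (-(2 / 3 * κ2) * t))) := by
    have h1 : Tendsto (fun r : ℝ => Real.exp (-(2 / 3 * κ2) * t + 2 * t / 3 * r⁻¹)) atTop
        (𝓝 (Real.exp (-(2 / 3 * κ2) * t + 2 * t / 3 * 0))) :=
      (Real.continuous_exp.tendsto _).comp
        (tendsto_const_nhds.add (tendsto_inv_atTop_zero.const_mul _))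
    have h2 := ((hδlim.const_add 1).mul h1).add hδlim
    simpa [hΦ] using h2
  by_contra hcon
  rw [not_le] at hcon
  have hev : ∀ᶠ r in atTop, Φ r < ‖G t‖ := hΦlim.eventually_lt_const hcon
  have hev2 : ∀ᶠ r : ℝ in atTop, Φ r < ‖G t‖ ∧ σ ≤ r ∧ t ≤ r ∧ 1 ≤ r := by
    filter_upwards [hev, eventually_ge_atTop σ, eventually_ge_atTop t, eventually_ge_atTop 1]
      with r h1 h2 h3 h4 using ⟨h1, h2, h3, h4⟩
  obtain ⟨r, hr, hrΦ, hrσ, hrt, hr1⟩ := (hfreq.and_eventually hev2).exists
  have hr0 : 0 < r := by linarith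
  refine absurd hrΦ (not_lt.2 ?_)
  set K : ℕ := ⌊κ2 * r⌋₊ with hK
  have hKle : (K : ℝ) ≤ κ2 * r := Nat.floor_le (by positivity)
  have hKge : κ2 * r - 1 ≤ K := by
    have := Nat.lt_floor_add_one (κ2 * r)
    linarith
  set x : ℕ → ℝ := fun i => r + τ * r / K * i with hx
  have hxle : ∀ i < K, r ≤ x i ∧ x i ≤ (1 + τ) * r := by
    intro i hi
    have hK0 : (0 : ℝ) < K := by exact_mod_cast (lt_of_le_of_lt (Nat.zero_le i) hi)
    have hiK : (i : ℝ) ≤ K := by exact_mod_cast hi.le
    constructor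
    · simp only [hx]; have : 0 ≤ τ * r / K * i := by positivity
      linarith
    · simp only [hx]
      have : τ * r / K * i ≤ τ * r := by
        rw [div_mul_eq_mul_div, div_le_iff₀ hK0]
        exact mul_le_mul_of_nonneg_left hiK (by positivity)
      linarith
  have hsub : ∀ i j : ℕ, x i - x j = τ * r / K * ((i : ℝ) - j) := fun i j => by
    simp only [hx]; ring
  have hmain := half_interp (σ := σ) (ε := Real.exp (-ω * r)) (B := Real.exp (ω * r / 4)) hσ G hG hb
    (K := K) x (fun i hi => hrσ.trans (hxle i hi).1) (by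
      intro i hi j hj hij h0
      have hK0 : (0 : ℝ) < K := by exact_mod_cast (lt_of_le_of_lt (Nat.zero_le i) hi)
      have h1 := hsub i j
      rw [h0, sub_self] at h1
      have h2 : τ * r / K ≠ 0 := by positivity
      have h3 := (mul_eq_zero.1 h1.symm).resolve_left h2
      exact hij (by exact_mod_cast sub_eq_zero.1 h3))
    (fun i hi => hr (x i) ⟨(hxle i hi).1, (hxle i hi).2⟩) (Real.exp_pos _).le (by
      intro i hi
      have hK0 : (0 : ℝ) < K := by exact_mod_cast (lt_of_le_of_lt (Nat.zero_le i) hi)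
      have h1 := node_prod_le (K := K) (i := i) hi (c := 4 * K / τ)
        (fun j => |(x i + x j) / (x i - x j)|) (by
          intro j hj
          have hj' : j < K := Finset.mem_range.1 (Finset.mem_of_mem_erase hj)
          have hji : j ≠ i := Finset.ne_of_mem_erase hj
          refine ⟨abs_nonneg _, ?_⟩
          have hij : (i : ℝ) - j ≠ 0 := by
            intro h0; exact hji (by exact_mod_cast (sub_eq_zero.1 h0).symm)
          have h2 : |(i : ℝ) - j| ≠ 0 := abs_ne_zero.2 hij
          rw [hsub, abs_div, abs_mul]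
          have h3 : |τ * r / K| = τ * r / K := abs_of_pos (by positivity)
          have h4 : |x i + x j| = x i + x j :=
            abs_of_nonneg (by linarith [(hxle i hi).1, (hxle j hj').1])
          rw [h3, h4]
          have h5 : (x i + x j) / (τ * r / K * |(i : ℝ) - j|) * |(i : ℝ) - j| =
              (x i + x j) * K / (τ * r) := by field_simp
          rw [h5, div_le_div_iff₀ (by positivity) hτ]
          have h6 : x i + x j ≤ 4 * r := by
            have := (hxle i hi).2; have := (hxle j hj').2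
            nlinarith
          calc (x i + x j) * K * τ ≤ (4 * r) * K * τ := by gcongr
            _ = 4 * K * (τ * r) := by ring)
      refine h1.trans ?_
      have h7 : (2 * (4 * (K : ℝ) / τ)) ^ (K - 1) / (K - 1).factorial =
          (8 / τ) ^ (K - 1) * ((K : ℝ) ^ (K - 1) / (K - 1).factorial) := by
        have h7' : 2 * (4 * (K : ℝ) / τ) = (8 / τ) * K := by ring
        rw [h7', mul_pow, mul_div_assoc]
      rw [h7]
      have h8 : (K : ℝ) ^ (K - 1) / (K - 1).factorial ≤ Real.exp K :=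
        Real.pow_div_factorial_le_exp _ (by positivity) _
      have h9 : (8 / τ) ^ (K - 1) ≤ Real.exp (Real.log (8 / τ) * K) := by
        rw [← Real.rpow_natCast, Real.rpow_def_of_pos (by positivity)]
        apply Real.exp_le_exp.2
        refine mul_le_mul_of_nonneg_left ?_ (Real.log_nonneg h8τ)
        exact_mod_cast Nat.sub_le K 1
      calc (8 / τ) ^ (K - 1) * ((K : ℝ) ^ (K - 1) / (K - 1).factorial)
          ≤ Real.exp (Real.log (8 / τ) * K) * Real.exp K :=
            mul_le_mul h9 h8 (by positivity) (Real.exp_pos _).le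
        _ = Real.exp (L * K) := by rw [← Real.exp_add, hL]; ring_nf
        _ ≤ Real.exp (ω * r / 4) := by
            apply Real.exp_le_exp.2
            calc L * K ≤ L * (κ2 * r) := mul_le_mul_of_nonneg_left hKle hLpos.le
              _ = ω * r / 4 := by rw [← mul_assoc, hκL]; ring)
    (Real.exp_pos _).le t ht
  have hδb : (K : ℝ) * Real.exp (-ω * r) * Real.exp (ω * r / 4) ≤ δ r := by
    rw [mul_assoc, ← Real.exp_add]
    simp only [hδ]
    rw [← mul_assoc]
    refine mul_le_mul hKle (le_of_eq ?_) (Real.exp_pos _).le (by positivity)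
    congr 1; ring
  have hprodb : ∏ i ∈ Finset.range K, |(t - x i) / (t + x i)| ≤
      Real.exp (-(2 / 3 * κ2) * t + 2 * t / 3 * r⁻¹) := by
    calc ∏ i ∈ Finset.range K, |(t - x i) / (t + x i)|
        ≤ ∏ _i ∈ Finset.range K, Real.exp (-(2 * t / (3 * r))) := by
          refine Finset.prod_le_prod (fun _ _ => abs_nonneg _) fun i hi => ?_
          have h1 := hxle i (Finset.mem_range.1 hi)
          have h2 : 0 < t + x i := by linarith [h1.1]
          rw [abs_div, abs_of_pos h2, abs_of_nonpos (by linarith [h1.1])]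
          have h3 : 2 * t / (3 * r) ≤ 2 * t / (t + x i) := by
            apply div_le_div_of_nonneg_left (by positivity) h2
            nlinarith [h1.2]
          calc -(t - x i) / (t + x i) = 1 - 2 * t / (t + x i) := by field_simp; ring
            _ ≤ 1 - 2 * t / (3 * r) := by linarith
            _ ≤ Real.exp (-(2 * t / (3 * r))) := by
                have := Real.add_one_le_exp (-(2 * t / (3 * r)))
                linarith
      _ = Real.exp (-(2 * t / (3 * r)) * K) := by
          rw [Finset.prod_const, Finset.card_range, ← Real.exp_nat_mul]; ring_nf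
      _ ≤ _ := by
          apply Real.exp_le_exp.2
          have h4 : 2 * t / (3 * r) * (κ2 * r - 1) ≤ 2 * t / (3 * r) * K :=
            mul_le_mul_of_nonneg_left hKge (by positivity)
          have h5 : 2 * t / (3 * r) * (κ2 * r - 1) = 2 / 3 * κ2 * t - 2 * t / 3 * r⁻¹ := by
            field_simp
          linarith
  have hδ0 : 0 ≤ δ r := by simp only [hδ]; positivity
  calc ‖G t‖ ≤ _ := hmain
    _ ≤ (1 + δ r) * Real.exp (-(2 / 3 * κ2) * t + 2 * t / 3 * r⁻¹) + δ r := by
        refine add_le_add (mul_le_mul (by linarith) hprodb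
          (Finset.prod_nonneg fun _ _ => abs_nonneg _) (by linarith)) hδb

end Pool.Agent.H58.Muntz
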