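import Mathlib

/-!
# A Mikusinski type lemma
-/

set_option autoImplicit false

namespace Pool.Agent.H58.Muntz

open MeasureTheory Set Filter Topology

variable {X : Type*} [MeasurableSpace X] {μ : Measure X}

theorem one_sub_exp_neg_hasSum (y : ℝ) :
    HasSum (fun k : ℕ => -((-y) ^ (k + 1) / (k + 1).factorial)) (1 - Real.exp (-y)) := by
  have h1 : HasSum (fun k : ℕ => (-y) ^ k / k.factorial) (Real.exp (-y)) := by
    have := NormedSpace.expSeries_div_hasSum_exp (-y)
    rwa [← Real.exp_eq_exp_ℝ] at this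
  have h2 := (hasSum_nat_add_iff' 1).2 h1
  have h3 := h2.neg
  simpa using h3

theorem exp_sub_one_hasSum (y : ℝ) :
    HasSum (fun k : ℕ => y ^ (k + 1) / (k + 1).factorial) (Real.exp y - 1) := by
  have h1 : HasSum (fun k : ℕ => y ^ k / k.factorial) (Real.exp y) := by
    have := NormedSpace.expSeries_div_hasSum_exp y
    rwa [← Real.exp_eq_exp_ℝ] at this
  have h2 := (hasSum_nat_add_iff' 1).2 h1
  simpa using h2

/-- A Mikusinski type lemma: exponentially small moments force the vanishing of the integral over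
sublevel sets. -/
theorem mikusinski (h : X → ℂ) (hh : Integrable h μ) (w : X → ℝ) (hw : Measurable w)
    (hw0 : ∀ x, 0 ≤ w x) {M c1 : ℝ}
    (hM : ∀ n : ℕ, 1 ≤ n → ‖∫ x, h x * (Real.exp (-(n * w x)) : ℝ) ∂μ‖ ≤
      M * Real.exp (-(n * c1)))
    {c : ℝ} (hc : c < c1) (hnull : μ {x | w x = c} = 0) :
    ∫ x in {x | w x < c}, h x ∂μ = 0 := by
  have hmeas : MeasurableSet {x | w x < c} := measurableSet_lt hw measurable_const
  set Y : ℕ → X → ℝ := fun n x => Real.exp (n * (c - w x)) with hY
  have hY0 : ∀ n x, 0 < Y n x := fun n x => Real.exp_pos _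
  set I : ℕ → ℂ := fun n => ∫ x, h x * ((1 - Real.exp (-(Y n x)) : ℝ) : ℂ) ∂μ with hI
  have hYmeas : ∀ n, Measurable (Y n) := fun n =>
    Real.measurable_exp.comp (measurable_const.mul (measurable_const.sub hw))
  -- claim 1
  have claim1 : ∀ n : ℕ, 1 ≤ n → ‖I n‖ ≤ M * (Real.exp (Real.exp (-(n * (c1 - c)))) - 1) := by
    intro n hn
    set a : ℕ → X → ℂ := fun k x =>
      h x * ((-((-(Y n x)) ^ (k + 1) / (k + 1).factorial) : ℝ) : ℂ) with ha
    have ha_eq : ∀ k x, a k x = ((-((-1) ^ (k + 1) / (k + 1).factorial) *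
        Real.exp (((k + 1 : ℕ) * n : ℕ) * c) : ℝ) : ℂ) *
        (h x * (Real.exp (-(((k + 1 : ℕ) * n : ℕ) * w x)) : ℝ)) := by
      intro k x
      simp only [ha]
      have h1 : (-(Y n x)) ^ (k + 1) = (-1) ^ (k + 1) * (Real.exp (((k + 1 : ℕ) * n : ℕ) * c) *
          Real.exp (-(((k + 1 : ℕ) * n : ℕ) * w x))) := by
        rw [neg_pow, ← Real.exp_add]
        congr 1
        simp only [hY]
        rw [← Real.exp_nat_mul]
        congr 1
        push_cast; ring
      rw [h1]; push_cast; ring
    have hexpbd : ∀ k x, |Real.exp (-(((k + 1 : ℕ) * n : ℕ) * w x))| ≤ 1 := by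
      intro k x
      rw [abs_of_pos (Real.exp_pos _)]
      apply Real.exp_le_one_iff.2
      have := mul_nonneg (Nat.cast_nonneg (((k + 1 : ℕ) * n : ℕ)) : (0:ℝ) ≤ _) (hw0 x)
      linarith
    have hint0 : ∀ k : ℕ, Integrable (fun x => h x *
        ((Real.exp (-(((k + 1 : ℕ) * n : ℕ) * w x)) : ℝ) : ℂ)) μ := by
      intro k
      refine hh.mul_bdd (c := 1) ?_ ?_
      · exact (Complex.measurable_ofReal.comp (Real.measurable_exp.comp
          ((measurable_const.mul hw).neg))).aestronglyMeasurable
      · refine Filter.Eventually.of_forall fun x => ?_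
        rw [Complex.norm_real]; exact hexpbd k x
    have hint : ∀ k, Integrable (a k) μ := by
      intro k
      have : a k = fun x => ((-((-1) ^ (k + 1) / (k + 1).factorial) *
        Real.exp (((k + 1 : ℕ) * n : ℕ) * c) : ℝ) : ℂ) *
        (h x * (Real.exp (-(((k + 1 : ℕ) * n : ℕ) * w x)) : ℝ)) := funext fun x => ha_eq k x
      rw [this]
      exact (hint0 k).const_mul _
    have hnorm_coef : ∀ k : ℕ, ‖((-((-1) ^ (k + 1) / (k + 1).factorial) *
        Real.exp (((k + 1 : ℕ) * n : ℕ) * c) : ℝ) : ℂ)‖ =
        Real.exp (n * c) ^ (k + 1) / (k + 1).factorial := by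
      intro k
      rw [Complex.norm_real, Real.norm_eq_abs, abs_mul, abs_neg, abs_div, abs_pow, abs_neg,
        abs_one, one_pow, abs_of_pos (Real.exp_pos _), Nat.abs_cast, ← Real.exp_nat_mul]
      push_cast
      rw [one_div_mul_eq_div]; congr 2; ring
    have hsumm : Summable fun k => ∫ x, ‖a k x‖ ∂μ := by
      have h1 : Summable fun k : ℕ => (Real.exp (n * c) ^ (k + 1) / (k + 1).factorial) *
          ∫ x, ‖h x‖ ∂μ := ((exp_sub_one_hasSum (Real.exp (n * c))).summable).mul_right _
      refine Summable.of_nonneg_of_le (fun k => integral_nonneg fun x => norm_nonneg _) ?_ h1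
      intro k
      rw [← integral_const_mul]
      refine integral_mono (hint k).norm (hh.norm.const_mul _) fun x => ?_
      show ‖a k x‖ ≤ _
      rw [ha_eq, norm_mul, hnorm_coef, norm_mul]
      refine mul_le_mul_of_nonneg_left ?_ (by positivity)
      calc ‖h x‖ * ‖((Real.exp (-(((k + 1 : ℕ) * n : ℕ) * w x)) : ℝ) : ℂ)‖ ≤ ‖h x‖ * 1 := by
            refine mul_le_mul_of_nonneg_left ?_ (norm_nonneg _)
            rw [Complex.norm_real]; exact hexpbd k x
        _ = ‖h x‖ := mul_one _
    have hS := hasSum_integral_of_summable_integral_norm hint hsumm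
    have htsum : ∀ x, ∑' k, a k x = h x * ((1 - Real.exp (-(Y n x)) : ℝ) : ℂ) := by
      intro x
      have h1 := one_sub_exp_neg_hasSum (Y n x)
      have h2 := (Complex.hasSum_ofReal.2 h1).mul_left (h x)
      exact h2.tsum_eq
    have hIn : HasSum (fun k => ∫ x, a k x ∂μ) (I n) := by
      have : I n = ∫ x, ∑' k, a k x ∂μ := by
        simp only [hI]; exact integral_congr_ae (Filter.Eventually.of_forall fun x => (htsum x).symm)
      rw [this]; exact hS
    have hterm : ∀ k, ‖∫ x, a k x ∂μ‖ ≤
        M * (Real.exp (-(n * (c1 - c))) ^ (k + 1) / (k + 1).factorial) := by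
      intro k
      have h1 : ∫ x, a k x ∂μ = ((-((-1) ^ (k + 1) / (k + 1).factorial) *
        Real.exp (((k + 1 : ℕ) * n : ℕ) * c) : ℝ) : ℂ) *
        ∫ x, (h x * (Real.exp (-(((k + 1 : ℕ) * n : ℕ) * w x)) : ℝ)) ∂μ := by
        rw [← integral_const_mul]
        exact integral_congr_ae (Filter.Eventually.of_forall fun x => ha_eq k x)
      rw [h1, norm_mul, hnorm_coef]
      have hkn : 1 ≤ (k + 1) * n := Nat.one_le_iff_ne_zero.2 (by positivity)
      have h2 := hM ((k + 1) * n) hkn
      calc Real.exp (n * c) ^ (k + 1) / (k + 1).factorial *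
            ‖∫ x, (h x * (Real.exp (-(((k + 1 : ℕ) * n : ℕ) * w x)) : ℝ)) ∂μ‖
          ≤ Real.exp (n * c) ^ (k + 1) / (k + 1).factorial *
              (M * Real.exp (-(((k + 1) * n : ℕ) * c1))) :=
            mul_le_mul_of_nonneg_left h2 (by positivity)
        _ = M * (Real.exp (-(n * (c1 - c))) ^ (k + 1) / (k + 1).factorial) := by
            rw [← Real.exp_nat_mul, ← Real.exp_nat_mul]
            have h3 : Real.exp (((k + 1 : ℕ) : ℝ) * -(n * (c1 - c))) =
                Real.exp (((k + 1 : ℕ) : ℝ) * (n * c)) * Real.exp (-((((k + 1) * n : ℕ) : ℝ) * c1)) := by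
              rw [← Real.exp_add]; congr 1; push_cast; ring
            rw [h3]; ring
    have hbsum := (exp_sub_one_hasSum (Real.exp (-(n * (c1 - c))))).mul_left M
    exact hIn.norm_le_of_bounded hbsum hterm
  -- claim 2
  have claim2 : Tendsto I atTop (𝓝 (∫ x in {x | w x < c}, h x ∂μ)) := by
    rw [← integral_indicator hmeas]
    refine tendsto_integral_of_dominated_convergence (fun x => ‖h x‖) ?_ hh.norm ?_ ?_
    · intro n
      refine hh.aestronglyMeasurable.mul ?_
      exact (Complex.measurable_ofReal.comp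
        (measurable_const.sub (Real.measurable_exp.comp (hYmeas n).neg))).aestronglyMeasurable
    · intro n
      refine Filter.Eventually.of_forall fun x => ?_
      rw [norm_mul, Complex.norm_real, Real.norm_eq_abs]
      have h1 : |1 - Real.exp (-(Y n x))| ≤ 1 := by
        rw [abs_le]
        have h2 := Real.exp_pos (-(Y n x))
        have h3 : Real.exp (-(Y n x)) ≤ 1 := Real.exp_le_one_iff.2 (by linarith [hY0 n x])
        constructor <;> linarith
      calc ‖h x‖ * |1 - Real.exp (-(Y n x))| ≤ ‖h x‖ * 1 :=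
            mul_le_mul_of_nonneg_left h1 (norm_nonneg _)
        _ = ‖h x‖ := mul_one _
    · have hae : ∀ᵐ x ∂μ, w x ≠ c := by
        rw [ae_iff]; simpa using hnull
      filter_upwards [hae] with x hx
      rcases lt_or_gt_of_ne hx with h1 | h1
      · have h2 : ({x | w x < c} : Set X).indicator h x = h x * ((1 - 0 : ℝ) : ℂ) := by
          rw [Set.indicator_of_mem (show x ∈ {x | w x < c} from h1)]; simp
        rw [h2]
        refine Tendsto.const_mul _ ((Complex.continuous_ofReal.tendsto _).comp
          (tendsto_const_nhds.sub ?_))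
        have h3 : Tendsto (fun n : ℕ => Y n x) atTop atTop := by
          simp only [hY]
          refine Real.tendsto_exp_atTop.comp ?_
          exact tendsto_natCast_atTop_atTop.atTop_mul_const (by linarith)
        exact Real.tendsto_exp_atBot.comp (tendsto_neg_atTop_atBot.comp h3)
      · have h2 : ({x | w x < c} : Set X).indicator h x = h x * ((1 - Real.exp (-0) : ℝ) : ℂ) := by
          rw [Set.indicator_of_notMem (show x ∉ {x | w x < c} from not_lt.2 h1.le)]; simp
        rw [h2]
        refine Tendsto.const_mul _ ((Complex.continuous_ofReal.tendsto _).comp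
          (tendsto_const_nhds.sub ?_))
        have h3 : Tendsto (fun n : ℕ => Y n x) atTop (𝓝 0) := by
          simp only [hY]
          refine Real.tendsto_exp_atBot.comp ?_
          exact tendsto_natCast_atTop_atTop.atTop_mul_const_of_neg (by linarith)
        exact (Real.continuous_exp.tendsto _).comp h3.neg
  -- conclusion
  have hlim0 : Tendsto I atTop (𝓝 0) := by
    have h1 : Tendsto (fun n : ℕ => M * (Real.exp (Real.exp (-(n * (c1 - c)))) - 1)) atTop
        (𝓝 (M * (Real.exp 0 - 1))) := by
      refine Tendsto.const_mul _ (Tendsto.sub_const ?_ _)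
      refine (Real.continuous_exp.tendsto _).comp ?_
      refine Real.tendsto_exp_atBot.comp (tendsto_neg_atTop_atBot.comp ?_)
      exact tendsto_natCast_atTop_atTop.atTop_mul_const (by linarith)
    rw [Real.exp_zero, sub_self, mul_zero] at h1
    refine squeeze_zero_norm' ?_ h1
    filter_upwards [eventually_ge_atTop 1] with n hn using claim1 n hn
  exact tendsto_nhds_unique claim2 hlim0

end Pool.Agent.H58.Muntz
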