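import Mathlib
import Pool.Agent.H58.Muntz.Good
import Pool.Agent.H58.Muntz.Half
import Pool.Agent.H58.Muntz.Mik

/-!
# The abstract uniqueness theorem
-/

set_option autoImplicit false

namespace Pool.Agent.H58.Muntz

open MeasureTheory Set Filter Topology Metric

theorem main_abstract {X : Type*} [MeasurableSpace X] {μ : Measure X} [SFinite μ]
    (f : X → ℂ) (hf : Integrable f μ) (u v : X → ℝ) (hu : Measurable u) (hv : Measurable v)
    (hu0 : ∀ x, 0 ≤ u x) (hv0 : ∀ x, 0 ≤ v x)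
    (hdet : ∀ g : X → ℂ, Integrable g μ → (∀ α β : ℕ, 1 ≤ α → 1 ≤ β →
      ∫ x, g x * Complex.exp (-((α : ℂ) * u x + (β : ℂ) * v x)) ∂μ = 0) → g =ᵐ[μ] 0)
    (Ω : Set (ℕ × ℕ)) (δ : ℝ) (hδ : 0 < δ)
    (hΩ : ∃ᶠ N : ℕ in atTop, ∃ Z : Finset (ℕ × ℕ), (∀ p ∈ Z, p ∈ Ω ∧ p.1 ≤ N ∧ p.2 ≤ N) ∧
      δ * (N : ℝ) ^ 2 ≤ Z.card)
    (hz : ∀ p ∈ Ω, LT μ f u v p.1 p.2 = 0) : f =ᵐ[μ] 0 := by
  classical
  by_contra hcon
  have hne : μ {x | f x ≠ 0} ≠ 0 := by
    intro h0
    apply hcon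
    rw [Filter.EventuallyEq, ae_iff]
    exact h0
  set δ' : ℝ := min δ 1 with hδ'
  have hδ'0 : 0 < δ' := lt_min hδ one_pos
  have hδ'1 : δ' ≤ 1 := min_le_right _ _
  obtain ⟨θ, hθ, R0, hloc⟩ := local_decay (δ := δ' / 64) (by positivity) (by linarith)
  obtain ⟨J, hJ3, Bad, hBadc, hgood⟩ := exists_J (μ := μ) (f := f) (u := u) (v := v) hu0 hv0 hne
    hδ'0 hθ
  have hJ0 : (0 : ℝ) < J := by exact_mod_cast (by omega : 0 < J)
  -- pigeonhole
  have hfreq1 : ∃ᶠ N : ℕ in atTop, ∃ ab ∈ Finset.range (J + 1) ×ˢ Finset.range (J + 1),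
      ab ∉ Bad ∧ ∃ Z' : Finset (ℕ × ℕ), (∀ p ∈ Z', p ∈ Ω) ∧
        (∀ p ∈ Z', |(p.1 : ℝ) - (N / J : ℝ) * ab.1| ≤ (N / J : ℝ) / 2 ∧
          |(p.2 : ℝ) - (N / J : ℝ) * ab.2| ≤ (N / J : ℝ) / 2) ∧
        δ' / 4 * (N / J : ℝ) ^ 2 ≤ Z'.card := by
    refine (hΩ.and_eventually (eventually_ge_atTop (3 * J))).mono ?_
    rintro N ⟨⟨Z, hZ, hZc⟩, hN⟩
    have hZc' : δ' * (N : ℝ) ^ 2 ≤ Z.card :=
      (mul_le_mul_of_nonneg_right (min_le_left _ _) (by positivity)).trans hZc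
    obtain ⟨ab, hab, habB, Z', hZ'sub, hZ'1, hZ'2⟩ := exists_box hδ'0 J hJ3 Bad hBadc N hN Z
      (fun p hp => (hZ p hp).2) hZc'
    exact ⟨ab, hab, habB, Z', fun p hp => (hZ p (hZ'sub hp)).1, hZ'1, hZ'2⟩
  have hfreq2 : ∃ ab ∈ Finset.range (J + 1) ×ˢ Finset.range (J + 1), ab ∉ Bad ∧
      ∃ᶠ N : ℕ in atTop, ∃ Z' : Finset (ℕ × ℕ), (∀ p ∈ Z', p ∈ Ω) ∧
        (∀ p ∈ Z', |(p.1 : ℝ) - (N / J : ℝ) * ab.1| ≤ (N / J : ℝ) / 2 ∧
          |(p.2 : ℝ) - (N / J : ℝ) * ab.2| ≤ (N / J : ℝ) / 2) ∧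
        δ' / 4 * (N / J : ℝ) ^ 2 ≤ Z'.card := by
    by_contra hno
    push Not at hno
    have hev : ∀ᶠ N : ℕ in atTop, ∀ ab ∈ Finset.range (J + 1) ×ˢ Finset.range (J + 1),
        ab ∉ Bad → ¬ ∃ Z' : Finset (ℕ × ℕ), (∀ p ∈ Z', p ∈ Ω) ∧
        (∀ p ∈ Z', |(p.1 : ℝ) - (N / J : ℝ) * ab.1| ≤ (N / J : ℝ) / 2 ∧
          |(p.2 : ℝ) - (N / J : ℝ) * ab.2| ≤ (N / J : ℝ) / 2) ∧
        δ' / 4 * (N / J : ℝ) ^ 2 ≤ Z'.card := by
      rw [Filter.eventually_all_finset]
      intro ab hab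
      by_cases hB : ab ∈ Bad
      · exact Filter.Eventually.of_forall fun N h => absurd hB h
      · filter_upwards [hno ab hab hB] with N hN _
        rintro ⟨Z', h1, h2, h3⟩
        exact absurd h3 (not_le.2 (hN Z' h1 h2))
    obtain ⟨N, ⟨ab, hab, habB, hex⟩, hN⟩ := (hfreq1.and_eventually hev).exists
    exact hN ab hab habB hex
  obtain ⟨⟨a, b⟩, hab, habB, hfreq⟩ := hfreq2
  obtain ⟨ha9, hb9, hD1, hD2⟩ := hgood (a, b) hab habB
  simp only at ha9 hb9 hD1 hD2 hfreq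
  have ha9' : (9 : ℝ) ≤ a := by exact_mod_cast ha9
  have hb9' : (9 : ℝ) ≤ b := by exact_mod_cast hb9
  have ca8 : ((a - 8 : ℕ) : ℝ) = (a : ℝ) - 8 := by rw [Nat.cast_sub (by omega)]; norm_num
  have cb8 : ((b - 8 : ℕ) : ℝ) = (b : ℝ) - 8 := by rw [Nat.cast_sub (by omega)]; norm_num
  have ca8' : ((a + 8 : ℕ) : ℝ) = (a : ℝ) + 8 := by push_cast; rfl
  have cb8' : ((b + 8 : ℕ) : ℝ) = (b : ℝ) + 8 := by push_cast; rfl
  rw [ca8, ca8'] at hD1
  rw [cb8, cb8'] at hD2
  set κ0 : ℝ := kap μ f u v a b with hκ0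
  have hκ00 : 0 ≤ κ0 := le_kap hu0 hv0 hne (by linarith) (by linarith)
    (LB_zero hu0 hv0 (by linarith) (by linarith))
  have L0 := LB_kap (μ := μ) (f := f) hu0 hv0 (a := a) (b := b) (by linarith) (by linarith)
  have L1 := LB_kap (μ := μ) (f := f) hu0 hv0 (a := (a : ℝ) + 8) (b := b) (by linarith) (by linarith)
  have L2 := LB_kap (μ := μ) (f := f) hu0 hv0 (a := (a : ℝ) - 8) (b := b) (by linarith) (by linarith)
  have L3 := LB_kap (μ := μ) (f := f) hu0 hv0 (a := a) (b := (b : ℝ) + 8) (by linarith) (by linarith)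
  have L4 := LB_kap (μ := μ) (f := f) hu0 hv0 (a := a) (b := (b : ℝ) - 8) (by linarith) (by linarith)
  -- a support point
  obtain ⟨x0, hx0lt, hx00, hx01, hx02, hx03, hx04⟩ : ∃ x, a * u x + b * v x < κ0 + θ / 4 ∧
      κ0 ≤ a * u x + b * v x ∧
      kap μ f u v ((a : ℝ) + 8) b ≤ ((a : ℝ) + 8) * u x + b * v x ∧
      kap μ f u v ((a : ℝ) - 8) b ≤ ((a : ℝ) - 8) * u x + b * v x ∧
      kap μ f u v a ((b : ℝ) + 8) ≤ a * u x + ((b : ℝ) + 8) * v x ∧
      kap μ f u v a ((b : ℝ) - 8) ≤ a * u x + ((b : ℝ) - 8) * v x := by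
    by_contra hno
    push Not at hno
    have hLB : LB μ f u v a b (κ0 + θ / 4) := by
      filter_upwards [L0, L1, L2, L3, L4] with x h0 h1 h2 h3 h4 hfx
      by_contra hlt
      rw [not_le] at hlt
      have := hno x hlt (h0 hfx) (h1 hfx) (h2 hfx) (h3 hfx)
      exact absurd (h4 hfx) (not_le.2 this)
    have := le_kap hu0 hv0 hne (by linarith) (by linarith) hLB
    linarith
  set u0 : ℝ := u x0 with hu0def
  set v0 : ℝ := v x0 with hv0def
  have hu00 : 0 ≤ u0 := hu0 x0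
  have hv00 : 0 ≤ v0 := hv0 x0
  set C1 : ℝ := (∫ x, ‖f x‖ ∂μ) + 1 with hC1
  have hint0 : 0 ≤ ∫ x, ‖f x‖ ∂μ := integral_nonneg fun x => norm_nonneg _
  have hC10 : 0 < C1 := by rw [hC1]; linarith
  set G : ℂ → ℂ → ℂ := fun s t => LT μ f u v s t * Complex.exp (s * u0 + t * v0) with hG
  have hGnorm : ∀ s t, ‖G s t‖ = ‖LT μ f u v s t‖ * Real.exp (s.re * u0 + t.re * v0) := by
    intro s t
    simp only [hG]
    rw [norm_mul, Complex.norm_exp]
    congr 2
    simp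
  have hGb : ∀ r : ℝ, 0 ≤ r → ∀ s ∈ closedBall ((r * a : ℝ) : ℂ) (4 * r),
      ∀ t ∈ closedBall ((r * b : ℝ) : ℂ) (4 * r), ‖G s t‖ ≤ C1 * Real.exp (θ / 2 * (4 * r)) := by
    intro r hr s hs t ht
    have hx1 : |s.re - r * a| ≤ 4 * r := by
      have h1 : ‖s - ((r * a : ℝ) : ℂ)‖ ≤ 4 * r := by simpa [dist_eq_norm] using hs
      have h2 := (Complex.abs_re_le_norm _).trans h1
      rwa [Complex.sub_re, Complex.ofReal_re] at h2
    have hy1 : |t.re - r * b| ≤ 4 * r := by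
      have h1 : ‖t - ((r * b : ℝ) : ℂ)‖ ≤ 4 * r := by simpa [dist_eq_norm] using ht
      have h2 := (Complex.abs_re_le_norm _).trans h1
      rwa [Complex.sub_re, Complex.ofReal_re] at h2
    set x1 : ℝ := s.re - r * a with hx1d
    set y1 : ℝ := t.re - r * b with hy1d
    have hxa := abs_le.1 hx1
    have hya := abs_le.1 hy1
    have hLB : LB μ f u v s.re t.re (s.re * u0 + t.re * v0 - θ / 2 * (4 * r)) := by
      filter_upwards [L1, L2, L3, L4] with x h1 h2 h3 h4 hfx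
      have k1 := h1 hfx
      have k2 := h2 hfx
      have k3 := h3 hfx
      have k4 := h4 hfx
      set U : ℝ := u x - u0 with hU
      set V : ℝ := v x - v0 with hV
      have e1 : 0 ≤ ((a : ℝ) + 8) * U + b * V + 3 * θ / 2 := by rw [hU, hV]; linarith
      have e2 : 0 ≤ ((a : ℝ) - 8) * U + b * V + 3 * θ / 2 := by rw [hU, hV]; linarith
      have e3 : 0 ≤ a * U + ((b : ℝ) + 8) * V + 3 * θ / 2 := by rw [hU, hV]; linarith
      have e4 : 0 ≤ a * U + ((b : ℝ) - 8) * V + 3 * θ / 2 := by rw [hU, hV]; linarith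
      have w1 : 0 ≤ r / 2 + x1 / 8 := by linarith
      have w2 : 0 ≤ r / 2 - x1 / 8 := by linarith
      have w3 : 0 ≤ r / 2 + y1 / 8 := by linarith
      have w4 : 0 ≤ r / 2 - y1 / 8 := by linarith
      have m1 := mul_nonneg w1 e1
      have m2 := mul_nonneg w2 e2
      have m3 := mul_nonneg w3 e3
      have m4 := mul_nonneg w4 e4
      have hs1 : s.re = r * a + x1 := by rw [hx1d]; ring
      have ht1 : t.re = r * b + y1 := by rw [hy1d]; ring
      have hfin : 0 ≤ s.re * U + t.re * V + 3 * θ / 2 * r := by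
        have hkey : s.re * U + t.re * V + 3 * θ / 2 * r =
            ((r / 2 + x1 / 8) * (((a : ℝ) + 8) * U + b * V + 3 * θ / 2) +
            (r / 2 - x1 / 8) * (((a : ℝ) - 8) * U + b * V + 3 * θ / 2) +
            (r / 2 + y1 / 8) * (a * U + ((b : ℝ) + 8) * V + 3 * θ / 2) +
            (r / 2 - y1 / 8) * (a * U + ((b : ℝ) - 8) * V + 3 * θ / 2)) / 2 := by
          rw [hs1, ht1]; ring
        rw [hkey]; linarith
      have hθr : 0 ≤ θ * r := by positivity
      have h9 : s.re * U + t.re * V = (s.re * u x + t.re * v x) - (s.re * u0 + t.re * v0) := by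
        rw [hU, hV]; ring
      linarith
    have h5 := LT_norm_le hf s t _ hLB
    rw [hGnorm]
    calc ‖LT μ f u v s t‖ * Real.exp (s.re * u0 + t.re * v0)
        ≤ ((∫ x, ‖f x‖ ∂μ) * Real.exp (-(s.re * u0 + t.re * v0 - θ / 2 * (4 * r)))) *
            Real.exp (s.re * u0 + t.re * v0) :=
          mul_le_mul_of_nonneg_right h5 (Real.exp_pos _).le
      _ = (∫ x, ‖f x‖ ∂μ) * Real.exp (θ / 2 * (4 * r)) := by
          rw [mul_assoc, ← Real.exp_add]; congr 2; ring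
      _ ≤ C1 * Real.exp (θ / 2 * (4 * r)) :=
          mul_le_mul_of_nonneg_right (by rw [hC1]; linarith) (Real.exp_pos _).le
  -- smallness near `r (a, b)` for frequently many `r`
  have hfreq3 : ∃ᶠ r : ℝ in atTop, 0 < r ∧ ∀ s ∈ closedBall ((r * a : ℝ) : ℂ) (r / 2),
      ∀ t ∈ closedBall ((r * b : ℝ) : ℂ) (r / 2), ‖G s t‖ ≤ C1 * Real.exp (-θ * r) := by
    have htend : Tendsto (fun N : ℕ => (N : ℝ) / J) atTop atTop :=
      tendsto_natCast_atTop_atTop.atTop_div_const hJ0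
    refine htend.frequently ?_
    have hev : ∀ᶠ N : ℕ in atTop, R0 / 4 ≤ (N : ℝ) / J ∧ 0 < (N : ℝ) / J :=
      (htend.eventually_ge_atTop (R0 / 4)).and (htend.eventually_gt_atTop 0)
    refine (hfreq.and_eventually hev).mono ?_
    rintro N ⟨⟨Z', hZ'Ω, hZ'1, hZ'2⟩, hNR, hN0⟩
    set r : ℝ := (N : ℝ) / J with hr
    refine ⟨hN0, ?_⟩
    have h1 := hloc (4 * r) (by linarith) (r * a) (r * b) C1 hC10.le (by nlinarith) (by nlinarith) G
      (fun t ht => (LT_diffOn_left hf hu hv hu0 hv0 t ht).mul (by fun_prop))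
      (fun s hs => (LT_diffOn_right hf hu hv hu0 hv0 s hs).mul (by fun_prop))
      (hGb r hN0.le) Z' (fun p hp => by
        have h2 := hZ'1 p hp
        refine ⟨?_, ?_, ?_⟩
        · have : 4 * r / 8 = r / 2 := by ring
          rw [this]; exact h2.1
        · have : 4 * r / 8 = r / 2 := by ring
          rw [this]; exact h2.2
        · simp only [hG]
          rw [hz p (hZ'Ω p hp), zero_mul])
      (by
        refine le_trans (le_of_eq ?_) hZ'2
        ring)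
    intro s hs t ht
    have h3 : 4 * r / 8 = r / 2 := by ring
    rw [h3] at h1
    have h4 := h1 s hs t ht
    have h5 : -(θ / 4) * (4 * r) = -θ * r := by ring
    rwa [h5] at h4
  -- decay along lines
  have hab0 : (0 : ℝ) < a + b := by linarith
  set τ : ℝ := 1 / (4 * ((a : ℝ) + b)) with hτ
  have hτ0 : 0 < τ := by positivity
  have hτ1 : τ ≤ 1 := by
    rw [hτ, div_le_one (by positivity)]; linarith
  obtain ⟨κ1, hκ1, hdec⟩ := half_decay hτ0 hτ1 hθ
  have hline : ∀ α β : ℕ, 1 ≤ α → 1 ≤ β → ∀ n : ℕ,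
      ‖LT μ f u v (((a : ℝ) : ℂ) * n + (α : ℂ)) (((b : ℝ) : ℂ) * n + (β : ℂ))‖ ≤
        C1 * Real.exp (-(n * (κ0 + κ1))) := by
    intro α β hα hβ n
    have hα' : (1 : ℝ) ≤ α := by exact_mod_cast hα
    have hβ' : (1 : ℝ) ≤ β := by exact_mod_cast hβ
    set Gt : ℂ → ℂ := fun z => LT μ f u v (((a : ℝ) : ℂ) * z + (α : ℂ)) (((b : ℝ) : ℂ) * z + (β : ℂ)) *
      (Complex.exp ((κ0 : ℂ) * z) * ((C1⁻¹ : ℝ) : ℂ)) with hGt
    have hGtn : ∀ z : ℂ, ‖Gt z‖ = ‖LT μ f u v (((a : ℝ) : ℂ) * z + (α : ℂ))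
        (((b : ℝ) : ℂ) * z + (β : ℂ))‖ * (Real.exp (κ0 * z.re) * C1⁻¹) := by
      intro z
      simp only [hGt]
      rw [norm_mul, norm_mul, Complex.norm_exp, Complex.norm_real, Real.norm_eq_abs,
        abs_of_pos (inv_pos.2 hC10)]
      congr 3
      simp
    have hσ0 : 0 < 1 / ((a : ℝ) + b) := by positivity
    have hGtd : DifferentiableOn ℂ Gt {z | -(1 / ((a : ℝ) + b)) < z.re} := by
      intro z hz
      have hz' : -(1 / ((a : ℝ) + b)) < z.re := hz
      have h1 : -1 ≤ a * z.re := by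
        have : -(a / ((a : ℝ) + b)) ≤ a * z.re := by
          have := mul_le_mul_of_nonneg_left hz'.le (by linarith : (0:ℝ) ≤ a)
          calc -(a / ((a : ℝ) + b)) = a * -(1 / ((a : ℝ) + b)) := by ring
            _ ≤ a * z.re := this
        have h2 : a / ((a : ℝ) + b) ≤ 1 := by rw [div_le_one hab0]; linarith
        linarith
      have h1' : -1 < a * z.re := by
        have h3 := mul_lt_mul_of_pos_left hz' (by linarith : (0:ℝ) < a)
        have h2 : a / ((a : ℝ) + b) ≤ 1 := by rw [div_le_one hab0]; linarith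
        have h4 : a * -(1 / ((a : ℝ) + b)) = -(a / ((a : ℝ) + b)) := by ring
        linarith
      have h2' : -1 < b * z.re := by
        have h3 := mul_lt_mul_of_pos_left hz' (by linarith : (0:ℝ) < b)
        have h2 : b / ((a : ℝ) + b) ≤ 1 := by rw [div_le_one hab0]; linarith
        have h4 : b * -(1 / ((a : ℝ) + b)) = -(b / ((a : ℝ) + b)) := by ring
        linarith
      have h5 := LT_differentiableAt hf hu hv hu0 hv0 (p := a) (q := b) (by linarith) (by linarith)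
        (α : ℂ) (β : ℂ) z (by
          have : (((a : ℝ) : ℂ) * z + (α : ℂ)).re = a * z.re + α := by simp
          rw [this]; linarith) (by
          have : (((b : ℝ) : ℂ) * z + (β : ℂ)).re = b * z.re + β := by simp
          rw [this]; linarith)
      exact (h5.mul (by fun_prop)).differentiableWithinAt
    have hGtb : ∀ z : ℂ, 0 ≤ z.re → ‖Gt z‖ ≤ 1 := by
      intro z hz
      have hLB : LB μ f u v (((a : ℝ) : ℂ) * z + (α : ℂ)).re (((b : ℝ) : ℂ) * z + (β : ℂ)).re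
          (κ0 * z.re) := by
        have e1 : (((a : ℝ) : ℂ) * z + (α : ℂ)).re = a * z.re + α := by simp
        have e2 : (((b : ℝ) : ℂ) * z + (β : ℂ)).re = b * z.re + β := by simp
        rw [e1, e2]
        filter_upwards [L0] with x hx hfx
        have h1 := mul_le_mul_of_nonneg_right (hx hfx) hz
        have h2 : 0 ≤ (α : ℝ) * u x := mul_nonneg (by linarith) (hu0 x)
        have h3 : 0 ≤ (β : ℝ) * v x := mul_nonneg (by linarith) (hv0 x)
        nlinarith
      have h1 := LT_norm_le hf _ _ _ hLB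
      rw [hGtn]
      calc ‖LT μ f u v (((a : ℝ) : ℂ) * z + (α : ℂ)) (((b : ℝ) : ℂ) * z + (β : ℂ))‖ *
            (Real.exp (κ0 * z.re) * C1⁻¹)
          ≤ (∫ x, ‖f x‖ ∂μ) * Real.exp (-(κ0 * z.re)) * (Real.exp (κ0 * z.re) * C1⁻¹) :=
            mul_le_mul_of_nonneg_right h1 (by positivity)
        _ = (∫ x, ‖f x‖ ∂μ) * C1⁻¹ * (Real.exp (-(κ0 * z.re)) * Real.exp (κ0 * z.re)) := by ring
        _ = (∫ x, ‖f x‖ ∂μ) * C1⁻¹ := by rw [← Real.exp_add]; simp
        _ ≤ 1 := by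
            rw [← div_eq_mul_inv, div_le_one hC10, hC1]; linarith
    have hGtf : ∃ᶠ r : ℝ in atTop, ∀ x ∈ Set.Icc r ((1 + τ) * r), ‖Gt x‖ ≤ Real.exp (-θ * r) := by
      refine (hfreq3.and_eventually (eventually_ge_atTop (4 * ((α : ℝ) + β)))).mono ?_
      rintro r ⟨⟨hr0, hr⟩, hrα⟩ x ⟨hx1, hx2⟩
      have hx0' : 0 ≤ x := by linarith
      have hmem : ∀ (c : ℝ) (γ : ℕ), 0 ≤ c → c ≤ a + b → 4 * (γ : ℝ) ≤ r →
          ((c : ℝ) : ℂ) * ((x : ℝ) : ℂ) + (γ : ℂ) ∈ closedBall ((r * c : ℝ) : ℂ) (r / 2) := by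
        intro c γ hc0 hcab hγ
        rw [mem_closedBall, dist_eq_norm]
        have e1 : ((c : ℝ) : ℂ) * ((x : ℝ) : ℂ) + (γ : ℂ) - ((r * c : ℝ) : ℂ) =
            ((c * (x - r) + γ : ℝ) : ℂ) := by push_cast; ring
        rw [e1, Complex.norm_real, Real.norm_eq_abs]
        have e2 : 0 ≤ c * (x - r) + γ := by
          have := mul_nonneg hc0 (by linarith : 0 ≤ x - r)
          positivity
        rw [abs_of_nonneg e2]
        have e3 : x - r ≤ τ * r := by linarith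
        have e4 : c * (x - r) ≤ (a + b) * (τ * r) :=
          mul_le_mul hcab e3 (by linarith) (by linarith)
        have e5 : ((a : ℝ) + b) * (τ * r) = r / 4 := by rw [hτ]; field_simp
        linarith
      have hα4 : 4 * (α : ℝ) ≤ r := by linarith
      have hβ4 : 4 * (β : ℝ) ≤ r := by linarith
      have h1 := hr _ (hmem a α (by linarith) (by linarith) hα4) _
        (hmem b β (by linarith) (by linarith) hβ4)
      rw [hGnorm] at h1
      have e1 : (((a : ℝ) : ℂ) * ((x : ℝ) : ℂ) + (α : ℂ)).re = a * x + α := by simp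
      have e2 : (((b : ℝ) : ℂ) * ((x : ℝ) : ℂ) + (β : ℂ)).re = b * x + β := by simp
      rw [e1, e2] at h1
      rw [hGtn]
      have h2 : κ0 * x ≤ (a * x + α) * u0 + (b * x + β) * v0 := by
        have h3 := mul_le_mul_of_nonneg_right hx00 hx0'
        have h4 : 0 ≤ (α : ℝ) * u0 := mul_nonneg (by linarith) hu00
        have h5 : 0 ≤ (β : ℝ) * v0 := mul_nonneg (by linarith) hv00
        nlinarith
      have h6 : Real.exp (κ0 * ((x : ℝ) : ℂ).re) ≤
          Real.exp ((a * x + α) * u0 + (b * x + β) * v0) := by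
        rw [Complex.ofReal_re]; exact Real.exp_le_exp.2 h2
      calc ‖LT μ f u v (((a : ℝ) : ℂ) * ((x : ℝ) : ℂ) + (α : ℂ))
              (((b : ℝ) : ℂ) * ((x : ℝ) : ℂ) + (β : ℂ))‖ *
            (Real.exp (κ0 * ((x : ℝ) : ℂ).re) * C1⁻¹)
          ≤ ‖LT μ f u v (((a : ℝ) : ℂ) * ((x : ℝ) : ℂ) + (α : ℂ))
              (((b : ℝ) : ℂ) * ((x : ℝ) : ℂ) + (β : ℂ))‖ *
            (Real.exp ((a * x + α) * u0 + (b * x + β) * v0) * C1⁻¹) := by
            refine mul_le_mul_of_nonneg_left ?_ (norm_nonneg _)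
            exact mul_le_mul_of_nonneg_right h6 (inv_pos.2 hC10).le
        _ = ‖LT μ f u v (((a : ℝ) : ℂ) * ((x : ℝ) : ℂ) + (α : ℂ))
              (((b : ℝ) : ℂ) * ((x : ℝ) : ℂ) + (β : ℂ))‖ *
            Real.exp ((a * x + α) * u0 + (b * x + β) * v0) * C1⁻¹ := by ring
        _ ≤ C1 * Real.exp (-θ * r) * C1⁻¹ :=
            mul_le_mul_of_nonneg_right h1 (inv_pos.2 hC10).le
        _ = Real.exp (-θ * r) := by field_simp
    have h7 := hdec _ hσ0 Gt hGtd hGtb hGtf n (Nat.cast_nonneg n)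
    rw [hGtn] at h7
    have h8 : (((n : ℝ) : ℂ)) = (n : ℂ) := by push_cast; rfl
    rw [h8] at h7
    have h9 : ((n : ℂ)).re = n := by simp
    rw [h9] at h7
    have h10 : ‖LT μ f u v (((a : ℝ) : ℂ) * n + (α : ℂ)) (((b : ℝ) : ℂ) * n + (β : ℂ))‖ ≤
        Real.exp (-κ1 * n) * (C1 * Real.exp (-(κ0 * n))) := by
      have h11 : ‖LT μ f u v (((a : ℝ) : ℂ) * n + (α : ℂ)) (((b : ℝ) : ℂ) * n + (β : ℂ))‖ =
          (‖LT μ f u v (((a : ℝ) : ℂ) * n + (α : ℂ)) (((b : ℝ) : ℂ) * n + (β : ℂ))‖ *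
            (Real.exp (κ0 * n) * C1⁻¹)) * (C1 * Real.exp (-(κ0 * n))) := by
        rw [Real.exp_neg]; field_simp
      rw [h11]
      exact mul_le_mul_of_nonneg_right h7 (by positivity)
    refine h10.trans (le_of_eq ?_)
    rw [mul_left_comm, ← Real.exp_add]; congr 2; ring
  -- choose a level
  set w : X → ℝ := fun x => a * u x + b * v x with hw
  have hwm : Measurable w := (measurable_const.mul hu).add (measurable_const.mul hv)
  have hw0 : ∀ x, 0 ≤ w x := fun x =>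
    add_nonneg (mul_nonneg (by linarith) (hu0 x)) (mul_nonneg (by linarith) (hv0 x))
  have hcount : Set.Countable {t : ℝ | 0 < μ {x | w x = t}} :=
    Measure.countable_meas_level_set_pos hwm
  obtain ⟨c, hcS, hc⟩ := (hcount.dense_compl ℝ).exists_between (show κ0 < κ0 + κ1 by linarith)
  have hnull : μ {x | w x = c} = 0 := by
    have : ¬ (0 < μ {x | w x = c}) := hcS
    exact le_antisymm (not_lt.1 this) (zero_le)
  have hmeas : MeasurableSet {x | w x < c} := measurableSet_lt hwm measurable_const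
  have hzero := hdet ({x | w x < c}.indicator f) (hf.indicator hmeas) (by
    intro α β hα hβ
    set h : X → ℂ := fun x => f x * Complex.exp (-((α : ℂ) * u x + (β : ℂ) * v x)) with hh
    have hhi : Integrable h μ := by
      refine hf.norm.mono' (LT_measurable hf.aestronglyMeasurable hu hv _ _) ?_
      refine Filter.Eventually.of_forall fun x => ?_
      rw [LT_integrand_norm]
      refine mul_le_of_le_one_right (norm_nonneg _) (Real.exp_le_one_iff.2 ?_)
      have h1 : (0 : ℝ) ≤ (α : ℂ).re * u x := mul_nonneg (by simp) (hu0 x)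
      have h2 : (0 : ℝ) ≤ (β : ℂ).re * v x := mul_nonneg (by simp) (hv0 x)
      linarith
    have hmik := mikusinski (μ := μ) h hhi w hwm hw0 (M := C1) (c1 := κ0 + κ1) (by
      intro n hn
      have e1 : ∫ x, h x * ((Real.exp (-(n * w x)) : ℝ) : ℂ) ∂μ =
          LT μ f u v (((a : ℝ) : ℂ) * n + (α : ℂ)) (((b : ℝ) : ℂ) * n + (β : ℂ)) := by
        unfold LT
        refine integral_congr_ae (Filter.Eventually.of_forall fun x => ?_)
        simp only [hh, hw]
        rw [mul_assoc, Complex.ofReal_exp, ← Complex.exp_add]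
        congr 2
        push_cast; ring
      rw [e1]
      exact hline α β hα hβ n) (c := c) hc.2 hnull
    have e2 : ∀ x, ({x | w x < c}.indicator f) x *
        Complex.exp (-((α : ℂ) * u x + (β : ℂ) * v x)) = ({x | w x < c}.indicator h) x := by
      intro x
      by_cases hx : x ∈ {x | w x < c}
      · rw [Set.indicator_of_mem hx, Set.indicator_of_mem hx]
      · rw [Set.indicator_of_notMem hx, Set.indicator_of_notMem hx, zero_mul]
    rw [integral_congr_ae (Filter.Eventually.of_forall e2), integral_indicator hmeas]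
    exact hmik)
  have hLB : LB μ f u v a b c := by
    filter_upwards [hzero] with x hx hfx
    by_contra hlt
    rw [not_le] at hlt
    have hmem : x ∈ {x | w x < c} := hlt
    rw [Set.indicator_of_mem hmem] at hx
    exact hfx hx
  have := le_kap hu0 hv0 hne (by linarith) (by linarith) hLB
  linarith [hc.1]

end Pool.Agent.H58.Muntz
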