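import Mathlib
import Pool.Agent.H58.Muntz.Main

/-!
# Application to the unit square
-/

set_option autoImplicit false

namespace Pool.Agent.H58.Muntz

open MeasureTheory Set Filter Topology

/-- The closed unit square. -/
def sq : Set (ℝ × ℝ) := Set.Icc 0 1 ×ˢ Set.Icc 0 1

/-- Lebesgue measure on the unit square. -/
noncomputable def muQ : Measure (ℝ × ℝ) := volume.restrict sq

/-- The monomial `x^m y^n`. -/
def monom (p : ℕ × ℕ) (z : ℝ × ℝ) : ℝ := z.1 ^ p.1 * z.2 ^ p.2

theorem sq_compact : IsCompact sq := isCompact_Icc.prod isCompact_Icc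

theorem sq_meas : MeasurableSet sq := sq_compact.measurableSet

instance : IsFiniteMeasure muQ := by
  unfold muQ
  exact isFiniteMeasure_restrict.2 sq_compact.measure_lt_top.ne

theorem monom_continuous (p : ℕ × ℕ) : Continuous (monom p) := by
  unfold monom; fun_prop

theorem monom_bound (p : ℕ × ℕ) (z : ℝ × ℝ) (hz : z ∈ sq) : |monom p z| ≤ 1 := by
  obtain ⟨⟨h1, h2⟩, h3, h4⟩ := hz
  unfold monom
  rw [abs_of_nonneg (by positivity)]
  exact mul_le_one₀ (pow_le_one₀ h1 h2) (by positivity) (pow_le_one₀ h3 h4)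

theorem sw_poly (φ : ℝ × ℝ → ℝ) (hφ : ContinuousOn φ sq) (ε : ℝ) (hε : 0 < ε) :
    ∃ c : (ℕ × ℕ) →₀ ℝ, ∀ z ∈ sq, |φ z - c.sum (fun p a => a * monom p z)| < ε := by
  classical
  haveI : CompactSpace sq := isCompact_iff_compactSpace.1 sq_compact
  let F : C(sq, ℝ) := ⟨fun z => z.1.1, by fun_prop⟩
  let S : C(sq, ℝ) := ⟨fun z => z.1.2, by fun_prop⟩
  let A : Subalgebra ℝ C(sq, ℝ) := Algebra.adjoin ℝ {F, S}
  have hFA : F ∈ A := Algebra.subset_adjoin (by simp)
  have hSA : S ∈ A := Algebra.subset_adjoin (by simp)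
  have hsep : A.SeparatesPoints := by
    intro x y hxy
    by_cases h : x.1.1 = y.1.1
    · have h2 : x.1.2 ≠ y.1.2 := by
        intro h2
        exact hxy (Subtype.ext (Prod.ext h h2))
      exact ⟨S, ⟨S, hSA, rfl⟩, h2⟩
    · exact ⟨F, ⟨F, hFA, rfl⟩, h⟩
  obtain ⟨g, hg⟩ := ContinuousMap.exists_mem_subalgebra_near_continuousMap_of_separatesPoints A hsep
    ⟨fun z => φ z.1, hφ.restrict⟩ ε hε
  have hgspan : (g : C(sq, ℝ)) ∈ Submodule.span ℝ (Set.range fun p : ℕ × ℕ => F ^ p.1 * S ^ p.2) := by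
    have h1 : (g : C(sq, ℝ)) ∈ Subalgebra.toSubmodule A := g.2
    have h2 : Subalgebra.toSubmodule A = _ := Algebra.adjoin_eq_span (R := ℝ) (s := {F, S})
    rw [h2] at h1
    refine Submodule.span_mono ?_ h1
    intro x hx
    have hx' : x ∈ Submonoid.closure ({F, S} : Set C(sq, ℝ)) := hx
    induction hx' using Submonoid.closure_induction with
    | mem y hy =>
      rcases hy with rfl | hy
      · exact ⟨(1, 0), by simp⟩
      · rw [Set.mem_singleton_iff] at hy
        subst hy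
        exact ⟨(0, 1), by simp⟩
    | one => exact ⟨(0, 0), by simp⟩
    | mul y w hy hw ihy ihw =>
      obtain ⟨p, rfl⟩ := ihy hy
      obtain ⟨q, rfl⟩ := ihw hw
      exact ⟨(p.1 + q.1, p.2 + q.2), by simp only [pow_add]; ring⟩
  obtain ⟨c, hc⟩ := Finsupp.mem_span_range_iff_exists_finsupp.1 hgspan
  refine ⟨c, fun z hz => ?_⟩
  have h3 := (ContinuousMap.norm_lt_iff _ hε).1 hg ⟨z, hz⟩
  rw [ContinuousMap.sub_apply, Real.norm_eq_abs, abs_sub_comm] at h3
  have h4 : (g : C(sq, ℝ)) ⟨z, hz⟩ = c.sum (fun p a => a * monom p z) := by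
    rw [← hc, Finsupp.sum, ContinuousMap.coe_sum, Finset.sum_apply, Finsupp.sum]
    refine Finset.sum_congr rfl fun p _ => ?_
    simp [monom, F, S]
  rw [h4] at h3
  exact h3

/-- A function on the square all of whose moments vanish is zero. -/
theorem moments_zero (h : ℝ × ℝ → ℂ) (hh : Integrable h muQ)
    (hm : ∀ i j : ℕ, ∫ z, h z * (monom (i, j) z : ℝ) ∂muQ = 0) : h =ᵐ[muQ] 0 := by
  have key : ∀ φ : ℝ × ℝ → ℝ, Continuous φ → ∫ z, h z * (φ z : ℝ) ∂muQ = 0 := by
    intro φ hφ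
    by_contra hne
    have hpos : 0 < ‖∫ z, h z * (φ z : ℝ) ∂muQ‖ := norm_pos_iff.2 hne
    have hI0 : 0 ≤ ∫ z, ‖h z‖ ∂muQ := integral_nonneg fun z => norm_nonneg _
    obtain ⟨c, hc⟩ := sw_poly φ hφ.continuousOn
      (‖∫ z, h z * (φ z : ℝ) ∂muQ‖ / (2 * ((∫ z, ‖h z‖ ∂muQ) + 1))) (by positivity)
    have hsq : ∀ᵐ z ∂muQ, z ∈ sq := ae_restrict_mem sq_meas
    have hsumint : ∀ p : ℕ × ℕ, Integrable (fun z => h z * ((monom p z : ℝ) : ℂ)) muQ := by
      intro p
      refine hh.mul_bdd (c := 1) ?_ ?_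
      · exact (Complex.continuous_ofReal.comp (monom_continuous p)).aestronglyMeasurable
      · filter_upwards [hsq] with z hz
        rw [Complex.norm_real]; exact monom_bound p z hz
    have hsum0 : ∫ z, h z * ((c.sum (fun p a => a * monom p z) : ℝ) : ℂ) ∂muQ = 0 := by
      have e1 : ∀ z, h z * ((c.sum (fun p a => a * monom p z) : ℝ) : ℂ) =
          ∑ p ∈ c.support, (c p : ℂ) * (h z * ((monom p z : ℝ) : ℂ)) := by
        intro z
        rw [Finsupp.sum, Complex.ofReal_sum, Finset.mul_sum]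
        refine Finset.sum_congr rfl fun p _ => ?_
        push_cast; ring
      rw [integral_congr_ae (Filter.Eventually.of_forall e1),
        integral_finset_sum _ fun p _ => (hsumint p).const_mul _]
      refine Finset.sum_eq_zero fun p _ => ?_
      rw [integral_const_mul, hm p.1 p.2, mul_zero]
    have hφint : Integrable (fun z => h z * ((φ z : ℝ) : ℂ)) muQ := by
      obtain ⟨M, hM⟩ := sq_compact.exists_bound_of_continuousOn hφ.continuousOn
      refine hh.mul_bdd (c := M) ?_ ?_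
      · exact (Complex.continuous_ofReal.comp hφ).aestronglyMeasurable
      · filter_upwards [hsq] with z hz
        rw [Complex.norm_real]; exact hM z hz
    have hpint : Integrable (fun z => h z * ((c.sum (fun p a => a * monom p z) : ℝ) : ℂ)) muQ := by
      have e1 : (fun z => h z * ((c.sum (fun p a => a * monom p z) : ℝ) : ℂ)) =
          fun z => ∑ p ∈ c.support, (c p : ℂ) * (h z * ((monom p z : ℝ) : ℂ)) := by
        funext z
        rw [Finsupp.sum, Complex.ofReal_sum, Finset.mul_sum]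
        refine Finset.sum_congr rfl fun p _ => ?_
        push_cast; ring
      rw [e1]
      exact integrable_finset_sum _ fun p _ => (hsumint p).const_mul _
    have h5 : ∫ z, h z * (φ z : ℝ) ∂muQ =
        ∫ z, h z * ((φ z - c.sum (fun p a => a * monom p z) : ℝ) : ℂ) ∂muQ := by
      have : ∫ z, h z * ((φ z - c.sum (fun p a => a * monom p z) : ℝ) : ℂ) ∂muQ =
          ∫ z, h z * (φ z : ℝ) ∂muQ -
            ∫ z, h z * ((c.sum (fun p a => a * monom p z) : ℝ) : ℂ) ∂muQ := by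
        rw [← integral_sub hφint hpint]
        refine integral_congr_ae (Filter.Eventually.of_forall fun z => ?_)
        push_cast; ring
      rw [this, hsum0, sub_zero]
    have h6 : ‖∫ z, h z * (φ z : ℝ) ∂muQ‖ ≤ (∫ z, ‖h z‖ ∂muQ) *
        (‖∫ z, h z * (φ z : ℝ) ∂muQ‖ / (2 * ((∫ z, ‖h z‖ ∂muQ) + 1))) := by
      conv_lhs => rw [h5]
      rw [← integral_mul_const]
      refine norm_integral_le_of_norm_le (hh.norm.mul_const _) ?_
      filter_upwards [hsq] with z hz
      rw [norm_mul, Complex.norm_real]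
      exact mul_le_mul_of_nonneg_left (hc z hz).le (norm_nonneg _)
    set I := ∫ z, ‖h z‖ ∂muQ with hI
    set T := ‖∫ z, h z * (φ z : ℝ) ∂muQ‖ with hT
    have h7 : I * (T / (2 * (I + 1))) ≤ T / 2 := by
      have : I * (T / (2 * (I + 1))) = (I / (I + 1)) * (T / 2) := by field_simp
      rw [this]
      refine mul_le_of_le_one_left (by positivity) ?_
      rw [div_le_one (by positivity)]; linarith
    linarith
  have h8 := ae_eq_zero_of_integral_contDiff_smul_eq_zero (μ := muQ) (f := h) (E := ℝ × ℝ)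
    hh.locallyIntegrable (by
      intro g hg _
      have := key g hg.continuous
      rw [← this]
      refine integral_congr_ae (Filter.Eventually.of_forall fun z => ?_)
      show g z • h z = h z * ((g z : ℝ) : ℂ)
      rw [Complex.real_smul, mul_comm])
  exact h8

theorem sq_pos_ae : ∀ᵐ z ∂muQ, z ∈ sq ∧ 0 < z.1 ∧ 0 < z.2 := by
  have h1 : ∀ᵐ z ∂muQ, z ∈ sq := ae_restrict_mem sq_meas
  have h2 : ∀ᵐ z : ℝ × ℝ ∂muQ, z.1 ≠ 0 := by
    refine ae_restrict_of_ae ?_
    rw [ae_iff]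
    have : {z : ℝ × ℝ | ¬ z.1 ≠ 0} = ({0} : Set ℝ) ×ˢ (Set.univ : Set ℝ) := by
      ext z; simp
    rw [this, Measure.volume_eq_prod, Measure.prod_prod]
    simp
  have h3 : ∀ᵐ z : ℝ × ℝ ∂muQ, z.2 ≠ 0 := by
    refine ae_restrict_of_ae ?_
    rw [ae_iff]
    have : {z : ℝ × ℝ | ¬ z.2 ≠ 0} = (Set.univ : Set ℝ) ×ˢ ({0} : Set ℝ) := by
      ext z; simp
    rw [this, Measure.volume_eq_prod, Measure.prod_prod]
    simp
  filter_upwards [h1, h2, h3] with z hz h2 h3
  exact ⟨hz, lt_of_le_of_ne hz.1.1 (Ne.symm h2), lt_of_le_of_ne hz.2.1 (Ne.symm h3)⟩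

theorem exp_eq_monom (m n : ℕ) (z : ℝ × ℝ) (hz : z ∈ sq) (h1 : 0 < z.1) (h2 : 0 < z.2) :
    Complex.exp (-((m : ℂ) * ((|Real.log z.1| : ℝ) : ℂ) + (n : ℂ) * ((|Real.log z.2| : ℝ) : ℂ))) =
      ((monom (m, n) z : ℝ) : ℂ) := by
  have e1 : |Real.log z.1| = -Real.log z.1 := abs_of_nonpos (Real.log_nonpos h1.le hz.1.2)
  have e2 : |Real.log z.2| = -Real.log z.2 := abs_of_nonpos (Real.log_nonpos h2.le hz.2.2)
  rw [e1, e2]
  have e3 : (-((m : ℂ) * ((-Real.log z.1 : ℝ) : ℂ) + (n : ℂ) * ((-Real.log z.2 : ℝ) : ℂ))) =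
      ((m * Real.log z.1 + n * Real.log z.2 : ℝ) : ℂ) := by push_cast; ring
  rw [e3, ← Complex.ofReal_exp, Real.exp_add, Real.exp_nat_mul, Real.exp_nat_mul,
    Real.exp_log h1, Real.exp_log h2]
  rfl

/-- Uniqueness theorem on the square: a function whose moments vanish on a set of exponents of
positive upper density is zero. -/
theorem moment_uniqueness (f : ℝ × ℝ → ℂ) (hf : Integrable f muQ) (Ω : Set (ℕ × ℕ)) (δ : ℝ)
    (hδ : 0 < δ)
    (hΩ : ∃ᶠ N : ℕ in atTop, ∃ Z : Finset (ℕ × ℕ), (∀ p ∈ Z, p ∈ Ω ∧ p.1 ≤ N ∧ p.2 ≤ N) ∧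
      δ * (N : ℝ) ^ 2 ≤ Z.card)
    (hz : ∀ p ∈ Ω, ∫ z, f z * ((monom p z : ℝ) : ℂ) ∂muQ = 0) : f =ᵐ[muQ] 0 := by
  refine main_abstract f hf (fun z => |Real.log z.1|) (fun z => |Real.log z.2|) (by fun_prop)
    (by fun_prop) (fun _ => abs_nonneg _) (fun _ => abs_nonneg _) ?_ Ω δ hδ hΩ ?_
  · intro g hg hg0
    have hmon : ∀ i j : ℕ, 1 ≤ i → 1 ≤ j → ∫ z, g z * ((monom (i, j) z : ℝ) : ℂ) ∂muQ = 0 := by
      intro i j hi hj
      rw [← hg0 i j hi hj]
      refine integral_congr_ae ?_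
      filter_upwards [sq_pos_ae] with z hz
      rw [exp_eq_monom i j z hz.1 hz.2.1 hz.2.2]
    have hint : Integrable (fun z => g z * ((monom (1, 1) z : ℝ) : ℂ)) muQ := by
      refine hg.mul_bdd (c := 1) ?_ ?_
      · exact (Complex.continuous_ofReal.comp (monom_continuous _)).aestronglyMeasurable
      · filter_upwards [sq_pos_ae] with z hz
        rw [Complex.norm_real]; exact monom_bound _ z hz.1
    have h1 := moments_zero _ hint (by
      intro i j
      rw [← hmon (i + 1) (j + 1) (by omega) (by omega)]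
      refine integral_congr_ae (Filter.Eventually.of_forall fun z => ?_)
      simp only [monom]
      push_cast; ring)
    filter_upwards [h1, sq_pos_ae] with z hz1 hz2
    have h2 : ((monom (1, 1) z : ℝ) : ℂ) ≠ 0 := by
      have : monom (1, 1) z ≠ 0 := by
        simp only [monom, pow_one]
        exact mul_ne_zero hz2.2.1.ne' hz2.2.2.ne'
      exact_mod_cast this
    exact (mul_eq_zero.1 hz1).resolve_right h2
  · intro p hp
    rw [← hz p hp]
    unfold LT
    refine integral_congr_ae ?_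
    filter_upwards [sq_pos_ae] with z hz
    rw [exp_eq_monom p.1 p.2 z hz.1 hz.2.1 hz.2.2]

end Pool.Agent.H58.Muntz
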