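import Mathlib
import Pool.Agent.H58.Muntz.Square

/-!
# Density in `L²(Q)`
-/

set_option autoImplicit false

namespace Pool.Agent.H58.Muntz

open MeasureTheory Set Filter Topology

section L2

variable {𝕜 : Type} [RCLike 𝕜]

theorem monom_memLp (p : ℕ × ℕ) :
    MemLp (fun z => ((monom p z : ℝ) : 𝕜)) 2 muQ := by
  refine MemLp.of_bound (C := 1) ?_ ?_
  · exact (RCLike.continuous_ofReal.comp (monom_continuous p)).aestronglyMeasurable
  · filter_upwards [sq_pos_ae] with z hz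
    rw [RCLike.norm_ofReal]
    exact monom_bound p z hz.1

/-- The monomial as an element of `L²(Q)`. -/
noncomputable def monomLp (p : ℕ × ℕ) : Lp 𝕜 2 muQ := (monom_memLp (𝕜 := 𝕜) p).toLp _

theorem linComb_coe (c : (ℕ × ℕ) →₀ 𝕜) :
    (Finsupp.linearCombination 𝕜 (monomLp (𝕜 := 𝕜)) c : ℝ × ℝ → 𝕜) =ᵐ[muQ]
      fun z => c.sum (fun p a => a * ((monom p z : ℝ) : 𝕜)) := by
  induction c using Finsupp.induction_linear with
  | zero =>
    simp only [map_zero, Finsupp.sum_zero_index]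
    exact Lp.coeFn_zero _ _ _
  | add c d hc hd =>
    rw [map_add]
    filter_upwards [Lp.coeFn_add (Finsupp.linearCombination 𝕜 (monomLp (𝕜 := 𝕜)) c)
      (Finsupp.linearCombination 𝕜 (monomLp (𝕜 := 𝕜)) d), hc, hd] with z h1 h2 h3
    rw [h1, Pi.add_apply, h2, h3, Finsupp.sum_add_index' (by simp) (by intros; ring)]
  | single p a =>
    rw [Finsupp.linearCombination_single]
    filter_upwards [Lp.coeFn_smul a (monomLp (𝕜 := 𝕜) p),
      (monom_memLp (𝕜 := 𝕜) p).coeFn_toLp] with z h1 h2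
    rw [h1, Pi.smul_apply, monomLp, h2, Finsupp.sum_single_index (by simp), smul_eq_mul]

/-- The inclusion of `𝕜` into `ℂ`, as a real linear map. -/
noncomputable def toC : 𝕜 →L[ℝ] ℂ :=
  Complex.ofRealCLM.comp RCLike.reCLM + Complex.I • Complex.ofRealCLM.comp RCLike.imCLM

theorem toC_apply (a : 𝕜) : toC a = ((RCLike.re a : ℝ) : ℂ) + Complex.I * ((RCLike.im a : ℝ) : ℂ) := by
  simp [toC]

theorem toC_mul (a : 𝕜) (t : ℝ) : toC (a * (t : 𝕜)) = toC a * (t : ℂ) := by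
  rw [toC_apply, toC_apply]
  have h1 : RCLike.re (a * (t : 𝕜)) = RCLike.re a * t := by simp
  have h2 : RCLike.im (a * (t : 𝕜)) = RCLike.im a * t := by simp
  rw [h1, h2]
  push_cast; ring

theorem toC_eq_zero (a : 𝕜) (h : toC a = 0) : a = 0 := by
  rw [toC_apply] at h
  have h1 := congrArg Complex.re h
  have h2 := congrArg Complex.im h
  simp at h1 h2
  refine RCLike.ext ?_ ?_
  · simpa using h1
  · simpa using h2

theorem l2_closure (Ω : Set (ℕ × ℕ)) (δ : ℝ) (hδ : 0 < δ)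
    (hΩ : ∃ᶠ N : ℕ in atTop, ∃ Z : Finset (ℕ × ℕ), (∀ p ∈ Z, p ∈ Ω ∧ p.1 ≤ N ∧ p.2 ≤ N) ∧
      δ * (N : ℝ) ^ 2 ≤ Z.card) :
    (Submodule.span 𝕜 (monomLp (𝕜 := 𝕜) '' Ω)).topologicalClosure = ⊤ := by
  rw [Submodule.topologicalClosure_eq_top_iff, Submodule.eq_bot_iff]
  intro g hg
  have h2 : MemLp (g : ℝ × ℝ → 𝕜) 2 muQ := Lp.memLp g
  have h1 : Integrable (g : ℝ × ℝ → 𝕜) muQ := h2.integrable (by norm_num)
  have hm : ∀ p ∈ Ω, ∫ z, g z * ((monom p z : ℝ) : 𝕜) ∂muQ = 0 := by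
    intro p hp
    have h3 : inner 𝕜 (monomLp (𝕜 := 𝕜) p) g = 0 :=
      (Submodule.mem_orthogonal _ _).1 hg _ (Submodule.subset_span ⟨p, hp, rfl⟩)
    rw [L2.inner_def] at h3
    rw [← h3]
    refine integral_congr_ae ?_
    filter_upwards [(monom_memLp (𝕜 := 𝕜) p).coeFn_toLp] with z hz
    rw [monomLp, hz]
    simp
  have h4 : (fun z => toC (g z)) =ᵐ[muQ] 0 := by
    refine moment_uniqueness _ (toC.integrable_comp h1) Ω δ hδ hΩ ?_
    intro p hp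
    have h5 : Integrable (fun z => g z * ((monom p z : ℝ) : 𝕜)) muQ := by
      refine h1.mul_bdd (c := 1) ?_ ?_
      · exact (RCLike.continuous_ofReal.comp (monom_continuous _)).aestronglyMeasurable
      · filter_upwards [sq_pos_ae] with z hz
        rw [RCLike.norm_ofReal]; exact monom_bound _ z hz.1
    have h6 := (toC (𝕜 := 𝕜)).integral_comp_comm h5
    rw [hm p hp, map_zero] at h6
    rw [← h6]
    refine integral_congr_ae (Filter.Eventually.of_forall fun z => ?_)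
    exact (toC_mul _ _).symm
  rw [Lp.eq_zero_iff_ae_eq_zero]
  filter_upwards [h4] with z hz
  exact toC_eq_zero _ hz

theorem l2_dense (Ω : Set (ℕ × ℕ)) (δ : ℝ) (hδ : 0 < δ)
    (hΩ : ∃ᶠ N : ℕ in atTop, ∃ Z : Finset (ℕ × ℕ), (∀ p ∈ Z, p ∈ Ω ∧ p.1 ≤ N ∧ p.2 ≤ N) ∧
      δ * (N : ℝ) ^ 2 ≤ Z.card)
    (f : ℝ × ℝ → 𝕜) (hf : MemLp f 2 muQ) (ε : ℝ) (hε : 0 < ε) :
    ∃ c : (ℕ × ℕ) →₀ 𝕜, (∀ p ∈ c.support, p ∈ Ω) ∧
      eLpNorm (fun z => f z - c.sum (fun p a => a * ((monom p z : ℝ) : 𝕜))) 2 muQ <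
        ENNReal.ofReal ε := by
  have h1 : hf.toLp f ∈ (Submodule.span 𝕜 (monomLp (𝕜 := 𝕜) '' Ω)).topologicalClosure := by
    rw [l2_closure Ω δ hδ hΩ]; trivial
  have h2 : hf.toLp f ∈ closure (Submodule.span 𝕜 (monomLp (𝕜 := 𝕜) '' Ω) : Set (Lp 𝕜 2 muQ)) := h1
  obtain ⟨v, hv, hd⟩ := Metric.mem_closure_iff.1 h2 ε hε
  obtain ⟨c, hc, rfl⟩ := (Finsupp.mem_span_image_iff_linearCombination 𝕜).1 hv
  refine ⟨c, fun p hp => ?_, ?_⟩
  · exact (Finsupp.mem_supported _ _).1 hc hp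
  · rw [dist_eq_norm, Lp.norm_def] at hd
    have h3 : eLpNorm (fun z => f z - c.sum (fun p a => a * ((monom p z : ℝ) : 𝕜))) 2 muQ =
        eLpNorm (hf.toLp f - Finsupp.linearCombination 𝕜 (monomLp (𝕜 := 𝕜)) c : Lp 𝕜 2 muQ) 2 muQ := by
      refine eLpNorm_congr_ae ?_
      filter_upwards [Lp.coeFn_sub (hf.toLp f) (Finsupp.linearCombination 𝕜 (monomLp (𝕜 := 𝕜)) c),
        linComb_coe c, hf.coeFn_toLp] with z h1 h2 h3
      rw [h1, Pi.sub_apply, h2, h3]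
    rw [h3]
    exact (ENNReal.lt_ofReal_iff_toReal_lt (Lp.eLpNorm_ne_top _)).2 hd

end L2

end Pool.Agent.H58.Muntz
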