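import Mathlib
import Pool.Agent.H58.Muntz.Dense

/-!
# Density in `C_0(Q)`
-/

set_option autoImplicit false

namespace Pool.Agent.H58.Muntz

open MeasureTheory Set Filter Topology

theorem integral_mono_pow (n : ℕ) (x : ℝ) (hx : 0 ≤ x) :
    ∫ u in Set.Icc 0 x, u ^ n = x ^ (n + 1) / ((n : ℝ) + 1) := by
  rw [integral_Icc_eq_integral_Ioc, ← intervalIntegral.integral_of_le hx, integral_pow]
  simp

theorem integral_der_pow (n : ℕ) (x : ℝ) (hx : 0 ≤ x) :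
    ∫ u in Set.Icc 0 x, (n : ℝ) * u ^ (n - 1) = x ^ n - 0 ^ n := by
  rcases n with _ | n
  · simp
  · rw [integral_const_mul, Nat.add_sub_cancel, integral_mono_pow n x hx]
    have : (((n + 1 : ℕ) : ℝ)) = (n : ℝ) + 1 := by push_cast; ring
    rw [this]
    have h1 : ((n : ℝ) + 1) ≠ 0 := by positivity
    rw [zero_pow (by omega), sub_zero]
    field_simp

theorem muQ_univ : muQ Set.univ = 1 := by
  unfold muQ sq
  rw [Measure.restrict_apply_univ, Measure.volume_eq_prod, Measure.prod_prod]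
  simp

instance : IsProbabilityMeasure muQ := ⟨muQ_univ⟩

/-- The box `[0,x] × [0,y]`. -/
def bx (z : ℝ × ℝ) : Set (ℝ × ℝ) := Set.Icc 0 z.1 ×ˢ Set.Icc 0 z.2

theorem bx_sub (z : ℝ × ℝ) (hz : z ∈ sq) : bx z ⊆ sq := by
  rintro w ⟨h1, h2⟩
  exact ⟨⟨h1.1, h1.2.trans hz.1.2⟩, h2.1, h2.2.trans hz.2.2⟩

theorem integral_bx_prod (z : ℝ × ℝ) (f g : ℝ → ℝ) :
    ∫ w in bx z, f w.1 * g w.2 = (∫ u in Set.Icc 0 z.1, f u) * ∫ v in Set.Icc 0 z.2, g v := by
  rw [bx, Measure.volume_eq_prod, setIntegral_prod_mul]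

theorem integral_bx_le (z : ℝ × ℝ) (hz : z ∈ sq) (h : ℝ × ℝ → ℝ) (hh : MemLp h 2 muQ) (ε : ℝ)
    (hε : 0 < ε) (hn : eLpNorm h 2 muQ < ENNReal.ofReal ε) : |∫ w in bx z, h w| < ε := by
  have h1 : Integrable h muQ := hh.integrable (by norm_num)
  have h2 : eLpNorm h 1 muQ ≤ eLpNorm h 2 muQ :=
    eLpNorm_le_eLpNorm_of_exponent_le (by norm_num) hh.1
  have h3 : ∫ w, ‖h w‖ ∂muQ < ε := by
    have h4 : eLpNorm h 1 muQ < ENNReal.ofReal ε := lt_of_le_of_lt h2 hn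
    rw [eLpNorm_one_eq_lintegral_enorm, ← ofReal_integral_norm_eq_lintegral_enorm h1] at h4
    exact (ENNReal.ofReal_lt_ofReal_iff hε).1 h4
  have h5 : |∫ w in bx z, h w| ≤ ∫ w in bx z, ‖h w‖ := by
    rw [← Real.norm_eq_abs]; exact norm_integral_le_integral_norm _
  have h6 : ∫ w in bx z, ‖h w‖ ≤ ∫ w, ‖h w‖ ∂muQ := by
    unfold muQ
    refine setIntegral_mono_set h1.norm ?_ ?_
    · exact Filter.Eventually.of_forall fun w => norm_nonneg _
    · exact (bx_sub z hz).eventuallyLE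
  linarith

theorem c0_dense_real (Ω : Set (ℕ × ℕ)) (hpos : ∀ p ∈ Ω, 1 ≤ p.1 ∧ 1 ≤ p.2) (δ : ℝ) (hδ : 0 < δ)
    (hΩ : ∃ᶠ N : ℕ in atTop, ∃ Z : Finset (ℕ × ℕ), (∀ p ∈ Z, p ∈ Ω ∧ p.1 ≤ N ∧ p.2 ≤ N) ∧
      δ * (N : ℝ) ^ 2 ≤ Z.card)
    (f : ℝ × ℝ → ℝ) (hf : ContinuousOn f sq) (hf0 : ∀ z ∈ sq, z.1 = 0 ∨ z.2 = 0 → f z = 0)
    (ε : ℝ) (hε : 0 < ε) :
    ∃ c : (ℕ × ℕ) →₀ ℝ, (∀ p ∈ c.support, p ∈ Ω) ∧
      ∀ z ∈ sq, |f z - c.sum (fun p a => a * monom p z)| < ε := by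
  classical
  obtain ⟨c0, hc0⟩ := sw_poly f hf (ε / 8) (by positivity)
  -- the polynomial `R` and its mixed derivative `G`
  set G : ℝ × ℝ → ℝ := fun w => c0.sum (fun p a => a * (((p.1 : ℝ) * w.1 ^ (p.1 - 1)) *
    ((p.2 : ℝ) * w.2 ^ (p.2 - 1)))) with hG
  have hGc : Continuous G := by
    rw [hG]; unfold Finsupp.sum
    exact continuous_finsetSum _ fun p _ => by fun_prop
  have hcont : ∀ (z : ℝ × ℝ) (F : ℝ × ℝ → ℝ), Continuous F → IntegrableOn F (bx z) := by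
    intro z F hF
    exact hF.continuousOn.integrableOn_compact (isCompact_Icc.prod isCompact_Icc)
  have hR : ∀ z ∈ sq, ∫ w in bx z, G w =
      c0.sum (fun p a => a * ((z.1 ^ p.1 - 0 ^ p.1) * (z.2 ^ p.2 - 0 ^ p.2))) := by
    intro z hz
    rw [hG]
    unfold Finsupp.sum
    rw [integral_finsetSum _ fun p _ => hcont z _ (by fun_prop)]
    refine Finset.sum_congr rfl fun p _ => ?_
    rw [integral_const_mul, integral_bx_prod z (fun u => (p.1 : ℝ) * u ^ (p.1 - 1))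
      (fun v => (p.2 : ℝ) * v ^ (p.2 - 1)), integral_der_pow _ _ hz.1.1,
      integral_der_pow _ _ hz.2.1]
  have hfR : ∀ z ∈ sq, |f z - ∫ w in bx z, G w| < ε / 2 := by
    intro z hz
    rw [hR z hz]
    have m1 : ((z.1, 0) : ℝ × ℝ) ∈ sq := ⟨hz.1, ⟨le_refl _, zero_le_one⟩⟩
    have m2 : ((0, z.2) : ℝ × ℝ) ∈ sq := ⟨⟨le_refl _, zero_le_one⟩, hz.2⟩
    have m3 : ((0, 0) : ℝ × ℝ) ∈ sq := ⟨⟨le_refl _, zero_le_one⟩, ⟨le_refl _, zero_le_one⟩⟩
    have e : c0.sum (fun p a => a * ((z.1 ^ p.1 - 0 ^ p.1) * (z.2 ^ p.2 - 0 ^ p.2))) =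
        c0.sum (fun p a => a * monom p z) - c0.sum (fun p a => a * monom p (z.1, 0)) -
          c0.sum (fun p a => a * monom p (0, z.2)) + c0.sum (fun p a => a * monom p (0, 0)) := by
      unfold Finsupp.sum
      rw [← Finset.sum_sub_distrib, ← Finset.sum_sub_distrib, ← Finset.sum_add_distrib]
      refine Finset.sum_congr rfl fun p _ => ?_
      simp only [monom]; ring
    rw [e]
    have k0 := abs_lt.1 (hc0 z hz)
    have k1 := abs_lt.1 (hc0 _ m1)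
    have k2 := abs_lt.1 (hc0 _ m2)
    have k3 := abs_lt.1 (hc0 _ m3)
    rw [hf0 _ m1 (Or.inr rfl)] at k1
    rw [hf0 _ m2 (Or.inl rfl)] at k2
    rw [hf0 _ m3 (Or.inl rfl)] at k3
    rw [abs_lt]
    constructor <;> linarith [k0.1, k0.2, k1.1, k1.2, k2.1, k2.2, k3.1, k3.2]
  -- the shifted set of exponents
  set Ω' : Set (ℕ × ℕ) := {q | (q.1 + 1, q.2 + 1) ∈ Ω} with hΩ'
  have hΩd : ∃ᶠ N : ℕ in atTop, ∃ Z : Finset (ℕ × ℕ), (∀ p ∈ Z, p ∈ Ω' ∧ p.1 ≤ N ∧ p.2 ≤ N) ∧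
      δ * (N : ℝ) ^ 2 ≤ Z.card := by
    refine hΩ.mono ?_
    rintro N ⟨Z, hZ, hcard⟩
    refine ⟨Z.image (fun p => (p.1 - 1, p.2 - 1)), ?_, ?_⟩
    · intro q hq
      obtain ⟨p, hp, rfl⟩ := Finset.mem_image.1 hq
      obtain ⟨h1, h2, h3⟩ := hZ p hp
      obtain ⟨h4, h5⟩ := hpos p h1
      refine ⟨?_, by simp only; omega, by simp only; omega⟩
      show ((p.1 - 1 + 1, p.2 - 1 + 1) : ℕ × ℕ) ∈ Ω
      have : ((p.1 - 1 + 1, p.2 - 1 + 1) : ℕ × ℕ) = p :=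
        Prod.ext (by simp only; omega) (by simp only; omega)
      rw [this]; exact h1
    · rw [Finset.card_image_of_injOn]
      · exact hcard
      · intro p hp q hq hpq
        obtain ⟨h4, h5⟩ := hpos p (hZ p hp).1
        obtain ⟨h6, h7⟩ := hpos q (hZ q hq).1
        have h8 := congrArg Prod.fst hpq
        have h9 := congrArg Prod.snd hpq
        simp only at h8 h9
        exact Prod.ext (by omega) (by omega)
  have hGm : MemLp G 2 muQ := by
    obtain ⟨M, hM⟩ := sq_compact.exists_bound_of_continuousOn hGc.continuousOn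
    refine MemLp.of_bound (C := M) hGc.aestronglyMeasurable ?_
    filter_upwards [sq_pos_ae] with z hz
    exact hM z hz.1
  obtain ⟨d, hd, hn⟩ := l2_dense (𝕜 := ℝ) Ω' δ hδ hΩd G hGm (ε / 2) (by positivity)
  have hdc : Continuous fun w : ℝ × ℝ => d.sum (fun p a => a * ((monom p w : ℝ) : ℝ)) := by
    unfold Finsupp.sum
    exact continuous_finsetSum _ fun p _ => (continuous_const.mul (monom_continuous p))
  have hdm : MemLp (fun w => d.sum (fun p a => a * ((monom p w : ℝ) : ℝ))) 2 muQ := by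
    obtain ⟨M, hM⟩ := sq_compact.exists_bound_of_continuousOn hdc.continuousOn
    refine MemLp.of_bound (C := M) hdc.aestronglyMeasurable ?_
    filter_upwards [sq_pos_ae] with z hz
    exact hM z hz.1
  refine ⟨∑ q ∈ d.support, Finsupp.single (q.1 + 1, q.2 + 1)
    (d q / (((q.1 : ℝ) + 1) * ((q.2 : ℝ) + 1))), ?_, ?_⟩
  · intro p hp
    have h1 := Finsupp.support_finsetSum hp
    obtain ⟨q, hq, h2⟩ := Finset.mem_biUnion.1 h1
    have h3 := Finsupp.support_single_subset h2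
    rw [Finset.mem_singleton] at h3
    rw [h3]
    exact hd q hq
  · intro z hz
    have h1 : (∑ q ∈ d.support, Finsupp.single (q.1 + 1, q.2 + 1)
        (d q / (((q.1 : ℝ) + 1) * ((q.2 : ℝ) + 1)))).sum (fun p a => a * monom p z) =
        ∫ w in bx z, d.sum (fun p a => a * ((monom p w : ℝ) : ℝ)) := by
      have h1b : ∫ w in bx z, d.sum (fun p a => a * ((monom p w : ℝ) : ℝ)) =
          ∑ q ∈ d.support, ∫ w in bx z, d q * monom q w := by
        show ∫ w in bx z, ∑ q ∈ d.support, d q * monom q w = _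
        exact integral_finsetSum _ fun p _ =>
          hcont z _ (continuous_const.mul (monom_continuous p))
      rw [h1b, ← Finsupp.sum_finsetSum_index (by simp) (by intros; ring)]
      unfold Finsupp.sum
      refine Finset.sum_congr rfl fun q _ => ?_
      rw [integral_const_mul]
      simp only [monom]
      rw [integral_bx_prod z (fun u => u ^ q.1) (fun v => v ^ q.2), integral_mono_pow _ _ hz.1.1,
        integral_mono_pow _ _ hz.2.1]
      have e1 : ((q.1 : ℝ) + 1) ≠ 0 := by positivity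
      have e2 : ((q.2 : ℝ) + 1) ≠ 0 := by positivity
      have e3 := Finsupp.sum_single_index (a := ((q.1 + 1, q.2 + 1) : ℕ × ℕ))
        (b := (d q / (((q.1 : ℝ) + 1) * ((q.2 : ℝ) + 1))))
        (h := fun (p : ℕ × ℕ) (a : ℝ) => a * (z.1 ^ p.1 * z.2 ^ p.2)) (by simp)
      unfold Finsupp.sum at e3
      rw [e3]
      field_simp
    rw [h1]
    have h2 : |∫ w in bx z, (G w - d.sum (fun p a => a * ((monom p w : ℝ) : ℝ)))| < ε / 2 :=
      integral_bx_le z hz _ (hGm.sub hdm) (ε / 2) (by positivity) hn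
    rw [integral_sub (hcont z _ hGc) (hcont z _ hdc)] at h2
    have h3 := hfR z hz
    have k0 := abs_lt.1 h2
    have k1 := abs_lt.1 h3
    rw [abs_lt]
    constructor <;> linarith [k0.1, k0.2, k1.1, k1.2]

section RC

variable {𝕜 : Type} [RCLike 𝕜]

theorem c0_dense (Ω : Set (ℕ × ℕ)) (hpos : ∀ p ∈ Ω, 1 ≤ p.1 ∧ 1 ≤ p.2) (δ : ℝ) (hδ : 0 < δ)
    (hΩ : ∃ᶠ N : ℕ in atTop, ∃ Z : Finset (ℕ × ℕ), (∀ p ∈ Z, p ∈ Ω ∧ p.1 ≤ N ∧ p.2 ≤ N) ∧
      δ * (N : ℝ) ^ 2 ≤ Z.card)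
    (f : ℝ × ℝ → 𝕜) (hf : ContinuousOn f sq) (hf0 : ∀ z ∈ sq, z.1 = 0 ∨ z.2 = 0 → f z = 0)
    (ε : ℝ) (hε : 0 < ε) :
    ∃ c : (ℕ × ℕ) →₀ 𝕜, (∀ p ∈ c.support, p ∈ Ω) ∧
      ∀ z ∈ sq, ‖f z - c.sum (fun p a => a * ((monom p z : ℝ) : 𝕜))‖ < ε := by
  classical
  obtain ⟨c1, hc1, h1⟩ := c0_dense_real Ω hpos δ hδ hΩ (fun z => RCLike.re (f z))
    (RCLike.continuous_re.comp_continuousOn hf) (fun z hz h => by rw [hf0 z hz h]; simp)
    (ε / 2) (by positivity)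
  obtain ⟨c2, hc2, h2⟩ := c0_dense_real Ω hpos δ hδ hΩ (fun z => RCLike.im (f z))
    (RCLike.continuous_im.comp_continuousOn hf) (fun z hz h => by rw [hf0 z hz h]; simp)
    (ε / 2) (by positivity)
  set d1 : (ℕ × ℕ) →₀ 𝕜 := c1.mapRange (fun x : ℝ => (x : 𝕜)) (by simp) with hd1
  set d2 : (ℕ × ℕ) →₀ 𝕜 := c2.mapRange (fun x : ℝ => (RCLike.I : 𝕜) * (x : 𝕜)) (by simp) with hd2
  refine ⟨d1 + d2, ?_, ?_⟩
  · intro p hp
    rcases Finset.mem_union.1 (Finsupp.support_add hp) with h | h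
    · exact hc1 p (Finsupp.support_mapRange h)
    · exact hc2 p (Finsupp.support_mapRange h)
  · intro z hz
    have e0 : (d1 + d2).sum (fun p a => a * ((monom p z : ℝ) : 𝕜)) =
        d1.sum (fun p a => a * ((monom p z : ℝ) : 𝕜)) +
          d2.sum (fun p a => a * ((monom p z : ℝ) : 𝕜)) :=
      Finsupp.sum_add_index' (by simp) (by intros; ring)
    have e1 : d1.sum (fun p a => a * ((monom p z : ℝ) : 𝕜)) =
        ((c1.sum (fun p a => a * monom p z) : ℝ) : 𝕜) := by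
      rw [hd1, Finsupp.sum_mapRange_index (by simp)]
      unfold Finsupp.sum
      push_cast
      rfl
    have e2 : d2.sum (fun p a => a * ((monom p z : ℝ) : 𝕜)) =
        (RCLike.I : 𝕜) * ((c2.sum (fun p a => a * monom p z) : ℝ) : 𝕜) := by
      rw [hd2, Finsupp.sum_mapRange_index (by simp)]
      unfold Finsupp.sum
      push_cast
      rw [Finset.mul_sum]
      refine Finset.sum_congr rfl fun p _ => by ring
    rw [e0, e1, e2]
    have e3 : f z - (((c1.sum (fun p a => a * monom p z) : ℝ) : 𝕜) +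
        (RCLike.I : 𝕜) * ((c2.sum (fun p a => a * monom p z) : ℝ) : 𝕜)) =
        ((RCLike.re (f z) - c1.sum (fun p a => a * monom p z) : ℝ) : 𝕜) +
          (RCLike.I : 𝕜) * ((RCLike.im (f z) - c2.sum (fun p a => a * monom p z) : ℝ) : 𝕜) := by
      conv_lhs => rw [← RCLike.re_add_im (f z)]
      push_cast
      ring
    rw [e3]
    have hI : ‖(RCLike.I : 𝕜)‖ ≤ 1 := by
      rcases eq_or_ne (RCLike.I : 𝕜) 0 with h | h
      · rw [h]; simp
      · rw [RCLike.norm_I_of_ne_zero h]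
    calc _ ≤ ‖((RCLike.re (f z) - c1.sum (fun p a => a * monom p z) : ℝ) : 𝕜)‖ +
          ‖(RCLike.I : 𝕜) * ((RCLike.im (f z) - c2.sum (fun p a => a * monom p z) : ℝ) : 𝕜)‖ :=
          norm_add_le _ _
      _ < ε / 2 + ε / 2 := by
          refine add_lt_add ?_ ?_
          · rw [RCLike.norm_ofReal]; exact h1 z hz
          · rw [norm_mul, RCLike.norm_ofReal]
            refine lt_of_le_of_lt ?_ (h2 z hz)
            exact mul_le_of_le_one_left (abs_nonneg _) hI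
      _ = ε := by ring

end RC

end Pool.Agent.H58.Muntz
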